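import Pool.Agent.V11331.FF.Main

/-!
# The case of equality
-/

set_option autoImplicit false

namespace Pool.Agent.V11331.FF

open Polynomial Finset Filter Topology

theorem lagrange_expand {N : ℕ} (ν : Fin N → ℝ) (hν : Function.Injective ν) (h : ℝ[X])
    (hd : h.degree < N) :
    h = ∑ a, (h.eval (ν a) / rd ν a) • P ν (univ.erase a) := by
  refine (Lagrange.eq_interpolate (s := univ) (v := ν) hν.injOn
    (by rw [card_univ_fin]; exact hd)).trans ?_
  rw [Lagrange.interpolate_apply]
  refine Finset.sum_congr rfl fun a _ => ?_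
  unfold Lagrange.basis Lagrange.basisDivisor rd P
  rw [Finset.prod_mul_distrib, eval_prod, smul_eq_C_mul, div_eq_mul_inv, C_mul, mul_assoc]
  congr 2
  rw [← Finset.prod_inv_distrib, map_prod]
  refine Finset.prod_congr rfl fun j _ => ?_
  simp

theorem coeff_P_erase {N : ℕ} (ν : Fin (N + 1) → ℝ) (a : Fin (N + 1)) :
    (P ν (univ.erase a)).coeff N = 1 := by
  have h := P_monic ν (univ.erase a)
  unfold Monic leadingCoeff at h
  rwa [P_natDegree, Finset.card_erase_of_mem (Finset.mem_univ a), card_univ_fin,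
    Nat.add_sub_cancel] at h

theorem sum_div_rd {N : ℕ} (ν : Fin (N + 1) → ℝ) (hν : Function.Injective ν) (h : ℝ[X])
    (hd : h.natDegree ≤ N) :
    ∑ a, h.eval (ν a) / rd ν a = h.coeff N := by
  have hdeg : h.degree < ((N + 1 : ℕ) : WithBot ℕ) :=
    lt_of_le_of_lt degree_le_natDegree (by exact_mod_cast Nat.lt_succ_of_le hd)
  conv_rhs => rw [lagrange_expand ν hν h hdeg]
  rw [finsetSum_coeff]
  refine Finset.sum_congr rfl fun a _ => ?_
  rw [coeff_smul, coeff_P_erase, smul_eq_mul, mul_one]

/-- interpolation of the scores -/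
noncomputable def gp {N : ℕ} (ν : Fin N → ℝ) : ℝ[X] :=
  ∑ a, (J ν a / rd ν a) • P ν (univ.erase a)

theorem gp_eval {N : ℕ} (ν : Fin N → ℝ) (hν : Function.Injective ν) (c : Fin N) :
    (gp ν).eval (ν c) = J ν c := by
  unfold gp
  rw [eval_finsetSum, Finset.sum_eq_single c]
  · rw [eval_smul, smul_eq_mul]
    change J ν c / rd ν c * rd ν c = J ν c
    rw [div_mul_cancel₀ _ (rd_ne ν hν c)]
  · intro a _ ha
    rw [eval_smul, erase_eval_zero ν c a (Ne.symm ha), smul_zero]
  · intro h
    exact absurd (Finset.mem_univ c) h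

theorem gp_natDegree {N : ℕ} (ν : Fin (N + 1) → ℝ) : (gp ν).natDegree ≤ N := by
  unfold gp
  refine natDegree_sum_le_of_forall_le _ _ fun a _ => ?_
  refine (natDegree_smul_le _ _).trans ?_
  rw [P_natDegree, Finset.card_erase_of_mem (Finset.mem_univ a), card_univ_fin,
    Nat.add_sub_cancel]

theorem LL_eq_coeff {N : ℕ} (ν : Fin (N + 1) → ℝ) (hν : Function.Injective ν) (f : ℝ[X])
    (hd : (gp ν * f).natDegree ≤ N) : LL ν f = (gp ν * f).coeff N := by
  rw [← sum_div_rd ν hν _ hd, LL_apply]
  refine Finset.sum_congr rfl fun a _ => ?_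
  rw [eval_mul, gp_eval ν hν]
  ring

/-- if the functional kills the polynomials of degree `< n`, the scores are affine -/
theorem affine_of_kill (n : ℕ) (ν : Fin (n + 2) → ℝ) (hν : Function.Injective ν)
    (hk : ∀ f : ℝ[X], f.degree < n → LL ν f = 0) : (gp ν).natDegree ≤ 1 := by
  by_contra hcon
  push Not at hcon
  have he := gp_natDegree ν
  set e := (gp ν).natDegree with hedef
  have hne : gp ν ≠ 0 := by
    intro h0
    rw [hedef, h0, natDegree_zero] at hcon
    omega
  have h1 : LL ν (X ^ (n + 1 - e)) = 0 := by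
    apply hk
    rw [degree_X_pow]
    exact_mod_cast (by omega : n + 1 - e < n)
  have h2 : (gp ν * X ^ (n + 1 - e)).natDegree ≤ n + 1 := by
    refine natDegree_mul_le.trans ?_
    rw [natDegree_X_pow]
    omega
  rw [LL_eq_coeff ν hν _ h2] at h1
  have h3 : n + 1 = e + (n + 1 - e) := by omega
  have h1' : (gp ν * X ^ (n + 1 - e)).coeff (e + (n + 1 - e)) = 0 := by
    rw [← h3]
    exact h1
  rw [coeff_mul_X_pow] at h1'
  exact hne (leadingCoeff_eq_zero.1 h1')

theorem coeff_box_lower (N n : ℕ) (f g : ℝ[X]) (hf : f.natDegree ≤ n) :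
    (box N f g).coeff n = f.coeff n * g.coeff N := by
  rw [box_apply, finsetSum_coeff, Finset.sum_range_succ, Finset.sum_eq_zero]
  · rw [Nat.sub_self, Function.iterate_zero, id, zero_add, mul_div_assoc, div_self (fact_ne N),
      mul_one, coeff_smul, smul_eq_mul, mul_comm]
  · intro b hb
    have hb' := Finset.mem_range.1 hb
    rw [coeff_smul, coeff_iterate_derivative]
    have : f.coeff (n + (N - b)) = 0 := coeff_eq_zero_of_natDegree_lt (by omega)
    rw [this]
    simp

theorem vv_sub (n : ℕ) (la mu ν : Fin (n + 2) → ℝ) (hν : Function.Injective ν)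
    (hg : (gp ν).natDegree ≤ 1) (i j : Fin (n + 2)) :
    vv n la mu ν j - vv n la mu ν i = (gp ν).coeff 1 * (la j - la i) := by
  rcases eq_or_ne i j with hij | hij
  · subst hij; simp
  have h1 : P la (univ.erase j) - P la (univ.erase i)
      = (la j - la i) • P la ((univ.erase j).erase i) := by
    have h3 : P la (univ.erase j) = (X - C (la i)) * P la ((univ.erase j).erase i) :=
      (P_mul_erase la _ i (Finset.mem_erase.2 ⟨hij, Finset.mem_univ i⟩)).symm
    have h4 : P la (univ.erase i) = (X - C (la j)) * P la ((univ.erase j).erase i) := by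
      rw [Finset.erase_right_comm]
      exact (P_mul_erase la _ j (Finset.mem_erase.2 ⟨hij.symm, Finset.mem_univ j⟩)).symm
    rw [h3, h4, smul_eq_C_mul, C_sub]
    ring
  unfold vv
  rw [← map_sub, ← LinearMap.sub_apply, ← map_sub, h1, map_smul, LinearMap.smul_apply, map_smul,
    smul_eq_mul, mul_comm]
  congr 1
  set f := box (n + 2) (P la ((univ.erase j).erase i)) (P mu univ) with hf
  have hcard : ((univ.erase j).erase i : Finset (Fin (n + 2))).card = n := by
    rw [Finset.card_erase_of_mem (Finset.mem_erase.2 ⟨hij, Finset.mem_univ i⟩),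
      Finset.card_erase_of_mem (Finset.mem_univ j), card_univ_fin]
    rfl
  have hPd : (P la ((univ.erase j).erase i)).natDegree = n := by rw [P_natDegree, hcard]
  have hfd : f.natDegree ≤ n := (natDegree_box_le _ _ _).trans hPd.le
  have hfc : f.coeff n = 1 := by
    rw [hf, coeff_box_lower _ _ _ _ hPd.le]
    have a1 : (P la ((univ.erase j).erase i)).coeff n = 1 := by
      have h := P_monic la ((univ.erase j).erase i)
      unfold Monic leadingCoeff at h
      rwa [hPd] at h
    have a2 : (P mu univ).coeff (n + 2) = 1 := by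
      have h := P_monic mu univ
      unfold Monic leadingCoeff at h
      rwa [P_natDegree, card_univ_fin] at h
    rw [a1, a2, mul_one]
  have hprod : (gp ν * f).natDegree ≤ n + 1 := by
    refine natDegree_mul_le.trans ?_
    omega
  have hco := coeff_mul_add_eq_of_natDegree_le hg hfd
  rw [add_comm 1 n, hfc, mul_one] at hco
  rw [LL_eq_coeff ν hν f hprod, hco]

/-- Stam equality forces the scores of the first factor to be affine -/
theorem stam_eq (n : ℕ) (la mu ν : Fin (n + 2) → ℝ) (hla : Function.Injective la)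
    (hmu : Function.Injective mu) (hν' : Function.Injective ν)
    (hν : box (n + 2) (P la univ) (P mu univ) = P ν univ) (th : ℝ)
    (heq : th ^ 2 * Phi la + (1 - th) ^ 2 * Phi mu - Phi ν = 0) :
    (∀ j, vv n la mu ν j = th * J la j) ∧ (∀ k, uu n la mu ν k = (1 - th) * J mu k) ∧
      (gp ν).natDegree ≤ 1 := by
  obtain ⟨η, hη⟩ := exists_eta n la mu
  have h := stam_exact n la mu ν hla hmu hν' hν th η hη
  have h1 : 0 ≤ ∑ j, (vv n la mu ν j - th * J la j) ^ 2 :=
    Finset.sum_nonneg fun j _ => sq_nonneg _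
  have h2 : 0 ≤ ∑ k, (uu n la mu ν k - (1 - th) * J mu k) ^ 2 :=
    Finset.sum_nonneg fun j _ => sq_nonneg _
  have h3 : 0 ≤ ∑ j, ∑ k, (aa n la mu ν j k - vv n la mu ν j - uu n la mu ν k) ^ 2 :=
    Finset.sum_nonneg fun j _ => Finset.sum_nonneg fun k _ => sq_nonneg _
  have h4 := RR_nonneg n la mu ν η
  have hn : (0 : ℝ) ≤ n := Nat.cast_nonneg n
  have hpos : 0 < 4 * ((n : ℝ) + 1) ^ 2 * ((n : ℝ) + 2) ^ 2 := by positivity
  have h7 := mul_nonneg hpos.le (add_nonneg h1 h2)
  have hpos2 : 0 ≤ 4 * ((n : ℝ) + 1) ^ 2 * ((n : ℝ) + 2) := by positivity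
  have h8 := mul_nonneg hpos2 h3
  rw [heq, mul_zero] at h
  have h9 : RR n la mu ν η = 0 := by linarith
  have h10 : 4 * ((n : ℝ) + 1) ^ 2 * ((n : ℝ) + 2) ^ 2
          * (∑ j, (vv n la mu ν j - th * J la j) ^ 2
            + ∑ k, (uu n la mu ν k - (1 - th) * J mu k) ^ 2) = 0 := by linarith
  have h11 := (mul_eq_zero.1 h10).resolve_left hpos.ne'
  have h12 : ∑ j, (vv n la mu ν j - th * J la j) ^ 2 = 0 := by linarith
  have h13 : ∑ k, (uu n la mu ν k - (1 - th) * J mu k) ^ 2 = 0 := by linarith
  refine ⟨?_, ?_, ?_⟩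
  · intro j
    have := (Finset.sum_eq_zero_iff_of_nonneg (fun j _ => sq_nonneg _)).1 h12 j
      (Finset.mem_univ j)
    have := (pow_eq_zero_iff two_ne_zero).1 this
    linarith
  · intro k
    have := (Finset.sum_eq_zero_iff_of_nonneg (fun j _ => sq_nonneg _)).1 h13 k
      (Finset.mem_univ k)
    have := (pow_eq_zero_iff two_ne_zero).1 this
    linarith
  · apply affine_of_kill n ν hν'
    have hi : (0 : Fin (n + 2)) ≠ 1 := Fin.zero_ne_one
    -- extract the vanishing of one block of squares
    have hin : ∀ k l i m : Fin (n + 2), 0 ≤ (mu k - mu l) ^ 2 * ((la i - la m) ^ 2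
          * ∑ b, (LL ν (P (η k l i m) (univ.erase b))) ^ 2) := by
      intro k l i m
      have : 0 ≤ ∑ b, (LL ν (P (η k l i m) (univ.erase b))) ^ 2 :=
        Finset.sum_nonneg fun b _ => sq_nonneg _
      positivity
    unfold RR at h9
    have e1 := (Finset.sum_eq_zero_iff_of_nonneg (fun k _ => Finset.sum_nonneg fun l _ =>
      Finset.sum_nonneg fun i _ => Finset.sum_nonneg fun m _ => hin k l i m)).1 h9 0
      (Finset.mem_univ _)
    have e2 := (Finset.sum_eq_zero_iff_of_nonneg (fun l _ =>
      Finset.sum_nonneg fun i _ => Finset.sum_nonneg fun m _ => hin 0 l i m)).1 e1 1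
      (Finset.mem_univ _)
    have e3 := (Finset.sum_eq_zero_iff_of_nonneg (fun i _ =>
      Finset.sum_nonneg fun m _ => hin 0 1 i m)).1 e2 0 (Finset.mem_univ _)
    have e4 := (Finset.sum_eq_zero_iff_of_nonneg (fun m _ => hin 0 1 0 m)).1 e3 1
      (Finset.mem_univ _)
    have hmu0 : (mu 0 - mu 1) ^ 2 ≠ 0 := pow_ne_zero 2 (sub_ne_zero.2 fun h => hi (hmu h))
    have hla0 : (la 0 - la 1) ^ 2 ≠ 0 := pow_ne_zero 2 (sub_ne_zero.2 fun h => hi (hla h))
    have e5 := (mul_eq_zero.1 ((mul_eq_zero.1 e4).resolve_left hmu0)).resolve_left hla0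
    have e6 : ∀ b, LL ν (P (η 0 1 0 1) (univ.erase b)) = 0 := by
      intro b
      have := (Finset.sum_eq_zero_iff_of_nonneg (fun j _ => sq_nonneg _)).1 e5 b
        (Finset.mem_univ b)
      exact (pow_eq_zero_iff two_ne_zero).1 this
    have hcard : ((univ.erase 0).erase 1 : Finset (Fin (n + 2))).card = n := by
      rw [Finset.card_erase_of_mem (Finset.mem_erase.2 ⟨hi.symm, Finset.mem_univ 1⟩),
        Finset.card_erase_of_mem (Finset.mem_univ 0), card_univ_fin]
      rfl
    have hηi : Function.Injective (η 0 1 0 1) :=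
      box_simple n la mu _ _ hcard hcard hla.injOn _ (hη 0 1 0 1 hi hi)
    intro f hf
    rw [lagrange_expand (η 0 1 0 1) hηi f hf, map_sum]
    refine Finset.sum_eq_zero fun b _ => ?_
    rw [map_smul, e6 b, smul_zero]

/-! ### Hermite polynomials -/

/-- `exp(-m D - c D^2)`, truncated after `K` terms -/
noncomputable def expop (K : ℕ) (m c : ℝ) : ℝ[X] →ₗ[ℝ] ℝ[X] :=
  ∑ k ∈ range K, (1 / (k.factorial : ℝ)) •
    ((-m) • (derivative : ℝ[X] →ₗ[ℝ] ℝ[X]) - c • (derivative : ℝ[X] →ₗ[ℝ] ℝ[X]) ^ 2) ^ k

/-- the operator `-m D - c D^2` -/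
noncomputable def Lop (m c : ℝ) : ℝ[X] →ₗ[ℝ] ℝ[X] :=
  (-m) • (derivative : ℝ[X] →ₗ[ℝ] ℝ[X]) - c • (derivative : ℝ[X] →ₗ[ℝ] ℝ[X]) ^ 2

theorem Lop_apply (m c : ℝ) (f : ℝ[X]) :
    Lop m c f = (-m) • derivative f - c • derivative (derivative f) := by
  unfold Lop
  rw [LinearMap.sub_apply, LinearMap.smul_apply, LinearMap.smul_apply, Module.End.pow_apply]
  rfl

theorem expop_apply (K : ℕ) (m c : ℝ) (f : ℝ[X]) :
    expop K m c f = ∑ k ∈ range K, (1 / (k.factorial : ℝ)) • ((Lop m c)^[k] f) := by
  unfold expop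
  rw [LinearMap.sum_apply]
  refine Finset.sum_congr rfl fun k _ => ?_
  rw [LinearMap.smul_apply, Module.End.pow_apply]
  rfl

theorem Lop_derivative (m c : ℝ) (f : ℝ[X]) :
    Lop m c (derivative f) = derivative (Lop m c f) := by
  rw [Lop_apply, Lop_apply, derivative_sub, derivative_smul, derivative_smul]

theorem Lop_iter_derivative (m c : ℝ) (k : ℕ) (f : ℝ[X]) :
    (Lop m c)^[k] (derivative f) = derivative ((Lop m c)^[k] f) := by
  induction k with
  | zero => rfl
  | succ k ih => rw [Function.iterate_succ_apply', ih, Lop_derivative,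
      ← Function.iterate_succ_apply' (Lop m c)]

theorem natDegree_Lop (m c : ℝ) (f : ℝ[X]) : (Lop m c f).natDegree ≤ f.natDegree - 1 := by
  rw [Lop_apply]
  have h1 := natDegree_derivative_le f
  have h2 := natDegree_derivative_le (derivative f)
  refine (natDegree_sub_le _ _).trans (max_le ?_ ?_)
  · exact (natDegree_smul_le _ _).trans h1
  · exact (natDegree_smul_le _ _).trans (by omega)

theorem natDegree_Lop_iter (m c : ℝ) (k : ℕ) (f : ℝ[X]) :
    ((Lop m c)^[k] f).natDegree ≤ f.natDegree - k := by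
  induction k with
  | zero => simp
  | succ k ih =>
    rw [Function.iterate_succ_apply']
    have := natDegree_Lop m c ((Lop m c)^[k] f)
    omega

theorem Lop_iter_zero (m c : ℝ) (k : ℕ) (f : ℝ[X]) (hf : f.natDegree < k) :
    (Lop m c)^[k] f = 0 := by
  obtain ⟨k, rfl⟩ : ∃ k', k = k' + 1 := ⟨k - 1, by omega⟩
  rw [Function.iterate_succ_apply']
  have h := natDegree_Lop_iter m c k f
  have h0 : ((Lop m c)^[k] f).natDegree = 0 := by omega
  rw [Lop_apply, derivative_of_natDegree_zero h0]
  simp

theorem Lop_X_mul (m c : ℝ) (f : ℝ[X]) :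
    Lop m c (X * f) = X * Lop m c f - m • f - (2 * c) • derivative f := by
  rw [Lop_apply, Lop_apply, derivative_mul, derivative_X, one_mul, derivative_add, derivative_mul,
    derivative_X, one_mul]
  simp only [smul_eq_C_mul, C_neg, C_mul]
  have : (C (2 : ℝ) : ℝ[X]) = 2 := rfl
  rw [this]
  ring

theorem Lop_iter_X_mul (m c : ℝ) (k : ℕ) (f : ℝ[X]) :
    (Lop m c)^[k + 1] (X * f) = X * (Lop m c)^[k + 1] f
      + ((k : ℝ) + 1) • ((Lop m c)^[k] (-(m • f) - (2 * c) • derivative f)) := by
  induction k with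
  | zero =>
    simp only [Nat.cast_zero, zero_add, one_smul, Function.iterate_one, Function.iterate_zero, id]
    rw [Lop_X_mul]
    ring
  | succ k ih =>
    rw [Function.iterate_succ_apply', ih, map_add, Lop_X_mul, map_smul,
      ← Function.iterate_succ_apply' (Lop m c), ← Function.iterate_succ_apply' (Lop m c)]
    have h1 : (Lop m c)^[k + 1] (-(m • f) - (2 * c) • derivative f)
        = -(m • (Lop m c)^[k + 1] f) - (2 * c) • derivative ((Lop m c)^[k + 1] f) := by
      rw [iterate_map_sub, iterate_map_neg, ← Lop_iter_derivative]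
      congr 1
      · congr 1
        exact (Function.Commute.iterate_left (f := Lop m c) (g := fun g => m • g)
          (fun g => by simp) (k + 1)) f
      · exact (Function.Commute.iterate_left (f := Lop m c) (g := fun g => (2 * c) • g)
          (fun g => by simp) (k + 1)) (derivative f)
    rw [h1]
    push_cast
    simp only [smul_eq_C_mul, C_add, C_mul, C_1]
    ring

theorem expop_derivative (K : ℕ) (m c : ℝ) (f : ℝ[X]) :
    derivative (expop K m c f) = expop K m c (derivative f) := by
  rw [expop_apply, expop_apply, derivative_sum]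
  refine Finset.sum_congr rfl fun k _ => ?_
  rw [derivative_smul, Lop_iter_derivative]

/-- the differential equation of `exp(-m D - c D^2) X^N` -/
theorem expop_ode (N : ℕ) (m c : ℝ) :
    (2 * c) • derivative (derivative (expop (N + 1) m c (X ^ N)))
      = X * derivative (expop (N + 1) m c (X ^ N)) - (N : ℝ) • expop (N + 1) m c (X ^ N)
        - m • derivative (expop (N + 1) m c (X ^ N)) := by
  cases N with
  | zero =>
    have h : expop (0 + 1) m c (X ^ 0 : ℝ[X]) = 1 := by
      rw [expop_apply, Finset.sum_range_succ, Finset.sum_range_zero]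
      simp
    rw [h]
    simp
  | succ N =>
    set f : ℝ[X] := X ^ N with hf
    have hfd : f.natDegree = N := natDegree_X_pow N
    set E := expop (N + 1 + 1) m c with hE
    set g : ℝ[X] := -(m • f) - (2 * c) • derivative f with hg
    have hgd : g.natDegree ≤ N := by
      refine (natDegree_sub_le _ _).trans (max_le ?_ ?_)
      · rw [natDegree_neg]
        exact (natDegree_smul_le _ _).trans hfd.le
      · refine (natDegree_smul_le _ _).trans ((natDegree_derivative_le f).trans ?_)
        omega
    have h1 : E (X ^ (N + 1)) = X * E f + E g := by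
      rw [pow_succ' X N, hE, expop_apply, expop_apply, expop_apply, Finset.sum_range_succ',
        Finset.sum_range_succ' (fun k => (1 / (k.factorial : ℝ)) • ((Lop m c)^[k] f)),
        Finset.sum_range_succ (fun k => (1 / (k.factorial : ℝ)) • ((Lop m c)^[k] g)),
        Lop_iter_zero m c (N + 1) g (by omega), smul_zero, add_zero]
      simp only [Function.iterate_zero, id]
      rw [mul_add, Finset.mul_sum]
      have h2 : ∀ k ∈ range (N + 1), (1 / ((k + 1).factorial : ℝ)) • ((Lop m c)^[k + 1] (X * f))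
          = X * ((1 / ((k + 1).factorial : ℝ)) • (Lop m c)^[k + 1] f)
            + (1 / (k.factorial : ℝ)) • ((Lop m c)^[k] g) := by
        intro k _
        rw [Lop_iter_X_mul, smul_add, mul_smul_comm, smul_smul]
        congr 2
        have a1 : (k.factorial : ℝ) ≠ 0 := fact_ne k
        have a2 : ((k : ℝ) + 1) ≠ 0 := by exact_mod_cast Nat.succ_ne_zero k
        rw [Nat.factorial_succ]
        push_cast
        field_simp
      rw [Finset.sum_congr rfl h2, Finset.sum_add_distrib, mul_smul_comm]
      ring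
    have h3 : derivative (E (X ^ (N + 1))) = ((N : ℝ) + 1) • E f := by
      rw [hE, expop_derivative, derivative_X_pow, ← smul_eq_C_mul, map_smul]
      push_cast
      rfl
    have h4 : derivative (derivative (E (X ^ (N + 1)))) = ((N : ℝ) + 1) • E (derivative f) := by
      rw [h3, derivative_smul, hE, expop_derivative]
    have h5 : E g = -(m • E f) - (2 * c) • E (derivative f) := by
      rw [hg, map_sub, map_neg, map_smul, map_smul]
    rw [h4, h3, h1, h5]
    push_cast
    simp only [smul_eq_C_mul, C_add, C_mul, C_1]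
    ring

theorem expop_monic (N : ℕ) (m c : ℝ) :
    (expop (N + 1) m c (X ^ N)).coeff N = 1 ∧ (expop (N + 1) m c (X ^ N)).natDegree ≤ N := by
  rw [expop_apply]
  constructor
  · rw [finsetSum_coeff, Finset.sum_range_succ', Finset.sum_eq_zero]
    · simp
    · intro k _
      rw [coeff_smul]
      have h := natDegree_Lop_iter m c (k + 1) (X ^ N)
      rw [natDegree_X_pow] at h
      have h0 : N ≠ 0 → ((Lop m c)^[k + 1] (X ^ N)).coeff N = 0 := by
        intro hN
        exact coeff_eq_zero_of_natDegree_lt (by omega)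
      rcases Nat.eq_zero_or_pos N with hN | hN
      · subst hN
        rw [Lop_iter_zero m c (k + 1) _ (by simp)]
        simp
      · rw [h0 (by omega), smul_zero]
  · refine natDegree_sum_le_of_forall_le _ _ fun k _ => ?_
    refine (natDegree_smul_le _ _).trans ?_
    have h := natDegree_Lop_iter m c k (X ^ N)
    rw [natDegree_X_pow] at h
    omega

/-- uniqueness for the Hermite differential equation -/
theorem ode_unique (N : ℕ) (m c : ℝ) (p q : ℝ[X])
    (hp : p.coeff N = 1) (hpd : p.natDegree ≤ N) (hq : q.coeff N = 1) (hqd : q.natDegree ≤ N)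
    (h1 : (2 * c) • derivative (derivative p) = X * derivative p - (N : ℝ) • p - m • derivative p)
    (h2 : (2 * c) • derivative (derivative q)
      = X * derivative q - (N : ℝ) • q - m • derivative q) : p = q := by
  by_contra hne
  set g := p - q with hg
  have hg0 : g ≠ 0 := sub_ne_zero.2 hne
  have hgd : g.natDegree ≤ N := (natDegree_sub_le _ _).trans (max_le hpd hqd)
  have hgN : g.coeff N = 0 := by rw [hg, coeff_sub, hp, hq, sub_self]
  have hglt : g.natDegree < N := by
    rcases lt_or_eq_of_le hgd with h | h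
    · exact h
    · exfalso
      apply hg0
      rw [← leadingCoeff_eq_zero, leadingCoeff, h, hgN]
  have h3 : (2 * c) • derivative (derivative g)
      = X * derivative g - (N : ℝ) • g - m • derivative g := by
    rw [hg, derivative_sub, derivative_sub, smul_sub, h1, h2]
    simp only [smul_eq_C_mul]
    ring
  set e := g.natDegree with he
  have h4 := congrArg (fun f => f.coeff e) h3
  simp only [coeff_smul, coeff_sub, smul_eq_mul] at h4
  have d1 : (derivative g).coeff e = 0 := by
    rw [coeff_derivative, coeff_eq_zero_of_natDegree_lt (by omega), zero_mul]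
  have d2 : (derivative (derivative g)).coeff e = 0 := by
    rw [coeff_derivative, coeff_derivative, coeff_eq_zero_of_natDegree_lt (by omega)]
    simp
  have d3 : (X * derivative g).coeff e = (e : ℝ) * g.coeff e := by
    cases he' : e with
    | zero => simp
    | succ k => rw [coeff_X_mul, coeff_derivative]; push_cast; ring
  rw [d1, d2, d3] at h4
  have h5 : ((e : ℝ) - N) * g.coeff e = 0 := by linarith
  have h6 : g.coeff e ≠ 0 := by
    rw [he]
    exact fun h => hg0 (leadingCoeff_eq_zero.1 h)
  have h7 := (mul_eq_zero.1 h5).resolve_right h6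
  have h8 : (e : ℝ) = N := by linarith
  have h9 : e = N := by exact_mod_cast h8
  omega

theorem sum_J_la {N : ℕ} (la : Fin N → ℝ) (hla : Function.Injective la) :
    2 * ∑ j, J la j * la j = (N : ℝ) * ((N : ℝ) - 1) := by
  have h1 : ∑ j, J la j * la j = ∑ j, ∑ i ∈ univ.erase j, la j / (la j - la i) := by
    refine Finset.sum_congr rfl fun j _ => ?_
    unfold J
    rw [Finset.sum_mul]
    refine Finset.sum_congr rfl fun i _ => ?_
    ring
  have h2 : 2 * ∑ j, J la j * la j = ∑ j, ∑ i ∈ univ.erase j,
      (la j / (la j - la i) + la i / (la i - la j)) := by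
    simp only [Finset.sum_add_distrib]
    rw [← erase_sum_comm (fun j i => la j / (la j - la i)), h1]
    ring
  rw [h2]
  have h3 : ∀ j : Fin N, ∑ i ∈ univ.erase j, (la j / (la j - la i) + la i / (la i - la j))
      = (N : ℝ) - 1 := by
    intro j
    have h4 : ∀ i ∈ univ.erase j, (la j / (la j - la i) + la i / (la i - la j)) = 1 := by
      intro i hi
      have hij : i ≠ j := (Finset.mem_erase.1 hi).1
      have hne : la j - la i ≠ 0 := sub_ne_zero.2 fun h => hij (hla h).symm
      rw [← neg_sub (la j) (la i), div_neg]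
      field_simp
      ring
    rw [Finset.sum_congr rfl h4, Finset.sum_const, Finset.card_erase_of_mem (Finset.mem_univ j),
      card_univ_fin, nsmul_eq_mul, mul_one]
    have : 1 ≤ N := by
      have := j.2
      omega
    push_cast [Nat.cast_sub this]
    ring
  rw [Finset.sum_congr rfl fun j _ => h3 j, Finset.sum_const, card_univ_fin, nsmul_eq_mul]

/-- affine scores characterise the Hermite polynomials -/
theorem hermite_of_affine (n : ℕ) (la : Fin (n + 2) → ℝ) (hla : Function.Injective la)
    (a b : ℝ) (h : ∀ j, J la j = a * la j + b) :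
    ∃ m s : ℝ, 0 ≤ s ∧ P la univ
      = expop (n + 3) m (s / (2 * ((n + 2 : ℕ) - 1 : ℝ))) (X ^ (n + 2)) := by
  have hM := sum_J_la la hla
  have hS := sum_J la
  have hn : (0 : ℝ) ≤ n := Nat.cast_nonneg n
  push_cast at hM
  have hMpos : 0 < ∑ j, J la j * la j := by nlinarith
  have ha0 : 0 < a := by
    have h1 : a * ∑ j, J la j * la j = ∑ j, J la j ^ 2 := by
      have h2 : ∑ j, J la j ^ 2 = a * ∑ j, J la j * la j + b * ∑ j, J la j := by
        rw [Finset.mul_sum, Finset.mul_sum, ← Finset.sum_add_distrib]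
        refine Finset.sum_congr rfl fun j _ => ?_
        rw [sq]
        conv_lhs => rw [h j]
        rw [h j]
        ring
      rw [h2, hS]
      ring
    have h3 : 0 ≤ ∑ j, J la j ^ 2 := Finset.sum_nonneg fun j _ => sq_nonneg _
    have h4 : 0 ≤ a := by
      by_contra hc
      push Not at hc
      have := mul_neg_of_neg_of_pos hc hMpos
      linarith
    rcases eq_or_lt_of_le h4 with h5 | h5
    · exfalso
      rw [← h5, zero_mul] at h1
      have h6 : ∀ j, J la j = 0 := by
        intro j
        have := (Finset.sum_eq_zero_iff_of_nonneg (fun j _ => sq_nonneg _)).1 h1.symm j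
          (Finset.mem_univ j)
        exact (pow_eq_zero_iff two_ne_zero).1 this
      rw [Finset.sum_eq_zero fun j _ => by rw [h6 j, zero_mul]] at hMpos
      exact lt_irrefl _ hMpos
    · exact h5
  refine ⟨-b / a, ((n : ℝ) + 1) / (2 * a), by positivity, ?_⟩
  have hc : ((n : ℝ) + 1) / (2 * a) / (2 * (((n + 2 : ℕ) : ℝ) - 1)) = 1 / (4 * a) := by
    have e : (((n + 2 : ℕ) : ℝ) - 1) = (n : ℝ) + 1 := by push_cast; ring
    have hn1 : (n : ℝ) + 1 ≠ 0 := by positivity
    rw [e]
    field_simp
    ring
  rw [hc]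
  have hex := expop_monic (n + 2) (-b / a) (1 / (4 * a))
  refine ode_unique (n + 2) (-b / a) (1 / (4 * a)) _ _ ?_ ?_ hex.1 hex.2 ?_
    (expop_ode (n + 2) (-b / a) (1 / (4 * a)))
  · have h := P_monic la univ
    unfold Monic leadingCoeff at h
    rwa [P_natDegree, card_univ_fin] at h
  · rw [P_natDegree, card_univ_fin]
  · rw [← J_poly la hla]
    have h1 : ∑ j, J la j • P la (univ.erase j)
        = a • (X * derivative (P la univ) - ((n + 2 : ℕ) : ℝ) • P la univ)
          + b • derivative (P la univ) := by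
      have h2 : X * derivative (P la univ) - ((n + 2 : ℕ) : ℝ) • P la univ
          = ∑ j, la j • P la (univ.erase j) := by
        have h3 : ((n + 2 : ℕ) : ℝ) • P la univ
            = ∑ j, (X - C (la j)) * P la (univ.erase j) := by
          rw [Finset.sum_congr rfl (fun k hk => P_mul_erase la univ k hk), Finset.sum_const,
            card_univ_fin, ← Nat.cast_smul_eq_nsmul ℝ]
        rw [h3, P_derivative, Finset.mul_sum, ← Finset.sum_sub_distrib]
        refine Finset.sum_congr rfl fun k _ => ?_
        rw [smul_eq_C_mul]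
        ring
      rw [h2, P_derivative, Finset.smul_sum, Finset.smul_sum, ← Finset.sum_add_distrib]
      refine Finset.sum_congr rfl fun j _ => ?_
      rw [h j, smul_smul, ← add_smul]
    rw [h1, smul_smul]
    simp only [smul_eq_C_mul]
    have e1 : C (2 * (1 / (4 * a)) * 2) * C a = (1 : ℝ[X]) := by
      rw [← C_mul, ← C_1]
      congr 1
      field_simp
      ring
    have e2 : C (2 * (1 / (4 * a)) * 2) * C b = -C (-b / a) := by
      rw [← C_mul, ← C_neg]
      congr 1
      field_simp
      ring
    linear_combination (X * derivative (P la univ) - C ((n + 2 : ℕ) : ℝ) * P la univ) * e1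
      + (derivative (P la univ)) * e2

theorem affine_of_vv (n : ℕ) (la mu ν : Fin (n + 2) → ℝ) (hν : Function.Injective ν)
    (hg : (gp ν).natDegree ≤ 1) (th : ℝ) (hth : th ≠ 0)
    (hv : ∀ j, vv n la mu ν j = th * J la j) :
    ∃ a b : ℝ, ∀ j, J la j = a * la j + b := by
  refine ⟨(gp ν).coeff 1 / th, J la 0 - (gp ν).coeff 1 / th * la 0, fun j => ?_⟩
  have h := vv_sub n la mu ν hν hg 0 j
  rw [hv, hv] at h
  have h2 : th * (J la j - J la 0) = (gp ν).coeff 1 * (la j - la 0) := by linarith
  have h3 : J la j - J la 0 = (gp ν).coeff 1 / th * (la j - la 0) := by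
    field_simp
    linarith
  linarith

theorem uu_eq_vv (n : ℕ) (la mu ν : Fin (n + 2) → ℝ) (k : Fin (n + 2)) :
    uu n la mu ν k = vv n mu la ν k := by
  unfold uu vv
  rw [box_comm]
  · rw [P_natDegree, card_univ_fin]
  · rw [P_natDegree, Finset.card_erase_of_mem (Finset.mem_univ k), card_univ_fin]
    omega

/-- **Equality in the finite free entropy power inequality forces Hermite polynomials.** -/
theorem epi_eq (n : ℕ) (la mu ν : Fin (n + 2) → ℝ) (hla : Function.Injective la)
    (hmu : Function.Injective mu)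
    (hν : box (n + 2) (P la univ) (P mu univ) = P ν univ)
    (heq : dis ν ^ (1 / ((n + 2).choose 2 : ℝ))
      = dis la ^ (1 / ((n + 2).choose 2 : ℝ)) + dis mu ^ (1 / ((n + 2).choose 2 : ℝ))) :
    (∃ m s : ℝ, 0 ≤ s ∧ P la univ
      = expop (n + 3) m (s / (2 * ((n + 2 : ℕ) - 1 : ℝ))) (X ^ (n + 2))) ∧
    (∃ m s : ℝ, 0 ≤ s ∧ P mu univ
      = expop (n + 3) m (s / (2 * ((n + 2 : ℕ) - 1 : ℝ))) (X ^ (n + 2))) := by
  have hνi : Function.Injective ν := box_simple (n + 2) la mu univ univ (card_univ_fin _)
    (card_univ_fin _) hla.injOn ν hν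
  have hM := choose_pos n
  set M : ℝ := ((n + 2).choose 2 : ℝ) with hMdef
  have ha := dis_ne la hla
  have hb := dis_ne mu hmu
  have hc := dis_ne ν hνi
  set α := dis la ^ (1 / M) with hα
  set β := dis mu ^ (1 / M) with hβ
  have hαp : 0 < α := Real.rpow_pos_of_pos ha _
  have hβp : 0 < β := Real.rpow_pos_of_pos hb _
  have hs : 0 < α + β := by linarith
  set th := α / (α + β) with hth
  have h0 : 0 < th := by positivity
  have h1 : th < 1 := by rw [hth, div_lt_one hs]; linarith
  have hlim := gg_limit n la mu ν th h0 h1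
  have hanti := gg_antitone n la mu ν hla hmu hνi hν th h0 h1
  have e0 : gg n la mu ν th 0
      = Real.log (dis ν) - th * Real.log (dis la) - (1 - th) * Real.log (dis mu) := by
    unfold gg
    rw [mul_zero, mul_zero, mul_zero, heat_zero, heat_zero, heat_zero, dd_P, dd_P, dd_P]
  have e1 : gg n la mu ν th 0
      = M * (-(th * Real.log th) - (1 - th) * Real.log (1 - th)) := by
    have h2 : 1 - th = β / (α + β) := by rw [hth]; field_simp; ring
    have hla' : Real.log (dis la) = M * Real.log α := by
      rw [hα, Real.log_rpow ha]; field_simp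
    have hlb' : Real.log (dis mu) = M * Real.log β := by
      rw [hβ, Real.log_rpow hb]; field_simp
    have hlc' : Real.log (dis ν) = M * Real.log (α + β) := by
      rw [← heq, Real.log_rpow hc]; field_simp
    rw [e0, hla', hlb', hlc', h2, Real.log_div hβp.ne' hs.ne']
    have h3 : Real.log th = Real.log α - Real.log (α + β) := by
      rw [hth, Real.log_div hαp.ne' hs.ne']
    rw [h3, hth]
    field_simp
    ring
  have hconst : ∀ t ∈ Set.Ici (0 : ℝ), gg n la mu ν th t = gg n la mu ν th 0 := by
    intro t ht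
    refine le_antisymm (hanti Set.self_mem_Ici ht ht) ?_
    rw [e1]
    refine le_of_tendsto hlim ?_
    filter_upwards [eventually_ge_atTop t] with u hu
    exact hanti ht (le_trans ht hu) hu
  obtain ⟨la', mu', ν', i1, i2, i3, p1, p2, p3, hd⟩ :=
    gg_deriv n la mu ν hla hmu hνi hν th h0 h1 0 le_rfl
  have hd1 : HasDerivWithinAt (gg n la mu ν th)
      (-4 * (th ^ 2 * Phi la' + (1 - th) ^ 2 * Phi mu' - Phi ν')) (Set.Ici 0) 0 :=
    hd.hasDerivWithinAt
  have hd2 : HasDerivWithinAt (gg n la mu ν th) 0 (Set.Ici 0) 0 :=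
    (hasDerivWithinAt_const 0 (Set.Ici 0) (gg n la mu ν th 0)).congr hconst rfl
  have hz := (uniqueDiffWithinAt_Ici (0 : ℝ)).eq_deriv _ hd1 hd2
  have hz' : th ^ 2 * Phi la' + (1 - th) ^ 2 * Phi mu' - Phi ν' = 0 := by linarith
  obtain ⟨q1, q2, q3⟩ := stam_eq n la' mu' ν' i1 i2 i3 p3 th hz'
  rw [mul_zero, heat_zero] at p1 p2
  constructor
  · obtain ⟨a, b, hab⟩ := affine_of_vv n la' mu' ν' i3 q3 th h0.ne' q1
    rw [p1]
    exact hermite_of_affine n la' i1 a b hab
  · obtain ⟨a, b, hab⟩ := affine_of_vv n mu' la' ν' i3 q3 (1 - th) (by linarith)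
      (fun j => by rw [← uu_eq_vv]; exact q2 j)
    rw [p2]
    exact hermite_of_affine n mu' i2 a b hab

end Pool.Agent.V11331.FF
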