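import Mathlib

/-!
# Finite free additive convolution: an internal bilinear form of it

`box n f g = ∑_{b ≤ n} g_b (b! / n!) f^{(n-b)}`.
-/

set_option autoImplicit false

namespace Pool.Agent.V11331.FF

open Polynomial Finset

variable {K : Type*} [Field K] [CharZero K]

/-- `f ⊞_n g = ∑_{b ≤ n} g_b (b!/n!) D^{n-b} f`. -/
noncomputable def box (n : ℕ) : K[X] →ₗ[K] K[X] →ₗ[K] K[X] :=
  LinearMap.mk₂ K
    (fun f g => ∑ b ∈ range (n + 1),
      (g.coeff b * (b.factorial : K) / (n.factorial : K)) • (derivative^[n - b] f))
    (by
      intro f₁ f₂ g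
      rw [← Finset.sum_add_distrib]
      refine Finset.sum_congr rfl fun b _ => ?_
      rw [iterate_map_add, smul_add])
    (by
      intro c f g
      rw [Finset.smul_sum]
      refine Finset.sum_congr rfl fun b _ => ?_
      rw [iterate_derivative_smul, smul_comm])
    (by
      intro f g₁ g₂
      rw [← Finset.sum_add_distrib]
      refine Finset.sum_congr rfl fun b _ => ?_
      rw [coeff_add, ← add_smul]
      congr 1
      ring)
    (by
      intro c f g
      rw [Finset.smul_sum]
      refine Finset.sum_congr rfl fun b _ => ?_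
      rw [coeff_smul, smul_smul]
      congr 1
      simp only [smul_eq_mul]
      ring)

theorem box_apply (n : ℕ) (f g : K[X]) :
    box n f g = ∑ b ∈ range (n + 1),
      (g.coeff b * (b.factorial : K) / (n.factorial : K)) • (derivative^[n - b] f) := rfl

theorem derivative_box (n : ℕ) (f g : K[X]) :
    derivative (box n f g) = box n (derivative f) g := by
  rw [box_apply, box_apply, derivative_sum]
  refine Finset.sum_congr rfl fun b _ => ?_
  rw [derivative_smul, ← Function.iterate_succ_apply' derivative, Function.iterate_succ_apply]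

theorem fact_ne (n : ℕ) : (n.factorial : K) ≠ 0 := by
  exact_mod_cast Nat.factorial_ne_zero n

theorem succ_box (n : ℕ) (f g : K[X]) (hf : f.natDegree ≤ n) :
    ((n : K) + 1) • box (n + 1) f g = box n f (derivative g) := by
  rw [box_apply, box_apply, Finset.sum_range_succ']
  have h0 : derivative^[n + 1 - 0] f = 0 :=
    iterate_derivative_eq_zero (by omega)
  rw [h0, smul_zero, add_zero, Finset.smul_sum]
  refine Finset.sum_congr rfl fun b _ => ?_
  rw [smul_smul, coeff_derivative]
  have h1 : n + 1 - (b + 1) = n - b := by omega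
  rw [h1]
  congr 1
  have hn : (n.factorial : K) ≠ 0 := fact_ne n
  have hn1 : ((n : K) + 1) ≠ 0 := by exact_mod_cast Nat.succ_ne_zero n
  rw [Nat.factorial_succ, Nat.factorial_succ]
  push_cast
  field_simp

theorem succ_box_left (n : ℕ) (f g : K[X]) (hg : g.natDegree ≤ n) :
    ((n : K) + 1) • box (n + 1) f g = box n (derivative f) g := by
  rw [box_apply, box_apply, Finset.sum_range_succ]
  have h0 : g.coeff (n + 1) = 0 := coeff_eq_zero_of_natDegree_lt (by omega)
  rw [h0]
  simp only [zero_mul, zero_div, zero_smul, add_zero]
  rw [Finset.smul_sum]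
  refine Finset.sum_congr rfl fun b hb => ?_
  rw [smul_smul]
  have hb' : b ≤ n := by
    have := Finset.mem_range.1 hb
    omega
  have h1 : n + 1 - b = (n - b) + 1 := by omega
  rw [h1, Function.iterate_succ_apply]
  congr 1
  have hn : (n.factorial : K) ≠ 0 := fact_ne n
  have hn1 : ((n : K) + 1) ≠ 0 := by exact_mod_cast Nat.succ_ne_zero n
  rw [Nat.factorial_succ]
  push_cast
  field_simp

theorem succ_box_X (n : ℕ) (f g : K[X]) (hf : f.natDegree ≤ n) :
    ((n : K) + 1) • box (n + 1) (X * f) g
      = X * box n f (derivative g) + box n f (((n : K) + 1) • g - X * derivative g) := by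
  have hn : (n.factorial : K) ≠ 0 := fact_ne n
  have hn1 : ((n : K) + 1) ≠ 0 := by exact_mod_cast Nat.succ_ne_zero n
  have hX : X * box n f (derivative g) = ((n : K) + 1) • (X * box (n + 1) f g) := by
    rw [← succ_box n f g hf, mul_smul_comm]
  rw [hX]
  have hL : box (n + 1) (X * f) g = X * box (n + 1) f g
      + ∑ b ∈ range (n + 1 + 1), (g.coeff b * (b.factorial : K) / ((n + 1).factorial : K)) •
          ((n + 1 - b : ℕ) • (derivative^[n + 1 - b - 1] f)) := by
    rw [box_apply, box_apply, Finset.mul_sum, ← Finset.sum_add_distrib]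
    refine Finset.sum_congr rfl fun b _ => ?_
    rw [mul_comm X f, iterate_derivative_mul_X, smul_add, mul_smul_comm, mul_comm X]
  rw [hL, smul_add]
  congr 1
  rw [box_apply, Finset.sum_range_succ]
  have h0 : n + 1 - (n + 1) = 0 := by omega
  rw [h0, zero_smul, smul_zero, add_zero, Finset.smul_sum]
  refine Finset.sum_congr rfl fun b hb => ?_
  have hb' : b ≤ n := by
    have := Finset.mem_range.1 hb
    omega
  have h1 : n + 1 - b - 1 = n - b := by omega
  rw [h1, ← Nat.cast_smul_eq_nsmul K, smul_smul, smul_smul, coeff_sub, coeff_smul]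
  have h2 : (X * derivative g).coeff b = (b : K) * g.coeff b := by
    cases b with
    | zero => simp
    | succ b => rw [coeff_X_mul, coeff_derivative]; push_cast; ring
  rw [h2]
  congr 1
  have h3 : ((n + 1 - b : ℕ) : K) = (n : K) + 1 - b := by
    rw [Nat.cast_sub (by omega)]; push_cast; ring
  rw [h3, Nat.factorial_succ]
  push_cast
  simp only [smul_eq_mul]
  field_simp
  try ring

/-- the coefficient `c(a,b)` of the convolution -/
theorem box_monomial (n a b : ℕ) (hb : b ≤ n) :
    box n (X ^ a : K[X]) (X ^ b) =
      (if n ≤ a + b then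
        ((a.factorial : K) * b.factorial / (n.factorial * (a + b - n).factorial)) • X ^ (a + b - n)
       else 0) := by
  rw [box_apply, Finset.sum_eq_single b]
  · rw [coeff_X_pow_self, one_mul, iterate_derivative_X_pow_eq_smul]
    split_ifs with h
    · have h1 : a - (n - b) = a + b - n := by omega
      have h2 : n - b ≤ a := by omega
      rw [h1, smul_smul]
      congr 1
      have h3 : (a.descFactorial (n - b) : K) = a.factorial / (a + b - n).factorial := by
        rw [eq_div_iff (fact_ne _), ← h1, mul_comm]
        exact_mod_cast Nat.factorial_mul_descFactorial h2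
      rw [h3]
      have := fact_ne (K := K) n
      have := fact_ne (K := K) (a + b - n)
      field_simp
    · have h2 : a < n - b := by omega
      rw [Nat.descFactorial_of_lt h2]
      simp
  · intro c _ hc
    rw [coeff_X_pow, if_neg hc]
    simp
  · intro h
    exfalso
    exact h (Finset.mem_range.2 (by omega))

theorem box_comm_X (n a b : ℕ) (ha : a ≤ n) (hb : b ≤ n) :
    box n (X ^ a : K[X]) (X ^ b) = box n (X ^ b) (X ^ a) := by
  rw [box_monomial n a b hb, box_monomial n b a ha, add_comm b a, mul_comm (b.factorial : K)]

theorem box_comm (n : ℕ) (f g : K[X]) (hf : f.natDegree ≤ n) (hg : g.natDegree ≤ n) :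
    box n f g = box n g f := by
  have hf' := f.as_sum_range' (n + 1) (by omega)
  have hg' := g.as_sum_range' (n + 1) (by omega)
  rw [hf', hg']
  simp only [map_sum, LinearMap.sum_apply]
  rw [Finset.sum_comm]
  refine Finset.sum_congr rfl fun b hb => Finset.sum_congr rfl fun a ha => ?_
  have ha' := Finset.mem_range.1 ha
  have hb' := Finset.mem_range.1 hb
  rw [← smul_X_eq_monomial, ← smul_X_eq_monomial]
  simp only [map_smul, LinearMap.smul_apply]
  rw [box_comm_X n _ _ (by omega) (by omega), smul_comm]

theorem box_one (n : ℕ) (g : K[X]) : box n (1 : K[X]) g = C (g.coeff n) := by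
  rw [box_apply, Finset.sum_range_succ, Finset.sum_eq_zero]
  · rw [Nat.sub_self, Function.iterate_zero, id, zero_add, mul_div_assoc, div_self (fact_ne n),
      mul_one, ← C_mul', mul_one]
  · intro b hb
    have hb' := Finset.mem_range.1 hb
    rw [iterate_derivative_one (by omega), smul_zero]

theorem natDegree_box_le (n : ℕ) (f g : K[X]) :
    (box n f g).natDegree ≤ f.natDegree := by
  rw [box_apply]
  refine natDegree_sum_le_of_forall_le _ _ fun b _ => ?_
  refine (natDegree_smul_le _ _).trans ?_
  exact (natDegree_iterate_derivative f _).trans (Nat.sub_le _ _)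

theorem coeff_box_natDegree (n : ℕ) (f g : K[X]) (hf : f.natDegree ≤ n) :
    (box n f g).coeff n = f.coeff n * g.coeff n := by
  rw [box_apply, finsetSum_coeff, Finset.sum_range_succ, Finset.sum_eq_zero]
  · rw [Nat.sub_self, Function.iterate_zero, id, zero_add, mul_div_assoc, div_self (fact_ne n),
      mul_one, coeff_smul, smul_eq_mul, mul_comm]
  · intro b hb
    have hb' := Finset.mem_range.1 hb
    rw [coeff_smul]
    have : (derivative^[n - b] f).coeff n = 0 := by
      apply coeff_eq_zero_of_natDegree_lt
      have := natDegree_iterate_derivative f (n - b)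
      omega
    rw [this, smul_zero]

end Pool.Agent.V11331.FF
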