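import Mathlib

/-!
# The sum-of-squares identity, abstract form
-/

set_option autoImplicit false

namespace Pool.Agent.V11331.FF

open Finset

variable {K : Type*} [Field K]

theorem symm2 {κ : Type*} (t : Finset κ) (f : κ → κ → K) :
    2 * ∑ k ∈ t, ∑ l ∈ t, f k l = ∑ k ∈ t, ∑ l ∈ t, (f k l + f l k) := by
  have h : ∑ k ∈ t, ∑ l ∈ t, f k l = ∑ k ∈ t, ∑ l ∈ t, f l k := Finset.sum_comm
  simp only [Finset.sum_add_distrib]
  rw [← h]
  ring

/-- for fixed `j` and `k ≠ l` -/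
theorem lemA {ι : Type*} (s : Finset ι) (la : ι → K) (x y c mk ml : K)
    (ajk ajl ajk' ajl' : K) (b b' : ι → K)
    (h1 : c * ajk = ∑ i ∈ s, (x - la i - ml) * b i)
    (h2 : c * ajl = ∑ i ∈ s, (x - la i - mk) * b i)
    (h1' : c * ajk' = ∑ i ∈ s, (y - la i - ml) * b' i)
    (h2' : c * ajl' = ∑ i ∈ s, (y - la i - mk) * b' i) :
    c ^ 2 * (-(y - x) * (ajk - ajl) * (ajk' - ajl') + (mk - ml) * (ajk * ajl' - ajl * ajk'))
      = (mk - ml) ^ 2 * ∑ i ∈ s, ∑ m ∈ s, (la i - la m) * (b i * b' m) := by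
  have e1 : ∀ (z w : K) (g : ι → K), ∑ i ∈ s, (z - la i - w) * g i
      = (z - w) * (∑ i ∈ s, g i) - ∑ i ∈ s, la i * g i := by
    intro z w g
    rw [Finset.mul_sum, ← Finset.sum_sub_distrib]
    exact Finset.sum_congr rfl fun i _ => by ring
  rw [e1] at h1 h2 h1' h2'
  have e2 : ∑ i ∈ s, ∑ m ∈ s, (la i - la m) * (b i * b' m)
      = (∑ i ∈ s, la i * b i) * (∑ i ∈ s, b' i) - (∑ i ∈ s, b i) * (∑ i ∈ s, la i * b' i) := by
    rw [Finset.sum_mul_sum, Finset.sum_mul_sum, ← Finset.sum_sub_distrib]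
    refine Finset.sum_congr rfl fun i _ => ?_
    rw [← Finset.sum_sub_distrib]
    exact Finset.sum_congr rfl fun m _ => by ring
  rw [e2]
  generalize (∑ i ∈ s, b i) = S at *
  generalize (∑ i ∈ s, b' i) = S' at *
  generalize (∑ i ∈ s, la i * b i) = L at *
  generalize (∑ i ∈ s, la i * b' i) = L' at *
  have : c ^ 2 * (-(y - x) * (ajk - ajl) * (ajk' - ajl') + (mk - ml) * (ajk * ajl' - ajl * ajk'))
      = -(y - x) * (c * ajk - c * ajl) * (c * ajk' - c * ajl')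
        + (mk - ml) * ((c * ajk) * (c * ajl') - (c * ajl) * (c * ajk')) := by ring
  rw [this, h1, h2, h1', h2']
  ring

theorem lemB {ι κ : Type*} (s : Finset ι) (t : Finset κ) (la : ι → K) (mu : κ → K)
    (x y N r ry dr dry : K) (a a' : ι → κ → K) (hN : (t.card : K) = N)
    (h1 : ∀ j ∈ s, N * r = ∑ k ∈ t, (x - la j - mu k) * a j k)
    (h1' : ∀ j ∈ s, N * ry = ∑ k ∈ t, (y - la j - mu k) * a' j k)
    (h2 : N * dr = ∑ j ∈ s, ∑ k ∈ t, a j k)
    (h2' : N * dry = ∑ j ∈ s, ∑ k ∈ t, a' j k) :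
    2 * (N ^ 2 * (dr * ry - r * dry) - N * (y - x) * ∑ j ∈ s, ∑ k ∈ t, a j k * a' j k)
      = ∑ j ∈ s, ∑ k ∈ t, ∑ l ∈ t, (-(y - x) * (a j k - a j l) * (a' j k - a' j l)
          + (mu k - mu l) * (a j k * a' j l - a j l * a' j k)) := by
  have e1 : N ^ 2 * (dr * ry - r * dry)
      = ∑ j ∈ s, ∑ k ∈ t, ∑ l ∈ t, (y - x + mu k - mu l) * (a j k * a' j l) := by
    have : N ^ 2 * (dr * ry - r * dry) = (N * dr) * (N * ry) - (N * r) * (N * dry) := by ring
    rw [this, h2, h2', Finset.sum_mul, Finset.mul_sum, ← Finset.sum_sub_distrib]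
    refine Finset.sum_congr rfl fun j hj => ?_
    rw [h1 j hj, h1' j hj, Finset.sum_mul_sum, Finset.sum_mul_sum, ← Finset.sum_sub_distrib]
    refine Finset.sum_congr rfl fun k _ => ?_
    rw [← Finset.sum_sub_distrib]
    exact Finset.sum_congr rfl fun l _ => by ring
  have e2 : N * (y - x) * ∑ j ∈ s, ∑ k ∈ t, a j k * a' j k
      = ∑ j ∈ s, ∑ k ∈ t, ∑ l ∈ t, (y - x) * (a j k * a' j k) := by
    rw [Finset.mul_sum]
    refine Finset.sum_congr rfl fun j _ => ?_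
    rw [Finset.mul_sum]
    refine Finset.sum_congr rfl fun k _ => ?_
    rw [Finset.sum_const, nsmul_eq_mul, hN]
    ring
  rw [e1, e2, ← Finset.sum_sub_distrib, Finset.mul_sum]
  refine Finset.sum_congr rfl fun j _ => ?_
  rw [← Finset.sum_sub_distrib]
  have e3 : ∀ k ∈ t, (∑ l ∈ t, (y - x + mu k - mu l) * (a j k * a' j l)
      - ∑ l ∈ t, (y - x) * (a j k * a' j k))
      = ∑ l ∈ t, ((y - x + mu k - mu l) * (a j k * a' j l) - (y - x) * (a j k * a' j k)) := by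
    intro k _
    rw [← Finset.sum_sub_distrib]
  rw [Finset.sum_congr rfl e3, symm2]
  refine Finset.sum_congr rfl fun k _ => Finset.sum_congr rfl fun l _ => by ring

/-- for fixed `k ≠ l` -/
theorem lemC {ι : Type*} (s : Finset ι) (la : ι → K)
    (b b' dh dh' : ι → ι → K) (e e' : ι → ι → ι → K)
    (hE : ∀ i ∈ s, ∀ j ∈ s, ∀ m ∈ s,
      (la i - la m) * (b i j * b' m j - b m j * b' i j)
        = (la i - la m) ^ 2 * (e i j m * b' i m - b i m * e' i j m))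
    (h4 : ∀ i ∈ s, ∀ m ∈ s, i ≠ m → dh i m = ∑ j ∈ s, e i j m)
    (h4' : ∀ i ∈ s, ∀ m ∈ s, i ≠ m → dh' i m = ∑ j ∈ s, e' i j m) :
    2 * ∑ j ∈ s, ∑ i ∈ s, ∑ m ∈ s, (la i - la m) * (b i j * b' m j)
      = ∑ i ∈ s, ∑ m ∈ s, (la i - la m) ^ 2 * (dh i m * b' i m - b i m * dh' i m) := by
  have e1 : 2 * ∑ j ∈ s, ∑ i ∈ s, ∑ m ∈ s, (la i - la m) * (b i j * b' m j)
      = ∑ j ∈ s, ∑ i ∈ s, ∑ m ∈ s,
          (la i - la m) ^ 2 * (e i j m * b' i m - b i m * e' i j m) := by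
    rw [Finset.mul_sum]
    refine Finset.sum_congr rfl fun j hj => ?_
    rw [symm2]
    refine Finset.sum_congr rfl fun i hi => Finset.sum_congr rfl fun m hm => ?_
    rw [← hE i hi j hj m hm]
    ring
  rw [e1, Finset.sum_comm]
  refine Finset.sum_congr rfl fun i hi => ?_
  rw [Finset.sum_comm]
  refine Finset.sum_congr rfl fun m hm => ?_
  rcases eq_or_ne i m with h | h
  · subst h
    simp
  · rw [h4 i hi m hm h, h4' i hi m hm h, Finset.sum_mul, Finset.mul_sum, ← Finset.sum_sub_distrib,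
      Finset.mul_sum]

end Pool.Agent.V11331.FF
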