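import Pool.Agent.V11331.FF.Stam

/-!
# The discriminant as a polynomial in the coefficients
-/

set_option autoImplicit false

namespace Pool.Agent.V11331.FF

open Polynomial Finset

/-- `dis ν = ∏_{i < j} (ν_i - ν_j)^2` -/
noncomputable def dis {N : ℕ} (ν : Fin N → ℝ) : ℝ :=
  ∏ i, ∏ j ∈ Ioi i, (ν i - ν j) ^ 2

theorem exists_Q (N : ℕ) : ∃ Q : MvPolynomial (Fin N) ℝ, ∀ ν : Fin N → ℝ,
    MvPolynomial.eval (fun i : Fin N => (univ.val.map ν).esymm (i + 1)) Q = dis ν := by
  let D : MvPolynomial (Fin N) ℝ :=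
    (Matrix.vandermonde (fun i : Fin N => (MvPolynomial.X i : MvPolynomial (Fin N) ℝ))).det ^ 2
  have hsym : D.IsSymmetric := by
    intro e
    change MvPolynomial.rename e ((Matrix.vandermonde
      (fun i : Fin N => (MvPolynomial.X i : MvPolynomial (Fin N) ℝ))).det ^ 2) = _
    rw [map_pow, AlgHom.map_det]
    have h1 : ((MvPolynomial.rename e : MvPolynomial (Fin N) ℝ →ₐ[ℝ] _).mapMatrix
        (Matrix.vandermonde (fun i : Fin N => (MvPolynomial.X i : MvPolynomial (Fin N) ℝ))))
        = (Matrix.vandermonde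
          (fun i : Fin N => (MvPolynomial.X i : MvPolynomial (Fin N) ℝ))).submatrix e id := by
      ext i j
      simp [Matrix.vandermonde_apply, MvPolynomial.rename_X]
    rw [h1, Matrix.det_permute, mul_pow]
    have h2 : ((Equiv.Perm.sign e : ℤ) : MvPolynomial (Fin N) ℝ) ^ 2 = 1 := by
      rcases Int.units_eq_one_or (Equiv.Perm.sign e) with h | h <;> rw [h] <;> simp
    rw [h2, one_mul]
  obtain ⟨Q, hQ⟩ := MvPolynomial.esymmAlgHom_fin_surjective ℝ (le_refl N) ⟨D, hsym⟩
  refine ⟨Q, fun ν => ?_⟩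
  have h3 := congrArg Subtype.val hQ
  rw [MvPolynomial.esymmAlgHom_apply] at h3
  have h4 := congrArg (fun q => MvPolynomial.aeval ν q) h3
  simp only at h4
  rw [← AlgHom.comp_apply, MvPolynomial.comp_aeval] at h4
  simp only [MvPolynomial.aeval_esymm_eq_multiset_esymm] at h4
  rw [← MvPolynomial.coe_aeval_eq_eval]
  refine h4.trans ?_
  change MvPolynomial.aeval ν ((Matrix.vandermonde
      (fun i : Fin N => (MvPolynomial.X i : MvPolynomial (Fin N) ℝ))).det ^ 2) = _
  rw [map_pow, AlgHom.map_det]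
  have h5 : ((MvPolynomial.aeval ν : MvPolynomial (Fin N) ℝ →ₐ[ℝ] ℝ).mapMatrix
        (Matrix.vandermonde (fun i : Fin N => (MvPolynomial.X i : MvPolynomial (Fin N) ℝ))))
        = Matrix.vandermonde ν := by
    ext i j
    simp [Matrix.vandermonde_apply]
  rw [h5, Matrix.det_vandermonde]
  unfold dis
  rw [← Finset.prod_pow]
  refine Finset.prod_congr rfl fun i _ => ?_
  rw [← Finset.prod_pow]
  refine Finset.prod_congr rfl fun j _ => ?_
  ring

/-- the universal discriminant polynomial -/
noncomputable def QQ (N : ℕ) : MvPolynomial (Fin N) ℝ := (exists_Q N).choose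

/-- signed coefficients -/
noncomputable def cvec (N : ℕ) (f : ℝ[X]) (i : Fin N) : ℝ :=
  (-1) ^ ((i : ℕ) + 1) * f.coeff (N - ((i : ℕ) + 1))

/-- the discriminant of a monic polynomial of degree `N`, through its coefficients -/
noncomputable def dd (N : ℕ) (f : ℝ[X]) : ℝ := MvPolynomial.eval (cvec N f) (QQ N)

theorem cvec_P {N : ℕ} (ν : Fin N → ℝ) (i : Fin N) :
    cvec N (P ν univ) i = (univ.val.map ν).esymm (i + 1) := by
  have h1 : P ν univ = ((univ.val.map ν).map fun t => X - C t).prod := by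
    unfold P
    rw [Multiset.map_map]
    rfl
  have hc : Multiset.card (univ.val.map ν) = N := by simp
  unfold cvec
  rw [h1, Multiset.prod_X_sub_C_coeff _ (by rw [hc]; omega), hc]
  have h2 : N - (N - ((i : ℕ) + 1)) = (i : ℕ) + 1 := by
    have := i.2
    omega
  rw [h2, ← mul_assoc, ← mul_pow]
  norm_num

theorem dd_P {N : ℕ} (ν : Fin N → ℝ) : dd N (P ν univ) = dis ν := by
  unfold dd QQ
  rw [← (exists_Q N).choose_spec ν]
  congr 1
  congr 1
  funext i
  exact cvec_P ν i

theorem eval_differentiable {N : ℕ} (Q : MvPolynomial (Fin N) ℝ) :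
    Differentiable ℝ (fun v : Fin N → ℝ => MvPolynomial.eval v Q) := by
  induction Q using MvPolynomial.induction_on with
  | C a => simp
  | add p q hp hq =>
    simp only [map_add]
    exact hp.add hq
  | mul_X p n hp =>
    simp only [map_mul, MvPolynomial.eval_X]
    exact hp.mul (differentiable_apply n)

/-- chain rule: the derivative of the discriminant along a curve of polynomials depends only on
the first-order data of the curve -/
theorem dd_chain (N : ℕ) (F G : ℝ → ℝ[X]) (F' : ℝ[X]) (t u : ℝ) (D : ℝ)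
    (hF : ∀ m, HasDerivAt (fun x => (F x).coeff m) (F'.coeff m) t)
    (hG : ∀ m, HasDerivAt (fun x => (G x).coeff m) (F'.coeff m) u)
    (h0 : F t = G u) (hD : HasDerivAt (fun x => dd N (G x)) D u) :
    HasDerivAt (fun x => dd N (F x)) D t := by
  have hd := (eval_differentiable (QQ N)) (cvec N (F t))
  have hcF : HasDerivAt (fun x => cvec N (F x)) (cvec N F') t := by
    rw [hasDerivAt_pi]
    intro i
    unfold cvec
    exact (hF _).const_mul _
  have hcG : HasDerivAt (fun x => cvec N (G x)) (cvec N F') u := by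
    rw [hasDerivAt_pi]
    intro i
    unfold cvec
    exact (hG _).const_mul _
  have h1 := hd.hasFDerivAt.comp_hasDerivAt t hcF
  have hd' := hd.hasFDerivAt
  rw [h0] at hd'
  have h2 := hd'.comp_hasDerivAt u hcG
  have h3 : D = (fderiv ℝ (fun v => MvPolynomial.eval v (QQ N)) (cvec N (G u))) (cvec N F') :=
    hD.unique h2
  rw [h3, ← h0]
  exact h1

theorem coeff_hasDerivAt_prod {N : ℕ} (ν v : Fin N → ℝ) (s : Finset (Fin N)) : ∀ m,
    HasDerivAt (fun x : ℝ => (P (fun i => ν i + x * v i) s).coeff m)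
      ((-∑ i ∈ s, v i • P ν (s.erase i)).coeff m) 0 := by
  induction s using Finset.induction_on with
  | empty =>
    intro m
    unfold P
    simp only [Finset.prod_empty, Finset.sum_empty, neg_zero, coeff_zero]
    exact hasDerivAt_const _ _
  | insert a s ha ih =>
    intro m
    have h1 : ∀ x : ℝ, P (fun i => ν i + x * v i) (insert a s)
        = X * P (fun i => ν i + x * v i) s - C (ν a + x * v a) * P (fun i => ν i + x * v i) s := by
      intro x
      unfold P
      rw [Finset.prod_insert ha]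
      ring
    simp only [h1, coeff_sub, coeff_C_mul]
    have h2 : (-∑ i ∈ insert a s, v i • P ν ((insert a s).erase i))
        = X * (-∑ i ∈ s, v i • P ν (s.erase i)) - (C (v a) * P ν s
          + C (ν a) * (-∑ i ∈ s, v i • P ν (s.erase i))) := by
      rw [Finset.sum_insert ha, Finset.erase_insert ha]
      have h3 : ∑ i ∈ s, v i • P ν ((insert a s).erase i)
          = (X - C (ν a)) * ∑ i ∈ s, v i • P ν (s.erase i) := by
        rw [Finset.mul_sum]
        refine Finset.sum_congr rfl fun i hi => ?_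
        have hai : a ≠ i := fun h => ha (h ▸ hi)
        rw [Finset.erase_insert_of_ne hai, mul_smul_comm]
        congr 1
        unfold P
        rw [Finset.prod_insert]
        intro h
        exact ha (Finset.mem_erase.1 h).2
      rw [h3, smul_eq_C_mul]
      ring
    rw [h2, coeff_sub, coeff_add, coeff_C_mul, coeff_C_mul]
    have hX : HasDerivAt (fun x : ℝ => (X * P (fun i => ν i + x * v i) s).coeff m)
        ((X * (-∑ i ∈ s, v i • P ν (s.erase i))).coeff m) 0 := by
      cases m with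
      | zero =>
        simp only [coeff_X_mul_zero]
        exact hasDerivAt_const _ _
      | succ m =>
        simp only [coeff_X_mul]
        exact ih m
    have hlin : HasDerivAt (fun x : ℝ => ν a + x * v a) (v a) 0 := by
      have := ((hasDerivAt_id (0 : ℝ)).mul_const (v a)).const_add (ν a)
      simpa using this
    have hmul := hlin.mul (ih m)
    simp only [zero_mul, add_zero] at hmul
    exact hX.sub hmul

theorem pair_sum {N : ℕ} (g : Fin N → Fin N → ℝ) :
    ∑ i, ∑ j ∈ Ioi i, (g i j + g j i) = ∑ i, ∑ j ∈ univ.erase i, g i j := by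
  have h1 : ∀ f : Fin N → Fin N → ℝ, ∑ i, ∑ j ∈ Ioi i, f i j
      = ∑ i, ∑ j, if i < j then f i j else 0 := by
    intro f
    refine Finset.sum_congr rfl fun i _ => ?_
    rw [← Finset.sum_filter]
    refine Finset.sum_congr ?_ fun _ _ => rfl
    ext j
    simp
  have h2 : ∑ i, ∑ j ∈ univ.erase i, g i j = ∑ i, ∑ j, if i ≠ j then g i j else 0 := by
    refine Finset.sum_congr rfl fun i _ => ?_
    rw [← Finset.sum_filter]
    refine Finset.sum_congr ?_ fun _ _ => rfl
    ext j
    simp [eq_comm]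
  rw [h2, h1]
  have h3 : ∑ i, ∑ j, (if i < j then (g i j + g j i) else 0)
      = ∑ i, ∑ j, (if i < j then g i j else 0) + ∑ i, ∑ j, (if i < j then g j i else 0) := by
    rw [← Finset.sum_add_distrib]
    refine Finset.sum_congr rfl fun i _ => ?_
    rw [← Finset.sum_add_distrib]
    refine Finset.sum_congr rfl fun j _ => ?_
    split_ifs <;> simp
  rw [h3, Finset.sum_comm (f := fun i j => if i < j then g j i else 0), ← Finset.sum_add_distrib]
  refine Finset.sum_congr rfl fun i _ => ?_
  rw [← Finset.sum_add_distrib]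
  refine Finset.sum_congr rfl fun j _ => ?_
  rcases lt_trichotomy i j with h | h | h
  · rw [if_pos h, if_neg (not_lt.2 h.le), if_pos h.ne, add_zero]
  · subst h; simp
  · rw [if_neg (not_lt.2 h.le), if_pos h, if_pos h.ne', zero_add]

theorem dis_ne {N : ℕ} (ν : Fin N → ℝ) (hν : Function.Injective ν) : 0 < dis ν := by
  unfold dis
  refine Finset.prod_pos fun i _ => Finset.prod_pos fun j hj => ?_
  have : i ≠ j := (Finset.mem_Ioi.1 hj).ne
  exact pow_pos_of_ne ν hν i j this
where
  pow_pos_of_ne {N : ℕ} (ν : Fin N → ℝ) (hν : Function.Injective ν) (i j : Fin N) (h : i ≠ j) :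
      0 < (ν i - ν j) ^ 2 := by
    have : ν i - ν j ≠ 0 := sub_ne_zero.2 fun h' => h (hν h')
    positivity

theorem dis_nonneg {N : ℕ} (ν : Fin N → ℝ) : 0 ≤ dis ν := by
  unfold dis
  exact Finset.prod_nonneg fun i _ => Finset.prod_nonneg fun j _ => sq_nonneg _

theorem injective_of_dis {N : ℕ} (ν : Fin N → ℝ) (h : dis ν ≠ 0) : Function.Injective ν := by
  intro i j hij
  by_contra hne
  apply h
  unfold dis
  rcases lt_or_gt_of_ne hne with h1 | h1
  · refine Finset.prod_eq_zero (Finset.mem_univ i) (Finset.prod_eq_zero (Finset.mem_Ioi.2 h1) ?_)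
    rw [hij, sub_self]
    norm_num
  · refine Finset.prod_eq_zero (Finset.mem_univ j) (Finset.prod_eq_zero (Finset.mem_Ioi.2 h1) ?_)
    rw [hij, sub_self]
    norm_num

/-- derivative of the discriminant along a line of roots -/
theorem dis_hasDerivAt {N : ℕ} (ν v : Fin N → ℝ) (hν : Function.Injective ν) :
    HasDerivAt (fun x : ℝ => dis (fun i => ν i + x * v i))
      (dis ν * ∑ i, ∑ j ∈ Ioi i, 2 * (v i - v j) / (ν i - ν j)) 0 := by
  have hf : ∀ i j : Fin N, HasDerivAt (fun x : ℝ => (ν i + x * v i - (ν j + x * v j)) ^ 2)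
      (2 * (ν i - ν j) * (v i - v j)) 0 := by
    intro i j
    have h1 : HasDerivAt (fun x : ℝ => ν i + x * v i - (ν j + x * v j)) (v i - v j) 0 := by
      have a1 := ((hasDerivAt_id (0 : ℝ)).mul_const (v i)).const_add (ν i)
      have a2 := ((hasDerivAt_id (0 : ℝ)).mul_const (v j)).const_add (ν j)
      have := a1.fun_sub a2
      simpa using this
    have h2 := h1.fun_pow 2
    simpa using h2
  have hlog : ∀ (s : Finset (Fin N)) (i : Fin N) (T : Finset (Fin N)), (∀ j ∈ T, i ≠ j) →
      HasDerivAt (fun x : ℝ => ∏ j ∈ T, (ν i + x * v i - (ν j + x * v j)) ^ 2)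
        ((∏ j ∈ T, (ν i - ν j) ^ 2) * ∑ j ∈ T, 2 * (v i - v j) / (ν i - ν j)) 0 := by
    intro s i T hT
    have h1 := HasDerivAt.fun_finsetProd (u := T)
      (f := fun j x => (ν i + x * v i - (ν j + x * v j)) ^ 2)
      (f' := fun j => 2 * (ν i - ν j) * (v i - v j)) (x := (0 : ℝ)) (fun j _ => hf i j)
    refine h1.congr_deriv ?_
    rw [Finset.mul_sum]
    refine Finset.sum_congr rfl fun j hj => ?_
    simp only [zero_mul, add_zero, smul_eq_mul]
    rw [← Finset.mul_prod_erase T (fun j => (ν i - ν j) ^ 2) hj]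
    have hne : ν i - ν j ≠ 0 := sub_ne_zero.2 fun h => hT j hj (hν h)
    field_simp
  have h2 := HasDerivAt.fun_finsetProd (u := (univ : Finset (Fin N)))
      (f := fun i x => ∏ j ∈ Ioi i, (ν i + x * v i - (ν j + x * v j)) ^ 2)
      (f' := fun i => (∏ j ∈ Ioi i, (ν i - ν j) ^ 2) * ∑ j ∈ Ioi i, 2 * (v i - v j) / (ν i - ν j))
      (x := (0 : ℝ)) (fun i _ => hlog univ i (Ioi i) fun j hj => (Finset.mem_Ioi.1 hj).ne)
  unfold dis
  refine h2.congr_deriv ?_
  rw [Finset.mul_sum]
  refine Finset.sum_congr rfl fun i hi => ?_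
  simp only [zero_mul, add_zero, smul_eq_mul]
  rw [← Finset.mul_prod_erase univ (fun i => ∏ j ∈ Ioi i, (ν i - ν j) ^ 2) hi]
  ring

theorem sum_J_sq {N : ℕ} (ν : Fin N → ℝ) :
    ∑ i, ∑ j ∈ Ioi i, 2 * (J ν i - J ν j) / (ν i - ν j) = 2 * Phi ν := by
  have h := pair_sum (fun i j => 2 * J ν i / (ν i - ν j))
  have h2 : ∑ i, ∑ j ∈ Ioi i, 2 * (J ν i - J ν j) / (ν i - ν j)
      = ∑ i, ∑ j ∈ Ioi i, (2 * J ν i / (ν i - ν j) + 2 * J ν j / (ν j - ν i)) := by
    refine Finset.sum_congr rfl fun i _ => Finset.sum_congr rfl fun j _ => ?_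
    rw [← neg_sub (ν i) (ν j), div_neg]
    ring
  rw [h2, h]
  unfold Phi
  rw [Finset.mul_sum]
  refine Finset.sum_congr rfl fun i _ => ?_
  rw [sq]
  conv_rhs => rw [J, Finset.sum_mul, Finset.mul_sum]
  refine Finset.sum_congr rfl fun j _ => ?_
  change 2 * J ν i / (ν i - ν j) = 2 * (1 / (ν i - ν j) * J ν i)
  ring

/-- **Derivative of the discriminant under a heat-type flow `F' = -c F''`.** -/
theorem dd_heat {N : ℕ} (F : ℝ → ℝ[X]) (ν : Fin N → ℝ) (hν : Function.Injective ν) (t c : ℝ)
    (h0 : F t = P ν univ)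
    (hF : ∀ m, HasDerivAt (fun x => (F x).coeff m)
      (((-c) • derivative (derivative (P ν univ))).coeff m) t) :
    HasDerivAt (fun x => dd N (F x)) (dis ν * (4 * c * Phi ν)) t := by
  have hvel : (-c) • derivative (derivative (P ν univ))
      = -∑ i, (2 * c * J ν i) • P ν (univ.erase i) := by
    rw [← J_poly ν hν, smul_smul, Finset.smul_sum, ← Finset.sum_neg_distrib]
    refine Finset.sum_congr rfl fun i _ => ?_
    rw [smul_smul, ← neg_smul]
    congr 1
    ring
  rw [hvel] at hF
  refine dd_chain N F (fun x => P (fun i => ν i + x * (2 * c * J ν i)) univ) _ t 0 _ hF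
    (coeff_hasDerivAt_prod ν (fun i => 2 * c * J ν i) univ) ?_ ?_
  · rw [h0]
    simp
  · simp only [dd_P]
    have h := dis_hasDerivAt ν (fun i => 2 * c * J ν i) hν
    refine h.congr_deriv ?_
    congr 1
    have h3 := sum_J_sq ν
    have h4 : ∑ i, ∑ j ∈ Ioi i, 2 * (2 * c * J ν i - 2 * c * J ν j) / (ν i - ν j)
        = 2 * c * ∑ i, ∑ j ∈ Ioi i, 2 * (J ν i - J ν j) / (ν i - ν j) := by
      rw [Finset.mul_sum]
      refine Finset.sum_congr rfl fun i _ => ?_
      rw [Finset.mul_sum]
      refine Finset.sum_congr rfl fun j _ => ?_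
      ring
    rw [h4, h3]
    ring

end Pool.Agent.V11331.FF
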