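import Pool.Agent.V11331.FF.Main

/-!
# The coefficient formula for the finite free convolution
-/

set_option autoImplicit false

namespace Pool.Agent.V11331.FF

open Polynomial Finset

theorem as_sum_reflect (d : ℕ) (p : ℝ[X]) (hp : p.natDegree ≤ d) :
    p = ∑ j ∈ range (d + 1), (p.coeff (d - j)) • X ^ (d - j) := by
  have h := p.as_sum_range' (d + 1) (by omega)
  have h2 := Finset.sum_range_reflect (fun j => monomial j (p.coeff j)) (d + 1)
  rw [← h2] at h
  conv_lhs => rw [h]
  refine Finset.sum_congr rfl fun j _ => ?_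
  rw [Nat.add_sub_cancel, smul_X_eq_monomial]

theorem box_formula (d : ℕ) (p q : ℝ[X]) (hp : p.natDegree ≤ d) (hq : q.natDegree ≤ d) :
    box d p q = ∑ i ∈ range (d + 1), C ((-1 : ℝ) ^ i * ∑ jk ∈ antidiagonal i,
      (((d - jk.1).factorial * (d - jk.2).factorial : ℕ) : ℝ)
        / ((d.factorial * (d - i).factorial : ℕ) : ℝ)
        * ((-1) ^ jk.1 * p.coeff (d - jk.1)) * ((-1) ^ jk.2 * q.coeff (d - jk.2))) * X ^ (d - i) := by
  have h1 : box d p q = ∑ j ∈ range (d + 1), ∑ k ∈ range (d + 1),
      (p.coeff (d - j) * q.coeff (d - k)) • box d (X ^ (d - j)) (X ^ (d - k)) := by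
    conv_lhs => rw [as_sum_reflect d p hp, as_sum_reflect d q hq]
    simp only [map_sum, LinearMap.sum_apply, map_smul, LinearMap.smul_apply]
    rw [Finset.sum_comm]
    refine Finset.sum_congr rfl fun j _ => ?_
    rw [Finset.smul_sum]
    refine Finset.sum_congr rfl fun k _ => ?_
    rw [smul_smul, mul_comm]
  have h2 : ∀ j ∈ range (d + 1), ∑ k ∈ range (d + 1),
      (p.coeff (d - j) * q.coeff (d - k)) • box d (X ^ (d - j) : ℝ[X]) (X ^ (d - k))
      = ∑ k ∈ range (d + 1 - j), (p.coeff (d - j) * q.coeff (d - k)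
        * (((d - j).factorial * (d - k).factorial : ℕ) : ℝ)
        / ((d.factorial * (d - (j + k)).factorial : ℕ) : ℝ)) • (X : ℝ[X]) ^ (d - (j + k)) := by
    intro j hj
    have hj' := Finset.mem_range.1 hj
    symm
    refine (Finset.sum_subset_zero_on_sdiff (fun k hk => ?_) (fun k hk => ?_)
      (fun k hk => ?_))
    · rw [Finset.mem_range] at hk ⊢
      omega
    · rw [Finset.mem_sdiff, Finset.mem_range, Finset.mem_range] at hk
      rw [box_monomial d _ _ (by omega), if_neg (by omega), smul_zero]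
    · rw [Finset.mem_range] at hk
      have e : d - j + (d - k) - d = d - (j + k) := by omega
      rw [box_monomial d _ _ (by omega), if_pos (by omega), smul_smul, e]
      congr 1
      push_cast
      ring
  rw [h1, Finset.sum_congr rfl h2]
  have h3 := Finset.sum_range_diag_flip (d + 1) (fun j k => (p.coeff (d - j) * q.coeff (d - k)
        * (((d - j).factorial * (d - k).factorial : ℕ) : ℝ)
        / ((d.factorial * (d - (j + k)).factorial : ℕ) : ℝ)) • (X : ℝ[X]) ^ (d - (j + k)))
  rw [← h3]
  refine Finset.sum_congr rfl fun i _ => ?_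
  rw [← smul_eq_C_mul, Finset.mul_sum, Finset.sum_smul,
    Finset.Nat.sum_antidiagonal_eq_sum_range_succ_mk]
  refine Finset.sum_congr rfl fun j hj => ?_
  have hj' := Finset.mem_range.1 hj
  have e : j + (i - j) = i := by omega
  simp only [e]
  congr 1
  have e2 : (-1 : ℝ) ^ i * ((-1) ^ j * (-1) ^ (i - j)) = 1 := by
    rw [← pow_add, e, ← pow_add, ← two_mul, pow_mul]
    norm_num
  linear_combination (-(p.coeff (d - j) * q.coeff (d - (i - j))
        * (((d - j).factorial * (d - (i - j)).factorial : ℕ) : ℝ)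
        / ((d.factorial * (d - i).factorial : ℕ) : ℝ))) * e2

end Pool.Agent.V11331.FF
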