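import Pool.Agent.V11331.FF.Disc

/-!
# The heat flow on polynomials
-/

set_option autoImplicit false

namespace Pool.Agent.V11331.FF

open Polynomial Finset

/-- `exp(-t D^2)`, truncated after `K` terms -/
noncomputable def heat (K : ℕ) (t : ℝ) : ℝ[X] →ₗ[ℝ] ℝ[X] :=
  ∑ k ∈ range K, ((-t) ^ k / (k.factorial : ℝ)) • ((derivative : ℝ[X] →ₗ[ℝ] ℝ[X]) ^ (2 * k))

theorem heat_apply (K : ℕ) (t : ℝ) (f : ℝ[X]) :
    heat K t f = ∑ k ∈ range K, ((-t) ^ k / (k.factorial : ℝ)) • derivative^[2 * k] f := by
  unfold heat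
  rw [LinearMap.sum_apply]
  refine Finset.sum_congr rfl fun k _ => ?_
  rw [LinearMap.smul_apply, Module.End.pow_apply]

theorem iter_box (m n : ℕ) (f g : ℝ[X]) :
    derivative^[m] (box n f g) = box n (derivative^[m] f) g := by
  induction m with
  | zero => rfl
  | succ m ih => rw [Function.iterate_succ_apply', ih, derivative_box,
      ← Function.iterate_succ_apply' derivative]

theorem heat_box_left (K n : ℕ) (t : ℝ) (f g : ℝ[X]) :
    heat K t (box n f g) = box n (heat K t f) g := by
  rw [heat_apply, heat_apply, map_sum, LinearMap.sum_apply]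
  refine Finset.sum_congr rfl fun k _ => ?_
  rw [iter_box, map_smul, LinearMap.smul_apply]

theorem natDegree_heat_le (K : ℕ) (t : ℝ) (f : ℝ[X]) : (heat K t f).natDegree ≤ f.natDegree := by
  rw [heat_apply]
  refine natDegree_sum_le_of_forall_le _ _ fun b _ => ?_
  refine (natDegree_smul_le _ _).trans ?_
  exact (natDegree_iterate_derivative f _).trans (Nat.sub_le _ _)

theorem heat_box_right (K n : ℕ) (t : ℝ) (f g : ℝ[X]) (hf : f.natDegree ≤ n)
    (hg : g.natDegree ≤ n) :
    heat K t (box n f g) = box n f (heat K t g) := by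
  rw [box_comm n f g hf hg, heat_box_left,
    box_comm n _ f ((natDegree_heat_le K t g).trans hg) hf]

theorem box_X_pow (n : ℕ) (f : ℝ[X]) : box n f (X ^ n) = f := by
  rw [box_apply, Finset.sum_range_succ, Finset.sum_eq_zero]
  · rw [coeff_X_pow_self, Nat.sub_self, Function.iterate_zero, id, one_mul,
      div_self (fact_ne n), one_smul, zero_add]
  · intro b hb
    have := Finset.mem_range.1 hb
    rw [coeff_X_pow, if_neg (by omega)]
    simp

theorem heat_zero (K : ℕ) (f : ℝ[X]) : heat (K + 1) 0 f = f := by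
  rw [heat_apply, Finset.sum_range_succ', Finset.sum_eq_zero]
  · simp
  · intro k _
    simp

theorem heat_semigroup (K : ℕ) (s t : ℝ) (f : ℝ[X]) (hf : f.natDegree < 2 * K) :
    heat K s (heat K t f) = heat K (s + t) f := by
  have h1 : heat K s (heat K t f) = ∑ j ∈ range K, ∑ k ∈ range K,
      (((-s) ^ j / (j.factorial : ℝ)) * ((-t) ^ k / (k.factorial : ℝ)))
        • derivative^[2 * (j + k)] f := by
    rw [heat_apply]
    refine Finset.sum_congr rfl fun j _ => ?_
    rw [heat_apply, iterate_derivative_sum, Finset.smul_sum]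
    refine Finset.sum_congr rfl fun k _ => ?_
    rw [iterate_derivative_smul, smul_smul, ← Function.iterate_add_apply, mul_add]
  have h2 : heat K s (heat K t f) = ∑ j ∈ range K, ∑ k ∈ range (K - j),
      (((-s) ^ j / (j.factorial : ℝ)) * ((-t) ^ k / (k.factorial : ℝ)))
        • derivative^[2 * (j + k)] f := by
    rw [h1]
    refine Finset.sum_congr rfl fun j hj => ?_
    symm
    refine Finset.sum_subset (fun k hk => ?_) (fun k _ hk' => ?_)
    · rw [Finset.mem_range] at hk ⊢
      omega
    · rw [Finset.mem_range] at hk'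
      rw [iterate_derivative_eq_zero (by omega), smul_zero]
  rw [h2, ← Finset.sum_range_diag_flip K (fun j k =>
      (((-s) ^ j / (j.factorial : ℝ)) * ((-t) ^ k / (k.factorial : ℝ)))
        • derivative^[2 * (j + k)] f), heat_apply]
  refine Finset.sum_congr rfl fun m _ => ?_
  have h3 : ∀ k ∈ range (m + 1),
      (((-s) ^ k / (k.factorial : ℝ)) * ((-t) ^ (m - k) / ((m - k).factorial : ℝ)))
        • derivative^[2 * (k + (m - k))] f
      = (((-s) ^ k / (k.factorial : ℝ)) * ((-t) ^ (m - k) / ((m - k).factorial : ℝ)))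
        • derivative^[2 * m] f := by
    intro k hk
    have := Finset.mem_range.1 hk
    have h4 : k + (m - k) = m := by omega
    rw [h4]
  rw [Finset.sum_congr rfl h3, ← Finset.sum_smul]
  congr 1
  have h5 : -(s + t) = (-s) + (-t) := by ring
  rw [h5, add_pow, Finset.sum_div]
  refine Finset.sum_congr rfl fun k hk => ?_
  have hk' : k ≤ m := by
    have := Finset.mem_range.1 hk
    omega
  rw [Nat.choose_eq_factorial_div_factorial hk',
    Nat.cast_div (Nat.factorial_mul_factorial_dvd_factorial hk')
      (by exact_mod_cast (Nat.mul_ne_zero (Nat.factorial_ne_zero _) (Nat.factorial_ne_zero _)))]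
  have a1 : (k.factorial : ℝ) ≠ 0 := fact_ne k
  have a2 : ((m - k).factorial : ℝ) ≠ 0 := fact_ne (m - k)
  have a3 : (m.factorial : ℝ) ≠ 0 := fact_ne m
  push_cast
  field_simp

/-- the heat curve is differentiable, coefficientwise -/
theorem heat_hasDerivAt (K : ℕ) (c : ℝ) (f : ℝ[X]) (hf : f.natDegree < 2 * K + 2) (t : ℝ) (m : ℕ) :
    HasDerivAt (fun x => (heat (K + 1) (c * x) f).coeff m)
      (((-c) • derivative (derivative (heat (K + 1) (c * t) f))).coeff m) t := by
  have h1 : ∀ x, (heat (K + 1) (c * x) f).coeff m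
      = ∑ k ∈ range (K + 1), ((-(c * x)) ^ k / (k.factorial : ℝ))
        * (derivative^[2 * k] f).coeff m := by
    intro x
    rw [heat_apply, finsetSum_coeff]
    exact Finset.sum_congr rfl fun k _ => by rw [coeff_smul, smul_eq_mul]
  simp only [h1]
  have h2 : ((-c) • derivative (derivative (heat (K + 1) (c * t) f))).coeff m
      = ∑ k ∈ range K, (-c) * (((-(c * t)) ^ k / (k.factorial : ℝ))
        * (derivative^[2 * (k + 1)] f).coeff m) := by
    rw [coeff_smul, smul_eq_mul, heat_apply, derivative_sum, derivative_sum, finsetSum_coeff,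
      Finset.sum_range_succ]
    have h3 : (derivative (derivative (((-(c * t)) ^ K / (K.factorial : ℝ)) •
        derivative^[2 * K] f))).coeff m = 0 := by
      rw [derivative_smul, derivative_smul, ← Function.iterate_succ_apply' derivative,
        ← Function.iterate_succ_apply' derivative, iterate_derivative_eq_zero (by omega)]
      simp
    rw [h3, add_zero, Finset.mul_sum]
    refine Finset.sum_congr rfl fun k _ => ?_
    rw [derivative_smul, derivative_smul, coeff_smul, smul_eq_mul,
      ← Function.iterate_succ_apply' derivative, ← Function.iterate_succ_apply' derivative]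
    rfl
  rw [h2]
  have h4 : HasDerivAt (fun x => ∑ k ∈ range (K + 1), ((-(c * x)) ^ k / (k.factorial : ℝ))
        * (derivative^[2 * k] f).coeff m)
      (∑ k ∈ range (K + 1), ((k : ℝ) * (-(c * t)) ^ (k - 1) * (-c) / (k.factorial : ℝ))
        * (derivative^[2 * k] f).coeff m) t := by
    refine HasDerivAt.fun_sum fun k _ => ?_
    have h5 : HasDerivAt (fun x => -(c * x)) (-c) t := by
      have := ((hasDerivAt_id t).const_mul c).fun_neg
      simpa using this
    have h6 := (h5.fun_pow k).div_const (k.factorial : ℝ)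
    exact h6.mul_const _
  refine h4.congr_deriv ?_
  rw [Finset.sum_range_succ']
  simp only [Nat.cast_zero, zero_mul, zero_div, add_zero]
  refine Finset.sum_congr rfl fun k _ => ?_
  have a1 : (k.factorial : ℝ) ≠ 0 := fact_ne k
  have a2 : ((k : ℝ) + 1) ≠ 0 := by exact_mod_cast Nat.succ_ne_zero k
  rw [Nat.add_sub_cancel, Nat.factorial_succ]
  push_cast
  field_simp

/-! ### Hermite polynomials -/

theorem heat_X_mul (K : ℕ) (t : ℝ) (g : ℝ[X]) (hg : g.natDegree < 2 * K + 1) :
    heat (K + 1) t (X * g)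
      = X * heat (K + 1) t g - (2 * t) • derivative (heat (K + 1) t g) := by
  have h1 : heat (K + 1) t (X * g) = X * heat (K + 1) t g
      + ∑ k ∈ range (K + 1), ((-t) ^ k / (k.factorial : ℝ)) •
          ((2 * k : ℕ) • derivative^[2 * k - 1] g) := by
    rw [heat_apply, heat_apply, Finset.mul_sum, ← Finset.sum_add_distrib]
    refine Finset.sum_congr rfl fun k _ => ?_
    rw [mul_comm X g, iterate_derivative_mul_X, smul_add, mul_smul_comm, mul_comm X]
  rw [h1, sub_eq_add_neg]
  congr 1
  rw [Finset.sum_range_succ', heat_apply, derivative_sum, Finset.sum_range_succ]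
  have h2 : derivative (((-t) ^ K / (K.factorial : ℝ)) • derivative^[2 * K] g) = 0 := by
    rw [derivative_smul, ← Function.iterate_succ_apply' derivative,
      iterate_derivative_eq_zero (by omega), smul_zero]
  rw [h2, add_zero]
  simp only [Nat.mul_zero, zero_smul, smul_zero, add_zero]
  rw [Finset.smul_sum, ← Finset.sum_neg_distrib]
  refine Finset.sum_congr rfl fun k _ => ?_
  rw [derivative_smul, ← Function.iterate_succ_apply' derivative, ← Nat.cast_smul_eq_nsmul ℝ,
    smul_smul, smul_smul, ← neg_smul]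
  have h3 : 2 * (k + 1) - 1 = (2 * k).succ := by omega
  rw [h3]
  congr 1
  have a1 : (k.factorial : ℝ) ≠ 0 := fact_ne k
  have a2 : ((k : ℝ) + 1) ≠ 0 := by exact_mod_cast Nat.succ_ne_zero k
  rw [Nat.factorial_succ]
  push_cast
  field_simp
  ring

/-- heat polynomials -/
noncomputable def hp (K : ℕ) (t : ℝ) (n : ℕ) : ℝ[X] := heat (K + 1) t (X ^ n)

theorem hp_zero (K : ℕ) (t : ℝ) : hp K t 0 = 1 := by
  unfold hp
  rw [heat_apply, Finset.sum_range_succ', Finset.sum_eq_zero]
  · simp
  · intro k _
    rw [pow_zero, iterate_derivative_one (by omega), smul_zero]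

theorem derivative_heat (K : ℕ) (t : ℝ) (f : ℝ[X]) :
    derivative (heat K t f) = heat K t (derivative f) := by
  rw [heat_apply, heat_apply, derivative_sum]
  refine Finset.sum_congr rfl fun k _ => ?_
  rw [derivative_smul, ← Function.iterate_succ_apply' derivative, Function.iterate_succ_apply]

theorem derivative_hp (K : ℕ) (t : ℝ) (n : ℕ) :
    derivative (hp K t (n + 1)) = ((n : ℝ) + 1) • hp K t n := by
  unfold hp
  rw [derivative_heat, derivative_X_pow, ← smul_eq_C_mul, map_smul]
  push_cast
  rfl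

theorem hp_one (K : ℕ) (t : ℝ) : hp K t 1 = X := by
  have h := heat_X_mul K t 1 (by simp)
  rw [mul_one] at h
  unfold hp
  rw [pow_one, h, derivative_heat, derivative_one, map_zero, smul_zero, sub_zero]
  have := hp_zero K t
  unfold hp at this
  rw [pow_zero] at this
  rw [this, mul_one]

theorem hp_succ_succ (K : ℕ) (t : ℝ) (n : ℕ) (hn : n < 2 * K) :
    hp K t (n + 2) = X * hp K t (n + 1) - (2 * t * ((n : ℝ) + 1)) • hp K t n := by
  have h := heat_X_mul K t (X ^ (n + 1)) (by rw [natDegree_X_pow]; omega)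
  rw [← pow_succ'] at h
  change hp K t (n + 2) = X * hp K t (n + 1) - (2 * t) • derivative (hp K t (n + 1)) at h
  rw [h, derivative_hp, smul_smul]

theorem hp_upper (K : ℕ) (t : ℝ) (ht : 0 < t) (z : ℂ) (hz : 0 < z.im) : ∀ n, n < 2 * K →
    0 < (((hp K t (n + 1)).map (algebraMap ℝ ℂ)).eval z
      * (starRingEnd ℂ) (((hp K t n).map (algebraMap ℝ ℂ)).eval z)).im := by
  intro n
  induction n with
  | zero =>
    intro _
    rw [hp_one, hp_zero]
    simpa using hz
  | succ n ih =>
    intro hn
    have h := ih (by omega)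
    rw [hp_succ_succ K t n (by omega)]
    have h1 : ((X * hp K t (n + 1) - (2 * t * ((n : ℝ) + 1)) • hp K t n).map
        (algebraMap ℝ ℂ)).eval z = z * ((hp K t (n + 1)).map (algebraMap ℝ ℂ)).eval z
          - ((2 * t * ((n : ℝ) + 1) : ℝ) : ℂ) * ((hp K t n).map (algebraMap ℝ ℂ)).eval z := by
      rw [Polynomial.map_sub, Polynomial.map_mul, map_X, smul_eq_C_mul, Polynomial.map_mul, map_C,
        eval_sub, eval_mul, eval_X, eval_mul, eval_C]
      rfl
    rw [h1]
    set a := ((hp K t (n + 1)).map (algebraMap ℝ ℂ)).eval z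
    set b := ((hp K t n).map (algebraMap ℝ ℂ)).eval z
    have hn0 : (0 : ℝ) ≤ n := Nat.cast_nonneg n
    have h2 : ((z * a - ((2 * t * ((n : ℝ) + 1) : ℝ) : ℂ) * b) * (starRingEnd ℂ) a).im
        = z.im * (a.re ^ 2 + a.im ^ 2)
          + 2 * t * ((n : ℝ) + 1) * (a * (starRingEnd ℂ) b).im := by
      simp only [Complex.mul_im, Complex.sub_re, Complex.sub_im, Complex.mul_re, Complex.conj_re,
        Complex.conj_im, Complex.ofReal_re, Complex.ofReal_im]
      ring
    rw [h2]
    have h3 : 0 ≤ z.im * (a.re ^ 2 + a.im ^ 2) := by positivity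
    have h4 : 0 < 2 * t * ((n : ℝ) + 1) * (a * (starRingEnd ℂ) b).im := by positivity
    linarith

theorem hp_not_both (K : ℕ) (t : ℝ) (ht : 0 < t) (x : ℝ) : ∀ n, n < 2 * K →
    ¬ ((hp K t (n + 1)).eval x = 0 ∧ (hp K t n).eval x = 0) := by
  intro n
  induction n with
  | zero =>
    rintro _ ⟨_, h⟩
    rw [hp_zero] at h
    simp at h
  | succ n ih =>
    rintro hn ⟨h1, h2⟩
    refine ih (by omega) ⟨h2, ?_⟩
    rw [hp_succ_succ K t n (by omega)] at h1
    simp only [eval_sub, eval_mul, eval_X, eval_smul, smul_eq_mul, h2, mul_zero, zero_sub] at h1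
    have hn0 : (0 : ℝ) ≤ n := Nat.cast_nonneg n
    have h3 : 2 * t * ((n : ℝ) + 1) ≠ 0 := by positivity
    have h4 := neg_eq_zero.1 h1
    exact (mul_eq_zero.1 h4).resolve_left h3

theorem hp_coeff (K : ℕ) (t : ℝ) (n : ℕ) : (hp K t n).coeff n = 1 := by
  unfold hp
  rw [heat_apply, finsetSum_coeff, Finset.sum_range_succ', Finset.sum_eq_zero]
  · simp
  · intro k _
    rw [coeff_smul, coeff_iterate_derivative, coeff_X_pow, if_neg (by omega)]
    simp

theorem hp_monic (K : ℕ) (t : ℝ) (n : ℕ) : (hp K t n).Monic ∧ (hp K t n).natDegree = n := by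
  have h2 : (hp K t n).natDegree ≤ n := by
    refine (natDegree_heat_le _ _ _).trans ?_
    rw [natDegree_X_pow]
  refine ⟨monic_of_natDegree_le_of_coeff_eq_one n h2 (hp_coeff K t n), le_antisymm h2 ?_⟩
  exact le_natDegree_of_ne_zero (by rw [hp_coeff]; exact one_ne_zero)

theorem hp_roots (K : ℕ) (t : ℝ) (ht : 0 < t) (n : ℕ) (hn : n ≤ 2 * K) :
    ∃ η : Fin n → ℝ, Function.Injective η ∧ hp K t n = P η univ := by
  cases n with
  | zero =>
    refine ⟨fun i => i.elim0, fun a => a.elim0, ?_⟩
    rw [hp_zero]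
    unfold P
    rw [Finset.univ_eq_empty, Finset.prod_empty]
  | succ n =>
    obtain ⟨η, hη⟩ := exists_roots (n + 1) (hp K t (n + 1)) (hp_monic K t _).1 (hp_monic K t _).2
      (by
        intro z hz h0
        have := hp_upper K t ht z hz n (by omega)
        rw [h0] at this
        simp at this)
    refine ⟨η, ?_, hη⟩
    intro a b hab
    by_contra hne
    have h0 : ∀ c, (P η (univ.erase c)).eval (η a) = 0 := by
      intro c
      rcases eq_or_ne a c with h | h
      · rw [hab]
        exact erase_eval_zero η b c (fun h' => hne (h.trans h'.symm))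
      · exact erase_eval_zero η a c h
    apply hp_not_both K t ht (η a) n (by omega)
    constructor
    · rw [hη, ← P_mul_erase η univ a (Finset.mem_univ a), eval_mul, h0 a, mul_zero]
    · have h1 : (derivative (hp K t (n + 1))).eval (η a) = 0 := by
        rw [hη, P_derivative, eval_finsetSum]
        exact Finset.sum_eq_zero fun c _ => h0 c
      rw [derivative_hp, eval_smul, smul_eq_mul] at h1
      have hn0 : (0 : ℝ) ≤ n := Nat.cast_nonneg n
      exact (mul_eq_zero.1 h1).resolve_left (by positivity)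

/-- `heat t p` has real simple roots for `t > 0` -/
theorem heat_roots (K : ℕ) (t : ℝ) (ht : 0 < t) (N : ℕ) (hN : N ≤ 2 * K) (la : Fin N → ℝ) :
    ∃ ν : Fin N → ℝ, Function.Injective ν ∧ heat (K + 1) t (P la univ) = P ν univ := by
  obtain ⟨η, hηi, hη⟩ := hp_roots K t ht N hN
  have h1 : heat (K + 1) t (P la univ) = box N (P la univ) (P η univ) := by
    rw [← hη]
    unfold hp
    rw [← heat_box_right, box_X_pow]
    · rw [P_natDegree, card_univ_fin]
    · rw [natDegree_X_pow]
  obtain ⟨ν, hν⟩ := box_real_rooted N la η univ univ (card_univ_fin N) (card_univ_fin N)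
  refine ⟨ν, ?_, h1.trans hν⟩
  refine box_simple N η la univ univ (card_univ_fin N) (card_univ_fin N) hηi.injOn ν ?_
  rw [box_comm, hν]
  · rw [P_natDegree, card_univ_fin]
  · rw [P_natDegree, card_univ_fin]

end Pool.Agent.V11331.FF
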