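import Pool.Agent.V11331.FF.Real

/-!
# The kernel form of the key identity
-/

set_option autoImplicit false

namespace Pool.Agent.V11331.FF

open Polynomial Finset

theorem W_prod {ι : Type*} [DecidableEq ι] (la : ι → ℝ) (s : Finset ι) (x y : ℝ) :
    W (P la s) x y = (y - x) * ∑ i ∈ s, (P la (s.erase i)).eval x * (P la (s.erase i)).eval y := by
  unfold W
  rw [P_derivative, eval_finsetSum, eval_finsetSum, Finset.sum_mul, Finset.mul_sum,
    ← Finset.sum_sub_distrib, Finset.mul_sum]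
  refine Finset.sum_congr rfl fun i hi => ?_
  have h : ∀ z : ℝ, (P la s).eval z = (z - la i) * (P la (s.erase i)).eval z := by
    intro z
    rw [← P_mul_erase la s i hi]
    simp
  rw [h x, h y]
  ring

section

variable {ι κ : Type*} [DecidableEq ι] [DecidableEq κ]

/-- kernel identity, for any choice of the roots -/
theorem kernel (n : ℕ) (la : ι → ℝ) (mu : κ → ℝ) (s : Finset ι) (t : Finset κ)
    (hs : s.card = n + 2) (ht : t.card = n + 2) (ν : Fin (n + 2) → ℝ)
    (hν : box (n + 2) (P la s) (P mu t) = P ν univ)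
    (η : κ → κ → ι → ι → Fin n → ℝ)
    (hη : ∀ k ∈ t, ∀ l ∈ t, ∀ i ∈ s, ∀ m ∈ s, k ≠ l → i ≠ m →
      box n (P la ((s.erase i).erase m)) (P mu ((t.erase k).erase l)) = P (η k l i m) univ)
    (x y : ℝ) :
    4 * ((n : ℝ) + 1) ^ 2 * (((n : ℝ) + 2) ^ 2 * (∑ a, (P ν (univ.erase a)).eval x
          * (P ν (univ.erase a)).eval y)
        - ((n : ℝ) + 2) * ∑ j ∈ s, ∑ k ∈ t,
          (box (n + 1) (P la (s.erase j)) (P mu (t.erase k))).eval x
            * (box (n + 1) (P la (s.erase j)) (P mu (t.erase k))).eval y)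
      = ∑ k ∈ t, ∑ l ∈ t, ∑ i ∈ s, ∑ m ∈ s, (mu k - mu l) ^ 2 * ((la i - la m) ^ 2
          * ∑ b, (P (η k l i m) (univ.erase b)).eval x * (P (η k l i m) (univ.erase b)).eval y) := by
  have key' : ∀ y : ℝ, y ≠ x → 4 * ((n : ℝ) + 1) ^ 2 * (((n : ℝ) + 2) ^ 2 *
          (∑ a, (P ν (univ.erase a)).eval x * (P ν (univ.erase a)).eval y)
        - ((n : ℝ) + 2) * ∑ j ∈ s, ∑ k ∈ t,
          (box (n + 1) (P la (s.erase j)) (P mu (t.erase k))).eval x
            * (box (n + 1) (P la (s.erase j)) (P mu (t.erase k))).eval y)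
      = ∑ k ∈ t, ∑ l ∈ t, ∑ i ∈ s, ∑ m ∈ s, (mu k - mu l) ^ 2 * ((la i - la m) ^ 2
          * ∑ b, (P (η k l i m) (univ.erase b)).eval x
            * (P (η k l i m) (univ.erase b)).eval y) := by
    intro y hy
    have hyx : y - x ≠ 0 := sub_ne_zero.2 hy
    apply mul_left_cancel₀ hyx
    have hk := key n la mu s t hs ht x y
    have e1 : ∑ k ∈ t, ∑ l ∈ t, ∑ i ∈ s, ∑ m ∈ s, (mu k - mu l) ^ 2 * ((la i - la m) ^ 2
          * W (box n (P la ((s.erase i).erase m)) (P mu ((t.erase k).erase l))) x y)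
        = (y - x) * ∑ k ∈ t, ∑ l ∈ t, ∑ i ∈ s, ∑ m ∈ s, (mu k - mu l) ^ 2 * ((la i - la m) ^ 2
          * ∑ b, (P (η k l i m) (univ.erase b)).eval x
            * (P (η k l i m) (univ.erase b)).eval y) := by
      rw [Finset.mul_sum]
      refine Finset.sum_congr rfl fun k hk => ?_
      rw [Finset.mul_sum]
      refine Finset.sum_congr rfl fun l hl => ?_
      rw [Finset.mul_sum]
      refine Finset.sum_congr rfl fun i hi => ?_
      rw [Finset.mul_sum]
      refine Finset.sum_congr rfl fun m hm => ?_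
      rcases eq_or_ne k l with hkl | hkl
      · subst hkl; simp
      rcases eq_or_ne i m with him | him
      · subst him; simp
      rw [hη k hk l hl i hi m hm hkl him, W_prod]
      ring
    rw [e1, hν, W_prod] at hk
    rw [← hk]
    ring
  have hcont : ∀ f : ℝ[X], Continuous fun y : ℝ => f.eval y := fun f => f.continuous
  have hD := Continuous.ext_on (dense_compl_singleton x)
    (f := fun y : ℝ => 4 * ((n : ℝ) + 1) ^ 2 * (((n : ℝ) + 2) ^ 2 *
          (∑ a, (P ν (univ.erase a)).eval x * (P ν (univ.erase a)).eval y)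
        - ((n : ℝ) + 2) * ∑ j ∈ s, ∑ k ∈ t,
          (box (n + 1) (P la (s.erase j)) (P mu (t.erase k))).eval x
            * (box (n + 1) (P la (s.erase j)) (P mu (t.erase k))).eval y))
    (g := fun y : ℝ => ∑ k ∈ t, ∑ l ∈ t, ∑ i ∈ s, ∑ m ∈ s, (mu k - mu l) ^ 2 *
          ((la i - la m) ^ 2 * ∑ b, (P (η k l i m) (univ.erase b)).eval x
            * (P (η k l i m) (univ.erase b)).eval y))
    (by fun_prop) (by fun_prop) (fun y hy => key' y hy)
  exact congrFun hD y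

theorem comm3 {α γ : Type*} [Fintype α] (T : Finset γ) (G : α → α → γ → ℝ) :
    ∑ a, ∑ a', ∑ k ∈ T, G a a' k = ∑ k ∈ T, ∑ a, ∑ a', G a a' k := by
  have h1 : ∀ a, ∑ a', ∑ k ∈ T, G a a' k = ∑ k ∈ T, ∑ a', G a a' k := fun a => Finset.sum_comm
  simp only [h1]
  exact Finset.sum_comm

/-- quadratic form version -/
theorem quad_aux {α β : Type*} [Fintype α] (B : Finset β) (w : α → ℝ) (g : β → α → ℝ) :
    ∑ a, ∑ a', w a * w a' * ∑ b ∈ B, g b a * g b a' = ∑ b ∈ B, (∑ a, w a * g b a) ^ 2 := by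
  have h2 : ∀ b ∈ B, (∑ a, w a * g b a) ^ 2
      = ∑ a, ∑ a', w a * w a' * (g b a * g b a') := by
    intro b _
    rw [sq, Finset.sum_mul_sum]
    exact Finset.sum_congr rfl fun a _ => Finset.sum_congr rfl fun a' _ => by ring
  rw [Finset.sum_congr rfl h2, ← comm3]
  refine Finset.sum_congr rfl fun a _ => Finset.sum_congr rfl fun a' _ => ?_
  rw [Finset.mul_sum]

theorem kernel_quad (n : ℕ) (la : ι → ℝ) (mu : κ → ℝ) (s : Finset ι) (t : Finset κ)
    (hs : s.card = n + 2) (ht : t.card = n + 2) (ν : Fin (n + 2) → ℝ)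
    (hν : box (n + 2) (P la s) (P mu t) = P ν univ)
    (η : κ → κ → ι → ι → Fin n → ℝ)
    (hη : ∀ k ∈ t, ∀ l ∈ t, ∀ i ∈ s, ∀ m ∈ s, k ≠ l → i ≠ m →
      box n (P la ((s.erase i).erase m)) (P mu ((t.erase k).erase l)) = P (η k l i m) univ)
    {α : Type*} [Fintype α] (w x : α → ℝ) :
    4 * ((n : ℝ) + 1) ^ 2 * (((n : ℝ) + 2) ^ 2 *
          (∑ c, (∑ a, w a * (P ν (univ.erase c)).eval (x a)) ^ 2)
        - ((n : ℝ) + 2) * ∑ j ∈ s, ∑ k ∈ t,
          (∑ a, w a * (box (n + 1) (P la (s.erase j)) (P mu (t.erase k))).eval (x a)) ^ 2)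
      = ∑ k ∈ t, ∑ l ∈ t, ∑ i ∈ s, ∑ m ∈ s, (mu k - mu l) ^ 2 * ((la i - la m) ^ 2
          * ∑ b, (∑ a, w a * (P (η k l i m) (univ.erase b)).eval (x a)) ^ 2) := by
  have hk := kernel n la mu s t hs ht ν hν η hη
  have h1 : ∑ a, ∑ a', w a * w a' * (4 * ((n : ℝ) + 1) ^ 2 * (((n : ℝ) + 2) ^ 2 *
          (∑ c, (P ν (univ.erase c)).eval (x a) * (P ν (univ.erase c)).eval (x a'))
        - ((n : ℝ) + 2) * ∑ j ∈ s, ∑ k ∈ t,
          (box (n + 1) (P la (s.erase j)) (P mu (t.erase k))).eval (x a)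
            * (box (n + 1) (P la (s.erase j)) (P mu (t.erase k))).eval (x a')))
      = ∑ a, ∑ a', w a * w a' * (∑ k ∈ t, ∑ l ∈ t, ∑ i ∈ s, ∑ m ∈ s, (mu k - mu l) ^ 2 *
          ((la i - la m) ^ 2 * ∑ b, (P (η k l i m) (univ.erase b)).eval (x a)
            * (P (η k l i m) (univ.erase b)).eval (x a'))) := by
    refine Finset.sum_congr rfl fun a _ => Finset.sum_congr rfl fun a' _ => ?_
    rw [hk (x a) (x a')]
  have e1 : ∑ a, ∑ a', w a * w a' * (4 * ((n : ℝ) + 1) ^ 2 * (((n : ℝ) + 2) ^ 2 *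
          (∑ c, (P ν (univ.erase c)).eval (x a) * (P ν (univ.erase c)).eval (x a'))
        - ((n : ℝ) + 2) * ∑ j ∈ s, ∑ k ∈ t,
          (box (n + 1) (P la (s.erase j)) (P mu (t.erase k))).eval (x a)
            * (box (n + 1) (P la (s.erase j)) (P mu (t.erase k))).eval (x a')))
      = 4 * ((n : ℝ) + 1) ^ 2 * (((n : ℝ) + 2) ^ 2 *
          (∑ a, ∑ a', w a * w a' *
            ∑ c, (P ν (univ.erase c)).eval (x a) * (P ν (univ.erase c)).eval (x a'))
        - ((n : ℝ) + 2) * ∑ j ∈ s, ∑ a, ∑ a', w a * w a' * ∑ k ∈ t,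
          (box (n + 1) (P la (s.erase j)) (P mu (t.erase k))).eval (x a)
            * (box (n + 1) (P la (s.erase j)) (P mu (t.erase k))).eval (x a')) := by
    have c1 : ∑ j ∈ s, ∑ a, ∑ a', w a * w a' * ∑ k ∈ t,
          (box (n + 1) (P la (s.erase j)) (P mu (t.erase k))).eval (x a)
            * (box (n + 1) (P la (s.erase j)) (P mu (t.erase k))).eval (x a')
        = ∑ a, ∑ a', w a * w a' * ∑ j ∈ s, ∑ k ∈ t,
          (box (n + 1) (P la (s.erase j)) (P mu (t.erase k))).eval (x a)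
            * (box (n + 1) (P la (s.erase j)) (P mu (t.erase k))).eval (x a') := by
      rw [Finset.sum_comm]
      refine Finset.sum_congr rfl fun a _ => ?_
      rw [Finset.sum_comm]
      refine Finset.sum_congr rfl fun a' _ => ?_
      rw [Finset.mul_sum]
    rw [c1, Finset.mul_sum, Finset.mul_sum, ← Finset.sum_sub_distrib, Finset.mul_sum]
    refine Finset.sum_congr rfl fun a _ => ?_
    rw [Finset.mul_sum, Finset.mul_sum, ← Finset.sum_sub_distrib, Finset.mul_sum]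
    refine Finset.sum_congr rfl fun a' _ => ?_
    ring
  have e2 : ∑ a, ∑ a', w a * w a' * (∑ k ∈ t, ∑ l ∈ t, ∑ i ∈ s, ∑ m ∈ s, (mu k - mu l) ^ 2 *
          ((la i - la m) ^ 2 * ∑ b, (P (η k l i m) (univ.erase b)).eval (x a)
            * (P (η k l i m) (univ.erase b)).eval (x a')))
      = ∑ k ∈ t, ∑ l ∈ t, ∑ i ∈ s, ∑ m ∈ s, (mu k - mu l) ^ 2 * ((la i - la m) ^ 2
          * ∑ a, ∑ a', w a * w a' * ∑ b, (P (η k l i m) (univ.erase b)).eval (x a)
            * (P (η k l i m) (univ.erase b)).eval (x a')) := by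
    have c : ∀ (f : κ → κ → ι → ι → α → α → ℝ),
        ∑ a, ∑ a', w a * w a' * (∑ k ∈ t, ∑ l ∈ t, ∑ i ∈ s, ∑ m ∈ s, (mu k - mu l) ^ 2 *
          ((la i - la m) ^ 2 * f k l i m a a'))
        = ∑ k ∈ t, ∑ l ∈ t, ∑ i ∈ s, ∑ m ∈ s, (mu k - mu l) ^ 2 * ((la i - la m) ^ 2
          * ∑ a, ∑ a', w a * w a' * f k l i m a a') := by
      intro f
      have c1 : ∀ a a', w a * w a' * (∑ k ∈ t, ∑ l ∈ t, ∑ i ∈ s, ∑ m ∈ s, (mu k - mu l) ^ 2 *
          ((la i - la m) ^ 2 * f k l i m a a'))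
          = ∑ k ∈ t, ∑ l ∈ t, ∑ i ∈ s, ∑ m ∈ s, (mu k - mu l) ^ 2 *
          ((la i - la m) ^ 2 * (w a * w a' * f k l i m a a')) := by
        intro a a'
        rw [Finset.mul_sum]
        refine Finset.sum_congr rfl fun k _ => ?_
        rw [Finset.mul_sum]
        refine Finset.sum_congr rfl fun l _ => ?_
        rw [Finset.mul_sum]
        refine Finset.sum_congr rfl fun i _ => ?_
        rw [Finset.mul_sum]
        refine Finset.sum_congr rfl fun m _ => ?_
        ring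
      simp only [c1]
      rw [comm3]
      refine Finset.sum_congr rfl fun k _ => ?_
      rw [comm3]
      refine Finset.sum_congr rfl fun l _ => ?_
      rw [comm3]
      refine Finset.sum_congr rfl fun i _ => ?_
      rw [comm3]
      refine Finset.sum_congr rfl fun m _ => ?_
      rw [Finset.mul_sum, Finset.mul_sum]
      refine Finset.sum_congr rfl fun a _ => ?_
      rw [Finset.mul_sum, Finset.mul_sum]
    exact c _
  rw [e1, e2] at h1
  simp only [quad_aux] at h1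
  exact h1

end

end Pool.Agent.V11331.FF
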