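import Pool.Agent.V11331.FF.Box
import Pool.Agent.V11331.FF.Core

/-!
# The key identity for the finite free convolution of products
-/

set_option autoImplicit false

namespace Pool.Agent.V11331.FF

open Polynomial Finset

variable {K : Type*} [Field K] [CharZero K]

section

variable {ι : Type*} [DecidableEq ι]

/-- `P la s = ∏_{i ∈ s} (X - la_i)` -/
noncomputable def P (la : ι → K) (s : Finset ι) : K[X] := ∏ i ∈ s, (X - C (la i))

omit [CharZero K] [DecidableEq ι] in
theorem P_natDegree (la : ι → K) (s : Finset ι) : (P la s).natDegree = s.card := by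
  unfold P
  rw [natDegree_prod_of_monic _ _ (fun _ _ => monic_X_sub_C _)]
  simp

omit [CharZero K] [DecidableEq ι] in
theorem P_monic (la : ι → K) (s : Finset ι) : (P la s).Monic :=
  monic_prod_of_monic _ _ (fun i _ => monic_X_sub_C _)

omit [CharZero K] in
theorem P_mul_erase (la : ι → K) (s : Finset ι) (j : ι) (hj : j ∈ s) :
    (X - C (la j)) * P la (s.erase j) = P la s :=
  Finset.mul_prod_erase s (fun i => X - C (la i)) hj

omit [CharZero K] in
theorem P_derivative (la : ι → K) (s : Finset ι) :
    derivative (P la s) = ∑ j ∈ s, P la (s.erase j) := by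
  unfold P
  rw [derivative_prod_finset]
  refine Finset.sum_congr rfl fun j _ => ?_
  rw [derivative_X_sub_C, mul_one]

end

variable {ι κ : Type*} [DecidableEq ι] [DecidableEq κ]

theorem R1 (n : ℕ) (la : ι → K) (mu : κ → K) (s : Finset ι) (t : Finset κ)
    (hs : s.card = n + 1) (ht : t.card = n + 1) (j : ι) (hj : j ∈ s) :
    ((n : K) + 1) • box (n + 1) (P la s) (P mu t)
      = ∑ k ∈ t, (X - C (la j) - C (mu k)) * box n (P la (s.erase j)) (P mu (t.erase k)) := by
  have hcard : (s.erase j).card = n := by
    rw [Finset.card_erase_of_mem hj, hs]; rfl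
  have hdeg : (P la (s.erase j)).natDegree ≤ n := by rw [P_natDegree, hcard]
  rw [← P_mul_erase la s j hj, sub_mul, map_sub, LinearMap.sub_apply, smul_sub,
    succ_box_X n _ _ hdeg, ← smul_eq_C_mul, map_smul, LinearMap.smul_apply, smul_comm,
    succ_box n _ _ hdeg]
  have hg : ((n : K) + 1) • P mu t - X * derivative (P mu t)
      = - ∑ k ∈ t, (mu k) • P mu (t.erase k) := by
    have : ((n : K) + 1) • P mu t = ∑ k ∈ t, (X - C (mu k)) * P mu (t.erase k) := by
      rw [Finset.sum_congr rfl (fun k hk => P_mul_erase mu t k hk), Finset.sum_const, ht,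
        ← Nat.cast_smul_eq_nsmul K]
      push_cast
      rfl
    rw [this, P_derivative, Finset.mul_sum, ← Finset.sum_sub_distrib, ← Finset.sum_neg_distrib]
    refine Finset.sum_congr rfl fun k _ => ?_
    rw [smul_eq_C_mul]
    ring
  rw [hg, P_derivative, map_neg, map_sum, map_sum, Finset.mul_sum, Finset.smul_sum,
    ← Finset.sum_neg_distrib, ← Finset.sum_add_distrib, ← Finset.sum_sub_distrib]
  refine Finset.sum_congr rfl fun k _ => ?_
  rw [map_smul, smul_eq_C_mul, smul_eq_C_mul]
  ring

theorem R1' (n : ℕ) (la : ι → K) (mu : κ → K) (s : Finset ι) (t : Finset κ)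
    (hs : s.card = n + 1) (ht : t.card = n + 1) (k : κ) (hk : k ∈ t) :
    ((n : K) + 1) • box (n + 1) (P la s) (P mu t)
      = ∑ j ∈ s, (X - C (la j) - C (mu k)) * box n (P la (s.erase j)) (P mu (t.erase k)) := by
  rw [box_comm (n + 1) _ _ (by rw [P_natDegree, hs]) (by rw [P_natDegree, ht]),
    R1 n mu la t s ht hs k hk]
  refine Finset.sum_congr rfl fun j hj => ?_
  rw [box_comm n _ _ (by rw [P_natDegree, Finset.card_erase_of_mem hk, ht]; simp)
    (by rw [P_natDegree, Finset.card_erase_of_mem hj, hs]; simp)]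
  ring

theorem R0 (n : ℕ) (la : ι → K) (mu : κ → K) (s : Finset ι) (t : Finset κ)
    (hs : s.card = n + 1) (j : ι) (hj : j ∈ s) :
    ((n : K) + 1) • box (n + 1) (P la (s.erase j)) (P mu t)
      = ∑ k ∈ t, box n (P la (s.erase j)) (P mu (t.erase k)) := by
  have hcard : (s.erase j).card = n := by
    rw [Finset.card_erase_of_mem hj, hs]; rfl
  have hdeg : (P la (s.erase j)).natDegree ≤ n := by rw [P_natDegree, hcard]
  rw [succ_box n _ _ hdeg, P_derivative, map_sum]

theorem R2 (n : ℕ) (la : ι → K) (mu : κ → K) (s : Finset ι) (t : Finset κ)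
    (hs : s.card = n + 1) :
    ((n : K) + 1) • derivative (box (n + 1) (P la s) (P mu t))
      = ∑ j ∈ s, ∑ k ∈ t, box n (P la (s.erase j)) (P mu (t.erase k)) := by
  rw [derivative_box, P_derivative, map_sum, LinearMap.sum_apply, Finset.smul_sum]
  refine Finset.sum_congr rfl fun j hj => ?_
  rw [R0 n la mu s t hs j hj]

/-- the values of the `2`-minors -/
noncomputable def bb (n : ℕ) (la : ι → K) (mu : κ → K) (s : Finset ι) (t : Finset κ)
    (x : K) (k l : κ) (i j : ι) : K :=
  if i = j then 0 else
    (box n (P la ((s.erase i).erase j)) (P mu ((t.erase k).erase l))).eval x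

/-- the values of the differences of the minors -/
noncomputable def ee (n : ℕ) (la : ι → K) (mu : κ → K) (s : Finset ι) (t : Finset κ)
    (x : K) (k l : κ) (i j m : ι) : K :=
  if i = j ∨ i = m ∨ j = m then 0 else
    (box n (P la (((s.erase i).erase m).erase j)) (P mu ((t.erase k).erase l))).eval x

theorem bb_symm (n : ℕ) (la : ι → K) (mu : κ → K) (s : Finset ι) (t : Finset κ)
    (x : K) (k l : κ) (i j : ι) : bb n la mu s t x k l i j = bb n la mu s t x k l j i := by
  unfold bb
  rcases eq_or_ne i j with h | h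
  · subst h; rfl
  · rw [if_neg h, if_neg (Ne.symm h), Finset.erase_right_comm]

theorem bb_symm' (n : ℕ) (la : ι → K) (mu : κ → K) (s : Finset ι) (t : Finset κ)
    (x : K) (k l : κ) (i j : ι) : bb n la mu s t x k l i j = bb n la mu s t x l k i j := by
  unfold bb
  rw [Finset.erase_right_comm (s := t)]

/-- `B_{ij} - B_{im} = (la_j - la_m) E` -/
theorem bb_sub (n : ℕ) (la : ι → K) (mu : κ → K) (s : Finset ι) (t : Finset κ)
    (x : K) (k l : κ) (i j m : ι) (hj : j ∈ s) (hm : m ∈ s)
    (hij : i ≠ j) (him : i ≠ m) (hjm : j ≠ m) :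
    bb n la mu s t x k l i m = bb n la mu s t x k l i j
      + (la m - la j) * ee n la mu s t x k l i j m := by
  unfold bb ee
  rw [if_neg hij, if_neg him, if_neg (by tauto)]
  have h1 : P la ((s.erase i).erase m)
      = (X - C (la j)) * P la (((s.erase i).erase m).erase j) :=
    (P_mul_erase la _ j (by simp [hjm, hij.symm, hj])).symm
  have h2 : P la ((s.erase i).erase j)
      = (X - C (la m)) * P la (((s.erase i).erase m).erase j) := by
    rw [Finset.erase_right_comm (a := m)]
    exact (P_mul_erase la _ m (by simp [hjm.symm, him.symm, hm])).symm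
  have h3 : P la ((s.erase i).erase m) = P la ((s.erase i).erase j)
      + (la m - la j) • P la (((s.erase i).erase m).erase j) := by
    rw [h1, h2, smul_eq_C_mul, C_sub]
    ring
  rw [h3, map_add, map_smul, LinearMap.add_apply, LinearMap.smul_apply, eval_add, eval_smul,
    smul_eq_mul]

theorem ee_symm (n : ℕ) (la : ι → K) (mu : κ → K) (s : Finset ι) (t : Finset κ)
    (x : K) (k l : κ) (i j m : ι) :
    ee n la mu s t x k l i j m = ee n la mu s t x k l m j i := by
  unfold ee
  by_cases h : i = j ∨ i = m ∨ j = m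
  · rw [if_pos h, if_pos (by tauto)]
  · rw [if_neg h, if_neg (by tauto), Finset.erase_right_comm (a := i) (b := m)]

theorem hE (n : ℕ) (la : ι → K) (mu : κ → K) (s : Finset ι) (t : Finset κ)
    (x y : K) (k l : κ) (i j m : ι) (hi : i ∈ s) (hj : j ∈ s) (hm : m ∈ s) :
    (la i - la m) * (bb n la mu s t x k l i j * bb n la mu s t y k l m j
        - bb n la mu s t x k l m j * bb n la mu s t y k l i j)
      = (la i - la m) ^ 2 * (ee n la mu s t x k l i j m * bb n la mu s t y k l i m
        - bb n la mu s t x k l i m * ee n la mu s t y k l i j m) := by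
  rcases eq_or_ne i m with him | him
  · subst him; simp
  rcases eq_or_ne i j with hij | hij
  · subst hij
    have h1 : ∀ z, bb n la mu s t z k l i i = 0 := fun z => by unfold bb; simp
    have h2 : ∀ z, ee n la mu s t z k l i i m = 0 := fun z => by unfold ee; simp
    rw [h1, h1, h2, h2]; ring
  rcases eq_or_ne j m with hjm | hjm
  · subst hjm
    have h1 : ∀ z, bb n la mu s t z k l j j = 0 := fun z => by unfold bb; simp
    have h2 : ∀ z, ee n la mu s t z k l i j j = 0 := fun z => by unfold ee; simp
    rw [h1, h1, h2, h2]; ring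
  have h1 : ∀ z, bb n la mu s t z k l i m = bb n la mu s t z k l i j
      + (la m - la j) * ee n la mu s t z k l i j m :=
    fun z => bb_sub n la mu s t z k l i j m hj hm hij him hjm
  have h2 : ∀ z, bb n la mu s t z k l m i = bb n la mu s t z k l m j
      + (la i - la j) * ee n la mu s t z k l m j i :=
    fun z => bb_sub n la mu s t z k l m j i hj hi hjm.symm him.symm hij.symm
  have h3 : ∀ z, bb n la mu s t z k l m j = bb n la mu s t z k l i j
      + (la m - la i) * ee n la mu s t z k l i j m := by
    intro z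
    have a1 := h1 z
    have a2 := h2 z
    rw [bb_symm, a1, ← ee_symm n la mu s t z k l i j m] at a2
    linear_combination -a2
  rw [h3 x, h3 y, h1 x, h1 y]
  ring

theorem h4 (n : ℕ) (la : ι → K) (mu : κ → K) (s : Finset ι) (t : Finset κ)
    (x : K) (k l : κ) (i m : ι) (him : i ≠ m) :
    (derivative (box n (P la ((s.erase i).erase m)) (P mu ((t.erase k).erase l)))).eval x
      = ∑ j ∈ s, ee n la mu s t x k l i j m := by
  rw [derivative_box, P_derivative, map_sum, LinearMap.sum_apply, eval_finsetSum]
  symm
  have hsub : (s.erase i).erase m ⊆ s :=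
    (Finset.erase_subset _ _).trans (Finset.erase_subset _ _)
  rw [← Finset.sum_subset hsub]
  · refine Finset.sum_congr rfl fun j hj => ?_
    simp only [Finset.mem_erase] at hj
    unfold ee
    rw [if_neg]
    rintro (h | h | h)
    · exact hj.2.1 h.symm
    · exact him h
    · exact hj.1 h
  · intro j hj hj'
    unfold ee
    rw [if_pos]
    by_contra hcon
    push Not at hcon
    apply hj'
    simp only [Finset.mem_erase]
    exact ⟨hcon.2.2, hcon.1.symm, hj⟩

theorem h3 (n : ℕ) (la : ι → K) (mu : κ → K) (s : Finset ι) (t : Finset κ)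
    (hs : s.card = n + 2) (ht : t.card = n + 2)
    (x : K) (j : ι) (hj : j ∈ s) (k l : κ) (hk : k ∈ t) (hl : l ∈ t) (hkl : k ≠ l) :
    ((n : K) + 1) * (box (n + 1) (P la (s.erase j)) (P mu (t.erase k))).eval x
      = ∑ i ∈ s, (x - la i - mu l) * bb n la mu s t x k l i j := by
  have hs' : (s.erase j).card = n + 1 := by rw [Finset.card_erase_of_mem hj, hs]; rfl
  have ht' : (t.erase k).card = n + 1 := by rw [Finset.card_erase_of_mem hk, ht]; rfl
  have hl' : l ∈ t.erase k := Finset.mem_erase.2 ⟨hkl.symm, hl⟩
  have := congrArg (fun f => eval x f) (R1' n la mu (s.erase j) (t.erase k) hs' ht' l hl')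
  simp only [eval_smul, smul_eq_mul, eval_finsetSum, eval_mul, eval_sub, eval_X, eval_C] at this
  rw [this, ← Finset.sum_subset (Finset.erase_subset j s)]
  · refine Finset.sum_congr rfl fun i hi => ?_
    have hij := (Finset.mem_erase.1 hi).1
    unfold bb
    rw [if_neg hij, Finset.erase_right_comm (a := j)]
  · intro i hi hi'
    have : i = j := by
      by_contra h
      exact hi' (Finset.mem_erase.2 ⟨h, hi⟩)
    subst this
    unfold bb
    simp

/-- the Wronskian-type expression `f'(x) f(y) - f(x) f'(y)` -/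
noncomputable def W (f : K[X]) (x y : K) : K :=
  (derivative f).eval x * f.eval y - f.eval x * (derivative f).eval y

/-- **Key identity.** -/
theorem key (n : ℕ) (la : ι → K) (mu : κ → K) (s : Finset ι) (t : Finset κ)
    (hs : s.card = n + 2) (ht : t.card = n + 2) (x y : K) :
    4 * ((n : K) + 1) ^ 2 * (((n : K) + 2) ^ 2 * W (box (n + 2) (P la s) (P mu t)) x y
        - ((n : K) + 2) * (y - x) * ∑ j ∈ s, ∑ k ∈ t,
          (box (n + 1) (P la (s.erase j)) (P mu (t.erase k))).eval x
            * (box (n + 1) (P la (s.erase j)) (P mu (t.erase k))).eval y)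
      = ∑ k ∈ t, ∑ l ∈ t, ∑ i ∈ s, ∑ m ∈ s, (mu k - mu l) ^ 2 * ((la i - la m) ^ 2
          * W (box n (P la ((s.erase i).erase m)) (P mu ((t.erase k).erase l))) x y) := by
  have hN : ((t.card : ℕ) : K) = (n : K) + 2 := by rw [ht]; push_cast; ring
  have hc : ((n + 1 : ℕ) : K) + 1 = (n : K) + 2 := by push_cast; ring
  have e1 : ∀ z : K, ∀ j ∈ s, ((n : K) + 2) * (box (n + 2) (P la s) (P mu t)).eval z
      = ∑ k ∈ t, (z - la j - mu k)
          * (box (n + 1) (P la (s.erase j)) (P mu (t.erase k))).eval z := by
    intro z j hj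
    have := congrArg (fun f => eval z f) (R1 (n + 1) la mu s t hs ht j hj)
    simp only [eval_smul, smul_eq_mul, eval_finsetSum, eval_mul, eval_sub, eval_X, eval_C,
      hc] at this
    exact this
  have e2 : ∀ z : K, ((n : K) + 2) * (derivative (box (n + 2) (P la s) (P mu t))).eval z
      = ∑ j ∈ s, ∑ k ∈ t,
          (box (n + 1) (P la (s.erase j)) (P mu (t.erase k))).eval z := by
    intro z
    have := congrArg (fun f => eval z f) (R2 (n + 1) la mu s t hs)
    simp only [eval_smul, smul_eq_mul, eval_finsetSum, hc] at this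
    exact this
  have hB := lemB s t la mu x y ((n : K) + 2)
    ((box (n + 2) (P la s) (P mu t)).eval x) ((box (n + 2) (P la s) (P mu t)).eval y)
    ((derivative (box (n + 2) (P la s) (P mu t))).eval x)
    ((derivative (box (n + 2) (P la s) (P mu t))).eval y)
    (fun j k => (box (n + 1) (P la (s.erase j)) (P mu (t.erase k))).eval x)
    (fun j k => (box (n + 1) (P la (s.erase j)) (P mu (t.erase k))).eval y)
    hN (e1 x) (e1 y) (e2 x) (e2 y)
  have hW : W (box (n + 2) (P la s) (P mu t)) x y
      = ((derivative (box (n + 2) (P la s) (P mu t))).eval x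
          * (box (n + 2) (P la s) (P mu t)).eval y
        - (box (n + 2) (P la s) (P mu t)).eval x
          * (derivative (box (n + 2) (P la s) (P mu t))).eval y) := rfl
  rw [hW]
  have step : 4 * ((n : K) + 1) ^ 2 * (((n : K) + 2) ^ 2 *
        ((derivative (box (n + 2) (P la s) (P mu t))).eval x
          * (box (n + 2) (P la s) (P mu t)).eval y
        - (box (n + 2) (P la s) (P mu t)).eval x
          * (derivative (box (n + 2) (P la s) (P mu t))).eval y)
        - ((n : K) + 2) * (y - x) * ∑ j ∈ s, ∑ k ∈ t,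
          (box (n + 1) (P la (s.erase j)) (P mu (t.erase k))).eval x
            * (box (n + 1) (P la (s.erase j)) (P mu (t.erase k))).eval y)
      = 2 * (((n : K) + 1) ^ 2 * (2 * (((n : K) + 2) ^ 2 *
        ((derivative (box (n + 2) (P la s) (P mu t))).eval x
          * (box (n + 2) (P la s) (P mu t)).eval y
        - (box (n + 2) (P la s) (P mu t)).eval x
          * (derivative (box (n + 2) (P la s) (P mu t))).eval y)
        - ((n : K) + 2) * (y - x) * ∑ j ∈ s, ∑ k ∈ t,
          (box (n + 1) (P la (s.erase j)) (P mu (t.erase k))).eval x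
            * (box (n + 1) (P la (s.erase j)) (P mu (t.erase k))).eval y))) := by ring
  rw [step, hB]
  -- apply `lemA` termwise
  have hA : ((n : K) + 1) ^ 2 * ∑ j ∈ s, ∑ k ∈ t, ∑ l ∈ t,
        (-(y - x) * ((box (n + 1) (P la (s.erase j)) (P mu (t.erase k))).eval x
            - (box (n + 1) (P la (s.erase j)) (P mu (t.erase l))).eval x)
          * ((box (n + 1) (P la (s.erase j)) (P mu (t.erase k))).eval y
            - (box (n + 1) (P la (s.erase j)) (P mu (t.erase l))).eval y)
          + (mu k - mu l) * ((box (n + 1) (P la (s.erase j)) (P mu (t.erase k))).eval x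
            * (box (n + 1) (P la (s.erase j)) (P mu (t.erase l))).eval y
            - (box (n + 1) (P la (s.erase j)) (P mu (t.erase l))).eval x
            * (box (n + 1) (P la (s.erase j)) (P mu (t.erase k))).eval y))
      = ∑ j ∈ s, ∑ k ∈ t, ∑ l ∈ t, (mu k - mu l) ^ 2 * ∑ i ∈ s, ∑ m ∈ s,
          (la i - la m) * (bb n la mu s t x k l i j * bb n la mu s t y k l m j) := by
    rw [Finset.mul_sum]
    refine Finset.sum_congr rfl fun j hj => ?_
    rw [Finset.mul_sum]
    refine Finset.sum_congr rfl fun k hk => ?_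
    rw [Finset.mul_sum]
    refine Finset.sum_congr rfl fun l hl => ?_
    rcases eq_or_ne k l with hkl | hkl
    · subst hkl
      simp
    · refine lemA s la x y ((n : K) + 1) (mu k) (mu l) _ _ _ _
        (fun i => bb n la mu s t x k l i j) (fun i => bb n la mu s t y k l i j)
        (h3 n la mu s t hs ht x j hj k l hk hl hkl) ?_
        (h3 n la mu s t hs ht y j hj k l hk hl hkl) ?_
      · rw [h3 n la mu s t hs ht x j hj l k hl hk hkl.symm]
        refine Finset.sum_congr rfl fun i _ => ?_
        rw [bb_symm' n la mu s t x k l]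
      · rw [h3 n la mu s t hs ht y j hj l k hl hk hkl.symm]
        refine Finset.sum_congr rfl fun i _ => ?_
        rw [bb_symm' n la mu s t y k l]
  rw [hA, Finset.sum_comm, Finset.mul_sum]
  refine Finset.sum_congr rfl fun k _ => ?_
  rw [Finset.sum_comm, Finset.mul_sum]
  refine Finset.sum_congr rfl fun l _ => ?_
  rw [← Finset.mul_sum]
  have hC := lemC s la (fun i j => bb n la mu s t x k l i j) (fun i j => bb n la mu s t y k l i j)
    (fun i m => (derivative (box n (P la ((s.erase i).erase m))
      (P mu ((t.erase k).erase l)))).eval x)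
    (fun i m => (derivative (box n (P la ((s.erase i).erase m))
      (P mu ((t.erase k).erase l)))).eval y)
    (fun i j m => ee n la mu s t x k l i j m) (fun i j m => ee n la mu s t y k l i j m)
    (fun i hi j hj m hm => hE n la mu s t x y k l i j m hi hj hm)
    (fun i _ m _ him => h4 n la mu s t x k l i m him)
    (fun i _ m _ him => h4 n la mu s t y k l i m him)
  have : 2 * ((mu k - mu l) ^ 2 * ∑ j ∈ s, ∑ i ∈ s, ∑ m ∈ s,
      (la i - la m) * (bb n la mu s t x k l i j * bb n la mu s t y k l m j))
      = (mu k - mu l) ^ 2 * (2 * ∑ j ∈ s, ∑ i ∈ s, ∑ m ∈ s,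
      (la i - la m) * (bb n la mu s t x k l i j * bb n la mu s t y k l m j)) := by ring
  rw [this, hC, Finset.mul_sum]
  refine Finset.sum_congr rfl fun i _ => ?_
  rw [Finset.mul_sum]
  refine Finset.sum_congr rfl fun m _ => ?_
  rcases eq_or_ne i m with him | him
  · subst him
    simp
  · unfold W bb
    rw [if_neg him, if_neg him]

end Pool.Agent.V11331.FF
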