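import Pool.Agent.V11331.FF.Heat

/-!
# Scaling and the large-time limit of the heat flow
-/

set_option autoImplicit false

namespace Pool.Agent.V11331.FF

open Polynomial Finset Filter Topology

/-- dilation of the roots by `c` -/
noncomputable def scl (N : ℕ) (c : ℝ) (f : ℝ[X]) : ℝ[X] :=
  ∑ k ∈ range (N + 1), (c ^ (N - k) * f.coeff k) • X ^ k

theorem scl_ne (N : ℕ) (c : ℝ) (hc : c ≠ 0) (f : ℝ[X]) (hf : f.natDegree ≤ N) :
    scl N c f = C (c ^ N) * f.comp (C c⁻¹ * X) := by
  unfold scl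
  conv_rhs => rw [f.as_sum_range' (N + 1) (by omega)]
  rw [Polynomial.sum_comp, Finset.mul_sum]
  refine Finset.sum_congr rfl fun k hk => ?_
  have hk' : k ≤ N := by
    have := Finset.mem_range.1 hk
    omega
  rw [monomial_comp, mul_pow, ← C_pow, smul_eq_C_mul, ← mul_assoc, ← mul_assoc, ← C_mul, ← C_mul]
  congr 2
  have h1 : c ^ N = c ^ (N - k) * c ^ k := by rw [← pow_add]; congr 1; omega
  rw [h1, inv_pow]
  field_simp

theorem scl_P {N : ℕ} (c : ℝ) (hc : c ≠ 0) (ν : Fin N → ℝ) :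
    scl N c (P ν univ) = P (fun i => c * ν i) univ := by
  rw [scl_ne N c hc _ (by rw [P_natDegree, card_univ_fin])]
  unfold P
  rw [Polynomial.prod_comp]
  have h1 : C (c ^ N) = ∏ _i : Fin N, (C c : ℝ[X]) := by
    rw [Finset.prod_const, card_univ_fin, C_pow]
  rw [h1, ← Finset.prod_mul_distrib]
  refine Finset.prod_congr rfl fun i _ => ?_
  rw [sub_comp, X_comp, C_comp, mul_sub, ← mul_assoc, ← C_mul, ← C_mul, mul_inv_cancel₀ hc, C_1,
    one_mul]

theorem iter_comp (m : ℕ) (a : ℝ) (f : ℝ[X]) :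
    derivative^[m] (f.comp (C a * X)) = C (a ^ m) * (derivative^[m] f).comp (C a * X) := by
  induction m with
  | zero => simp
  | succ m ih =>
    rw [Function.iterate_succ_apply', ih, derivative_C_mul, derivative_comp,
      Function.iterate_succ_apply' derivative, derivative_C_mul, derivative_X, pow_succ, C_mul]
    ring

theorem heat_scl (K N : ℕ) (c : ℝ) (hc : c ≠ 0) (t : ℝ) (f : ℝ[X]) (hf : f.natDegree ≤ N) :
    heat K (c ^ 2 * t) (scl N c f) = scl N c (heat K t f) := by
  rw [scl_ne N c hc f hf, scl_ne N c hc _ ((natDegree_heat_le K t f).trans hf), heat_apply,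
    heat_apply, Polynomial.sum_comp, Finset.mul_sum]
  refine Finset.sum_congr rfl fun k _ => ?_
  rw [iterate_derivative_C_mul, iter_comp, smul_comp, smul_eq_C_mul, smul_eq_C_mul, ← mul_assoc,
    ← mul_assoc, ← mul_assoc, ← C_mul, ← C_mul, ← C_mul]
  congr 2
  rw [inv_pow, neg_pow (c ^ 2 * t), mul_pow, ← pow_mul, neg_pow t]
  field_simp

theorem sum_card_Ioi (N : ℕ) : ∑ i : Fin N, (Ioi i).card = N.choose 2 := by
  induction N with
  | zero => rfl
  | succ N ih =>
    rw [Fin.sum_univ_succ]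
    have h : ∀ i : Fin N, (Ioi i.succ).card = (Ioi i).card := by
      intro i
      rw [Fin.card_Ioi, Fin.card_Ioi, Fin.val_succ]
      omega
    simp only [h, ih]
    rw [Fin.card_Ioi, Nat.choose_succ_succ' N 1, Nat.choose_one_right]
    simp

theorem dis_scale {N : ℕ} (c : ℝ) (ν : Fin N → ℝ) :
    dis (fun i => c * ν i) = (c ^ 2) ^ (N.choose 2) * dis ν := by
  unfold dis
  have h : ∀ i : Fin N, ∏ j ∈ Ioi i, (c * ν i - c * ν j) ^ 2
      = (c ^ 2) ^ (Ioi i).card * ∏ j ∈ Ioi i, (ν i - ν j) ^ 2 := by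
    intro i
    rw [← Finset.prod_const, ← Finset.prod_mul_distrib]
    exact Finset.prod_congr rfl fun j _ => by ring
  rw [Finset.prod_congr rfl fun i _ => h i, Finset.prod_mul_distrib, Finset.prod_pow_eq_pow_sum,
    sum_card_Ioi]

theorem scl_zero (N : ℕ) (f : ℝ[X]) (hf : f.coeff N = 1) : scl N 0 f = X ^ N := by
  unfold scl
  rw [Finset.sum_range_succ, Finset.sum_eq_zero]
  · simp [hf]
  · intro k hk
    have := Finset.mem_range.1 hk
    rw [zero_pow (by omega), zero_mul, zero_smul]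

theorem dd_continuous (N : ℕ) (F : ℝ → ℝ[X]) (hF : ∀ m, Continuous fun x => (F x).coeff m) :
    Continuous fun x => dd N (F x) := by
  unfold dd
  have h1 : Continuous fun x => cvec N (F x) := by
    refine continuous_pi fun i => ?_
    unfold cvec
    exact continuous_const.mul (hF _)
  exact (eval_differentiable (QQ N)).continuous.comp h1

theorem heat_scl_continuous (K N : ℕ) (f : ℝ[X]) (m : ℕ) :
    Continuous fun c : ℝ => (heat K 1 (scl N c f)).coeff m := by
  have h : ∀ c : ℝ, (heat K 1 (scl N c f)).coeff m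
      = ∑ k ∈ range (N + 1), (c ^ (N - k) * f.coeff k) * (heat K 1 (X ^ k)).coeff m := by
    intro c
    unfold scl
    rw [map_sum, finsetSum_coeff]
    refine Finset.sum_congr rfl fun k _ => ?_
    rw [map_smul, coeff_smul, smul_eq_mul]
  simp only [h]
  fun_prop

/-- the discriminant of the Hermite polynomial -/
noncomputable def H0 (K N : ℕ) : ℝ := dd N (hp K 1 N)

theorem H0_pos (K N : ℕ) (hN : N ≤ 2 * K) : 0 < H0 K N := by
  obtain ⟨η, hηi, hη⟩ := hp_roots K 1 one_pos N hN
  unfold H0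
  rw [hη, dd_P]
  exact dis_ne η hηi

theorem limit (K N : ℕ) (hN : N ≤ 2 * K) (la : Fin N → ℝ) :
    Tendsto (fun t => Real.log (dd N (heat (K + 1) t (P la univ)))
      - (N.choose 2 : ℝ) * Real.log t) atTop (𝓝 (Real.log (H0 K N))) := by
  have hdeg : (P la univ).natDegree ≤ N := by rw [P_natDegree, card_univ_fin]
  have hco : (P la univ).coeff N = 1 := by
    have h := P_monic la univ
    unfold Monic leadingCoeff at h
    rwa [P_natDegree, card_univ_fin] at h
  have h1 : Continuous fun c : ℝ => dd N (heat (K + 1) 1 (scl N c (P la univ))) :=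
    dd_continuous N _ fun m => heat_scl_continuous (K + 1) N (P la univ) m
  have h0 : dd N (heat (K + 1) 1 (scl N 0 (P la univ))) = H0 K N := by
    rw [scl_zero N _ hco]
    rfl
  have h2 : Tendsto (fun c : ℝ => Real.log (dd N (heat (K + 1) 1 (scl N c (P la univ)))))
      (𝓝 0) (𝓝 (Real.log (H0 K N))) := by
    have := (h1.tendsto 0)
    rw [h0] at this
    exact this.log (H0_pos K N hN).ne'
  have h3 : Tendsto (fun t : ℝ => (Real.sqrt t)⁻¹) atTop (𝓝 0) :=
    tendsto_inv_atTop_zero.comp Real.tendsto_sqrt_atTop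
  refine (h2.comp h3).congr' ?_
  filter_upwards [eventually_gt_atTop 0] with t ht
  have hs : 0 < Real.sqrt t := Real.sqrt_pos.2 ht
  have hc : (Real.sqrt t)⁻¹ ≠ 0 := (inv_pos.2 hs).ne'
  have hc2 : ((Real.sqrt t)⁻¹) ^ 2 = t⁻¹ := by rw [inv_pow, Real.sq_sqrt ht.le]
  have h4 := heat_scl (K + 1) N (Real.sqrt t)⁻¹ hc t (P la univ) hdeg
  rw [hc2, inv_mul_cancel₀ ht.ne'] at h4
  obtain ⟨ν, hνi, hν⟩ := heat_roots K t ht N hN la
  change Real.log (dd N (heat (K + 1) 1 (scl N (Real.sqrt t)⁻¹ (P la univ)))) = _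
  rw [h4, hν, scl_P _ hc, dd_P, dd_P, dis_scale, hc2, Real.log_mul, Real.log_pow, Real.log_inv]
  · ring
  · positivity
  · exact (dis_ne ν hνi).ne'

end Pool.Agent.V11331.FF
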