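import Pool.Agent.V11331.FF.Limit

/-!
# The finite free entropy power inequality
-/

set_option autoImplicit false

namespace Pool.Agent.V11331.FF

open Polynomial Finset Filter Topology

theorem logderiv (K N : ℕ) (hN : N ≤ 2 * K) (la : Fin N → ℝ) (hla : Function.Injective la)
    (c : ℝ) (hc : 0 < c) (t : ℝ) (ht : 0 ≤ t) :
    ∃ ν : Fin N → ℝ, Function.Injective ν ∧ heat (K + 1) (c * t) (P la univ) = P ν univ ∧
      HasDerivAt (fun x => Real.log (dd N (heat (K + 1) (c * x) (P la univ)))) (4 * c * Phi ν) t := by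
  have hdeg : (P la univ).natDegree < 2 * K + 2 := by
    rw [P_natDegree, card_univ_fin]
    omega
  have hex : ∃ ν : Fin N → ℝ, Function.Injective ν ∧
      heat (K + 1) (c * t) (P la univ) = P ν univ := by
    rcases eq_or_lt_of_le ht with h | h
    · refine ⟨la, hla, ?_⟩
      rw [← h, mul_zero, heat_zero]
    · exact heat_roots K (c * t) (mul_pos hc h) N hN la
  obtain ⟨ν, hνi, hν⟩ := hex
  refine ⟨ν, hνi, hν, ?_⟩
  have h1 := dd_heat (fun x => heat (K + 1) (c * x) (P la univ)) ν hνi t c hν (by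
    intro m
    have := heat_hasDerivAt K c (P la univ) hdeg t m
    rw [hν] at this
    exact this)
  have hpos := dis_ne ν hνi
  have hval : dd N (heat (K + 1) (c * t) (P la univ)) = dis ν := by rw [hν, dd_P]
  have h2 := h1.log (by rw [hval]; exact hpos.ne')
  rw [hval] at h2
  refine h2.congr_deriv ?_
  field_simp

/-- the difference of entropies along the flow -/
noncomputable def gg (n : ℕ) (la mu ν : Fin (n + 2) → ℝ) (th t : ℝ) : ℝ :=
  Real.log (dd (n + 2) (heat (n + 3) (1 * t) (P ν univ)))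
    - th * Real.log (dd (n + 2) (heat (n + 3) (th * t) (P la univ)))
    - (1 - th) * Real.log (dd (n + 2) (heat (n + 3) ((1 - th) * t) (P mu univ)))

theorem box_flow (n : ℕ) (la mu ν : Fin (n + 2) → ℝ)
    (hν : box (n + 2) (P la univ) (P mu univ) = P ν univ) (s t : ℝ) :
    box (n + 2) (heat (n + 3) s (P la univ)) (heat (n + 3) t (P mu univ))
      = heat (n + 3) (s + t) (P ν univ) := by
  have h1 : (P la univ).natDegree ≤ n + 2 := by rw [P_natDegree, card_univ_fin]
  have h2 : (P mu univ).natDegree ≤ n + 2 := by rw [P_natDegree, card_univ_fin]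
  have h3 : (P ν univ).natDegree < 2 * (n + 3) := by
    rw [P_natDegree, card_univ_fin]
    omega
  rw [← heat_box_left, ← heat_box_right _ _ _ _ _ h1 h2, hν, heat_semigroup _ _ _ _ h3]

theorem gg_deriv (n : ℕ) (la mu ν : Fin (n + 2) → ℝ) (hla : Function.Injective la)
    (hmu : Function.Injective mu) (hνi : Function.Injective ν)
    (hν : box (n + 2) (P la univ) (P mu univ) = P ν univ)
    (th : ℝ) (h0 : 0 < th) (h1 : th < 1) (t : ℝ) (ht : 0 ≤ t) :
    ∃ (la' mu' ν' : Fin (n + 2) → ℝ), Function.Injective la' ∧ Function.Injective mu' ∧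
      Function.Injective ν' ∧ heat (n + 3) (th * t) (P la univ) = P la' univ ∧
      heat (n + 3) ((1 - th) * t) (P mu univ) = P mu' univ ∧
      box (n + 2) (P la' univ) (P mu' univ) = P ν' univ ∧
      HasDerivAt (gg n la mu ν th)
        (-4 * (th ^ 2 * Phi la' + (1 - th) ^ 2 * Phi mu' - Phi ν')) t := by
  obtain ⟨la', h1a, h1b, h1c⟩ := logderiv (n + 2) (n + 2) (by omega) la hla th h0 t ht
  obtain ⟨mu', h2a, h2b, h2c⟩ := logderiv (n + 2) (n + 2) (by omega) mu hmu (1 - th)
    (by linarith) t ht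
  obtain ⟨ν', h3a, h3b, h3c⟩ := logderiv (n + 2) (n + 2) (by omega) ν hνi 1 one_pos t ht
  refine ⟨la', mu', ν', h1a, h2a, h3a, h1b, h2b, ?_, ?_⟩
  · rw [← h1b, ← h2b, ← h3b, box_flow n la mu ν hν, ← add_mul, add_sub_cancel]
  · have h4 := (h3c.sub (h1c.const_mul th)).sub (h2c.const_mul (1 - th))
    refine h4.congr_deriv ?_
    ring

theorem gg_antitone (n : ℕ) (la mu ν : Fin (n + 2) → ℝ) (hla : Function.Injective la)
    (hmu : Function.Injective mu) (hνi : Function.Injective ν)
    (hν : box (n + 2) (P la univ) (P mu univ) = P ν univ)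
    (th : ℝ) (h0 : 0 < th) (h1 : th < 1) : AntitoneOn (gg n la mu ν th) (Set.Ici 0) := by
  refine antitoneOn_of_deriv_nonpos (convex_Ici 0) ?_ ?_ ?_
  · intro t ht
    obtain ⟨la', mu', ν', _, _, _, _, _, _, h⟩ :=
      gg_deriv n la mu ν hla hmu hνi hν th h0 h1 t ht
    exact h.continuousAt.continuousWithinAt
  · intro t ht
    rw [interior_Ici] at ht
    obtain ⟨la', mu', ν', _, _, _, _, _, _, h⟩ :=
      gg_deriv n la mu ν hla hmu hνi hν th h0 h1 t (le_of_lt ht)
    exact h.differentiableAt.differentiableWithinAt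
  · intro t ht
    rw [interior_Ici] at ht
    obtain ⟨la', mu', ν', a1, a2, a3, _, _, a4, h⟩ :=
      gg_deriv n la mu ν hla hmu hνi hν th h0 h1 t (le_of_lt ht)
    rw [h.deriv]
    have := stam n la' mu' ν' a1 a2 a3 a4 th
    linarith

theorem gg_limit (n : ℕ) (la mu ν : Fin (n + 2) → ℝ) (th : ℝ) (h0 : 0 < th) (h1 : th < 1) :
    Tendsto (gg n la mu ν th) atTop (𝓝 (((n + 2).choose 2 : ℝ)
      * (-(th * Real.log th) - (1 - th) * Real.log (1 - th)))) := by
  have h1' : 0 < 1 - th := by linarith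
  have t1 := limit (n + 2) (n + 2) (by omega) ν
  have t2 := (limit (n + 2) (n + 2) (by omega) la).comp (tendsto_id.const_mul_atTop h0)
  have t3 := (limit (n + 2) (n + 2) (by omega) mu).comp (tendsto_id.const_mul_atTop h1')
  have t4 := (t1.sub (t2.const_mul th)).sub (t3.const_mul (1 - th))
  have t5 := t4.add_const (((n + 2).choose 2 : ℝ)
      * (-(th * Real.log th) - (1 - th) * Real.log (1 - th)))
  have e : Real.log (H0 (n + 2) (n + 2)) - th * Real.log (H0 (n + 2) (n + 2))
      - (1 - th) * Real.log (H0 (n + 2) (n + 2)) + (((n + 2).choose 2 : ℝ)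
      * (-(th * Real.log th) - (1 - th) * Real.log (1 - th)))
      = ((n + 2).choose 2 : ℝ) * (-(th * Real.log th) - (1 - th) * Real.log (1 - th)) := by ring
  rw [e] at t5
  refine t5.congr' ?_
  filter_upwards [eventually_gt_atTop 0] with t ht
  simp only [Function.comp_apply, id]
  unfold gg
  rw [Real.log_mul h0.ne' ht.ne', Real.log_mul h1'.ne' ht.ne', one_mul]
  ring

theorem entropic (n : ℕ) (la mu ν : Fin (n + 2) → ℝ) (hla : Function.Injective la)
    (hmu : Function.Injective mu) (hνi : Function.Injective ν)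
    (hν : box (n + 2) (P la univ) (P mu univ) = P ν univ)
    (th : ℝ) (h0 : 0 < th) (h1 : th < 1) :
    ((n + 2).choose 2 : ℝ) * (-(th * Real.log th) - (1 - th) * Real.log (1 - th))
      ≤ Real.log (dis ν) - th * Real.log (dis la) - (1 - th) * Real.log (dis mu) := by
  have h := le_of_tendsto (gg_limit n la mu ν th h0 h1) (by
    filter_upwards [eventually_ge_atTop 0] with t ht
    exact gg_antitone n la mu ν hla hmu hνi hν th h0 h1 Set.self_mem_Ici ht ht)
  have e : gg n la mu ν th 0
      = Real.log (dis ν) - th * Real.log (dis la) - (1 - th) * Real.log (dis mu) := by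
    unfold gg
    rw [mul_zero, mul_zero, mul_zero, heat_zero, heat_zero, heat_zero, dd_P, dd_P, dd_P]
  rw [e] at h
  exact h

theorem choose_pos (n : ℕ) : (0 : ℝ) < ((n + 2).choose 2 : ℝ) := by
  exact_mod_cast Nat.choose_pos (by omega)

/-- the exponent identity -/
theorem epi_of_entropic (M a b c : ℝ) (hM : 0 < M) (ha : 0 < a) (hb : 0 < b) (hc : 0 < c)
    (h : ∀ th : ℝ, 0 < th → th < 1 → M * (-(th * Real.log th) - (1 - th) * Real.log (1 - th))
      ≤ Real.log c - th * Real.log a - (1 - th) * Real.log b) :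
    a ^ (1 / M) + b ^ (1 / M) ≤ c ^ (1 / M) := by
  set α := a ^ (1 / M) with hα
  set β := b ^ (1 / M) with hβ
  have hαp : 0 < α := Real.rpow_pos_of_pos ha _
  have hβp : 0 < β := Real.rpow_pos_of_pos hb _
  have hs : 0 < α + β := by linarith
  have h1 := h (α / (α + β)) (by positivity) (by rw [div_lt_one hs]; linarith)
  have h2 : 1 - α / (α + β) = β / (α + β) := by field_simp; ring
  rw [h2, Real.log_div hαp.ne' hs.ne', Real.log_div hβp.ne' hs.ne'] at h1
  have hla : Real.log α = Real.log a / M := by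
    rw [hα, Real.log_rpow ha]; ring
  have hlb : Real.log β = Real.log b / M := by
    rw [hβ, Real.log_rpow hb]; ring
  have hla' : Real.log a = M * Real.log α := by rw [hla]; field_simp
  have hlb' : Real.log b = M * Real.log β := by rw [hlb]; field_simp
  have h3 : M * Real.log (α + β) ≤ Real.log c := by
    rw [hla', hlb'] at h1
    have e : M * (-(α / (α + β) * (Real.log α - Real.log (α + β)))
        - β / (α + β) * (Real.log β - Real.log (α + β)))
        + α / (α + β) * (M * Real.log α) + β / (α + β) * (M * Real.log β)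
        = M * Real.log (α + β) := by
      field_simp
      ring
    linarith
  have h4 : Real.log (α + β) ≤ Real.log (c ^ (1 / M)) := by
    rw [Real.log_rpow hc, one_div, ← div_eq_inv_mul, le_div_iff₀ hM]
    linarith
  exact (Real.log_le_log_iff hs (Real.rpow_pos_of_pos hc _)).1 h4

theorem epi_simple (n : ℕ) (la mu ν : Fin (n + 2) → ℝ) (hla : Function.Injective la)
    (hmu : Function.Injective mu)
    (hν : box (n + 2) (P la univ) (P mu univ) = P ν univ) :
    dis la ^ (1 / ((n + 2).choose 2 : ℝ)) + dis mu ^ (1 / ((n + 2).choose 2 : ℝ))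
      ≤ dis ν ^ (1 / ((n + 2).choose 2 : ℝ)) := by
  have hνi : Function.Injective ν := box_simple (n + 2) la mu univ univ (card_univ_fin _)
    (card_univ_fin _) hla.injOn ν hν
  exact epi_of_entropic _ _ _ _ (choose_pos n) (dis_ne la hla) (dis_ne mu hmu) (dis_ne ν hνi)
    fun th h0 h1 => entropic n la mu ν hla hmu hνi hν th h0 h1

theorem heat_dd_continuous (K N : ℕ) (c : ℝ) (la : Fin N → ℝ) (hN : N ≤ 2 * K) :
    Continuous fun x => dd N (heat (K + 1) (c * x) (P la univ)) := by
  refine dd_continuous N _ fun m => ?_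
  rw [continuous_iff_continuousAt]
  intro t
  exact (heat_hasDerivAt K c (P la univ) (by rw [P_natDegree, card_univ_fin]; omega) t m).continuousAt

/-- **The finite free entropy power inequality.** -/
theorem epi (n : ℕ) (la mu ν : Fin (n + 2) → ℝ)
    (hν : box (n + 2) (P la univ) (P mu univ) = P ν univ) :
    dis la ^ (1 / ((n + 2).choose 2 : ℝ)) + dis mu ^ (1 / ((n + 2).choose 2 : ℝ))
      ≤ dis ν ^ (1 / ((n + 2).choose 2 : ℝ)) := by
  have hM := choose_pos n
  have hexp : 0 ≤ 1 / ((n + 2).choose 2 : ℝ) := by positivity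
  have c1 := heat_dd_continuous (n + 2) (n + 2) 1 la (by omega)
  have c2 := heat_dd_continuous (n + 2) (n + 2) 1 mu (by omega)
  have c3 := heat_dd_continuous (n + 2) (n + 2) 2 ν (by omega)
  have t1 : Tendsto (fun x => (dd (n + 2) (heat (n + 3) (1 * x) (P la univ)))
      ^ (1 / ((n + 2).choose 2 : ℝ)) + (dd (n + 2) (heat (n + 3) (1 * x) (P mu univ)))
      ^ (1 / ((n + 2).choose 2 : ℝ))) (𝓝[>] 0) (𝓝 (dis la ^ (1 / ((n + 2).choose 2 : ℝ))
        + dis mu ^ (1 / ((n + 2).choose 2 : ℝ)))) := by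
    have d1 := (c1.rpow_const (fun _ => Or.inr hexp)).tendsto 0
    have d2 := (c2.rpow_const (fun _ => Or.inr hexp)).tendsto 0
    rw [mul_zero, heat_zero, dd_P] at d1 d2
    exact (d1.add d2).mono_left nhdsWithin_le_nhds
  have t2 : Tendsto (fun x => (dd (n + 2) (heat (n + 3) (2 * x) (P ν univ)))
      ^ (1 / ((n + 2).choose 2 : ℝ))) (𝓝[>] 0) (𝓝 (dis ν ^ (1 / ((n + 2).choose 2 : ℝ)))) := by
    have := (c3.rpow_const (fun _ => Or.inr hexp)).tendsto 0
    rw [mul_zero, heat_zero, dd_P] at this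
    exact this.mono_left nhdsWithin_le_nhds
  refine le_of_tendsto_of_tendsto t1 t2 ?_
  filter_upwards [self_mem_nhdsWithin] with x hx
  have hx' : (0 : ℝ) < x := hx
  rw [one_mul]
  obtain ⟨la', a1, a2⟩ := heat_roots (n + 2) x hx' (n + 2) (by omega) la
  obtain ⟨mu', b1, b2⟩ := heat_roots (n + 2) x hx' (n + 2) (by omega) mu
  obtain ⟨ν', d1, d2⟩ := heat_roots (n + 2) (2 * x) (by linarith) (n + 2) (by omega) ν
  rw [a2, b2, d2, dd_P, dd_P, dd_P]
  refine epi_simple n la' mu' ν' a1 b1 ?_
  rw [← a2, ← b2, ← d2, box_flow n la mu ν hν, two_mul]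

end Pool.Agent.V11331.FF
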