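import Pool.Agent.V11331.FF.Key

/-!
# Real-rootedness of the finite free convolution, and the kernel identity
-/

set_option autoImplicit false

namespace Pool.Agent.V11331.FF

open Polynomial Finset

theorem eval_conj (f : ℝ[X]) (z : ℂ) :
    (f.map (algebraMap ℝ ℂ)).eval ((starRingEnd ℂ) z)
      = (starRingEnd ℂ) ((f.map (algebraMap ℝ ℂ)).eval z) := by
  rw [eval_map, eval_map, Polynomial.eval₂_eq_sum_range, Polynomial.eval₂_eq_sum_range, map_sum]
  refine Finset.sum_congr rfl fun i _ => ?_
  rw [map_mul, map_pow]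
  simp

/-- a monic real polynomial without zeros in the open upper half plane has only real roots -/
theorem exists_roots (n : ℕ) : ∀ (f : ℝ[X]), f.Monic → f.natDegree = n →
    (∀ z : ℂ, 0 < z.im → (f.map (algebraMap ℝ ℂ)).eval z ≠ 0) →
    ∃ ν : Fin n → ℝ, f = P ν univ := by
  induction n with
  | zero =>
    intro f hm hd _
    refine ⟨fun i => i.elim0, ?_⟩
    unfold P
    rw [Finset.univ_eq_empty, Finset.prod_empty]
    exact hm.natDegree_eq_zero.1 hd
  | succ n ih =>
    intro f hm hd h
    have hdeg : (f.map (algebraMap ℝ ℂ)).degree ≠ 0 := by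
      rw [degree_map, degree_eq_natDegree hm.ne_zero, hd]
      exact_mod_cast Nat.succ_ne_zero n
    obtain ⟨z, hz⟩ := IsAlgClosed.exists_root (f.map (algebraMap ℝ ℂ)) hdeg
    have hz0 : (f.map (algebraMap ℝ ℂ)).eval z = 0 := hz
    have hconj : (f.map (algebraMap ℝ ℂ)).eval ((starRingEnd ℂ) z) = 0 := by
      rw [eval_conj, hz0, map_zero]
    have him : z.im = 0 := by
      rcases lt_trichotomy z.im 0 with h1 | h1 | h1
      · exfalso
        refine h ((starRingEnd ℂ) z) ?_ hconj
        rw [Complex.conj_im]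
        linarith
      · exact h1
      · exact absurd hz0 (h z h1)
    have hzr : z = ((z.re : ℝ) : ℂ) := Complex.ext rfl (by simp [him])
    have hroot : f.IsRoot z.re := by
      have h2 : (f.map (algebraMap ℝ ℂ)).eval ((z.re : ℝ) : ℂ) = ((f.eval z.re : ℝ) : ℂ) := by
        rw [eval_map]
        exact (Polynomial.hom_eval₂ f (RingHom.id ℝ) (algebraMap ℝ ℂ) z.re).symm
      rw [← hzr, hz0] at h2
      exact_mod_cast h2.symm
    obtain ⟨g, hg⟩ := dvd_iff_isRoot.2 hroot
    have hgm : g.Monic := (monic_X_sub_C z.re).of_mul_monic_left (hg ▸ hm)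
    have hgd : g.natDegree = n := by
      have := congrArg natDegree hg
      rw [(monic_X_sub_C z.re).natDegree_mul hgm, natDegree_X_sub_C, hd] at this
      omega
    have hgz : ∀ w : ℂ, 0 < w.im → (g.map (algebraMap ℝ ℂ)).eval w ≠ 0 := by
      intro w hw h0
      apply h w hw
      rw [hg, Polynomial.map_mul, eval_mul, h0, mul_zero]
    obtain ⟨ν, hν⟩ := ih g hgm hgd hgz
    refine ⟨Fin.cons z.re ν, ?_⟩
    rw [hg, hν]
    unfold P
    rw [Fin.prod_univ_succ]
    simp

theorem box_map (n : ℕ) (f g : ℝ[X]) :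
    (box n f g).map (algebraMap ℝ ℂ)
      = box n (f.map (algebraMap ℝ ℂ)) (g.map (algebraMap ℝ ℂ)) := by
  rw [box_apply, box_apply, Polynomial.map_sum]
  refine Finset.sum_congr rfl fun b _ => ?_
  rw [smul_eq_C_mul, smul_eq_C_mul, Polynomial.map_mul, iterate_derivative_map, map_C, coeff_map]
  congr 2
  simp

theorem P_map {ι : Type*} [DecidableEq ι] (la : ι → ℝ) (s : Finset ι) :
    (P la s).map (algebraMap ℝ ℂ) = P (fun i => (la i : ℂ)) s := by
  unfold P
  rw [Polynomial.map_prod]
  refine Finset.prod_congr rfl fun i _ => ?_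
  simp

/-- `w g z = Im (g'(z) conj (g z))` -/
noncomputable def ww (g : ℂ[X]) (z : ℂ) : ℝ :=
  ((derivative g).eval z * (starRingEnd ℂ) (g.eval z)).im

theorem W_conj (f : ℝ[X]) (z : ℂ) :
    W (f.map (algebraMap ℝ ℂ)) z ((starRingEnd ℂ) z)
      = 2 * Complex.I * (ww (f.map (algebraMap ℝ ℂ)) z : ℂ) := by
  unfold W ww
  rw [eval_conj, derivative_map, eval_conj]
  set a := eval z (map (algebraMap ℝ ℂ) (derivative f))
  set b := eval z (map (algebraMap ℝ ℂ) f)
  apply Complex.ext
  · simp
    ring
  · simp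
    ring

theorem ww_neg_ne (f : ℂ[X]) (z : ℂ) (h : ww f z < 0) : f.eval z ≠ 0 := by
  intro h0
  unfold ww at h
  rw [h0] at h
  simp at h

section

variable {ι κ : Type*} [DecidableEq ι] [DecidableEq κ]

/-- positivity in the upper half plane -/
theorem upper (la : ι → ℝ) (mu : κ → ℝ) (z : ℂ) (hz : 0 < z.im) : ∀ (n : ℕ)
    (s : Finset ι) (t : Finset κ), s.card = n → t.card = n →
    ww ((box n (P la s) (P mu t)).map (algebraMap ℝ ℂ)) z ≤ 0 ∧
    ((box n (P la s) (P mu t)).map (algebraMap ℝ ℂ)).eval z ≠ 0 := by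
  intro n
  induction n using Nat.strong_induction_on with
  | _ n ih =>
    intro s t hs ht
    match n, ih, hs, ht with
    | 0, _, hs, ht =>
      have hs0 : s = ∅ := Finset.card_eq_zero.1 hs
      have ht0 : t = ∅ := Finset.card_eq_zero.1 ht
      have h1 : box 0 (P la s) (P mu t) = 1 := by
        rw [hs0, ht0]
        unfold P
        rw [Finset.prod_empty, Finset.prod_empty, box_one]
        simp
      rw [h1]
      constructor
      · unfold ww
        simp
      · simp
    | 1, _, hs, ht =>
      obtain ⟨i, hi⟩ := Finset.card_eq_one.1 hs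
      obtain ⟨k, hk⟩ := Finset.card_eq_one.1 ht
      have h1 : box 1 (P la s) (P mu t) = X - C (la i) - C (mu k) := by
        have := R1 0 la mu s t hs ht i (by rw [hi]; simp)
        rw [hi, hk] at this ⊢
        simp only [CharP.cast_eq_zero, zero_add, one_smul, Finset.sum_singleton,
          Finset.erase_singleton] at this
        rw [this]
        unfold P
        rw [Finset.prod_empty, Finset.prod_empty, box_one]
        simp
      have h2 : ww ((box 1 (P la s) (P mu t)).map (algebraMap ℝ ℂ)) z < 0 := by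
        rw [h1]
        unfold ww
        simp
        exact hz
      exact ⟨h2.le, ww_neg_ne _ _ h2⟩
    | (m + 2), ih, hs, ht =>
      have hA : ∀ j ∈ s, ∀ k ∈ t,
          ((box (m + 1) (P la (s.erase j)) (P mu (t.erase k))).map (algebraMap ℝ ℂ)).eval z ≠ 0 := by
        intro j hj k hk
        refine (ih (m + 1) (by omega) (s.erase j) (t.erase k) ?_ ?_).2
        · rw [Finset.card_erase_of_mem hj, hs]; rfl
        · rw [Finset.card_erase_of_mem hk, ht]; rfl
      have hB : ∀ k ∈ t, ∀ l ∈ t, ∀ i ∈ s, ∀ j ∈ s, (mu k - mu l) ^ 2 * ((la i - la j) ^ 2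
          * ww ((box m (P la ((s.erase i).erase j)) (P mu ((t.erase k).erase l))).map
            (algebraMap ℝ ℂ)) z) ≤ 0 := by
        intro k hk l hl i hi j hj
        rcases eq_or_ne k l with hkl | hkl
        · subst hkl; simp
        rcases eq_or_ne i j with hij | hij
        · subst hij; simp
        have := (ih m (by omega) ((s.erase i).erase j) ((t.erase k).erase l)
          (by rw [Finset.card_erase_of_mem (Finset.mem_erase.2 ⟨hij.symm, hj⟩),
                Finset.card_erase_of_mem hi, hs]; rfl)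
          (by rw [Finset.card_erase_of_mem (Finset.mem_erase.2 ⟨hkl.symm, hl⟩),
                Finset.card_erase_of_mem hk, ht]; rfl)).1
        have h1 := mul_nonneg (sq_nonneg (mu k - mu l)) (sq_nonneg (la i - la j))
        nlinarith
      have hk := key m (fun i => (la i : ℂ)) (fun i => (mu i : ℂ)) s t hs ht z ((starRingEnd ℂ) z)
      simp only [← P_map, ← box_map, W_conj, eval_conj, Complex.mul_conj] at hk
      have hI : (starRingEnd ℂ) z - z = - (2 * Complex.I * (z.im : ℂ)) := by
        apply Complex.ext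
        · simp
        · simp
          ring
      rw [hI] at hk
      have hk2 : (2 * Complex.I) * ((4 * ((m : ℝ) + 1) ^ 2 * (((m : ℝ) + 2) ^ 2 *
            ww ((box (m + 2) (P la s) (P mu t)).map (algebraMap ℝ ℂ)) z
          + ((m : ℝ) + 2) * z.im * ∑ j ∈ s, ∑ k ∈ t, Complex.normSq
            (((box (m + 1) (P la (s.erase j)) (P mu (t.erase k))).map
              (algebraMap ℝ ℂ)).eval z)) : ℝ) : ℂ)
          = (2 * Complex.I) * ((∑ k ∈ t, ∑ l ∈ t, ∑ i ∈ s, ∑ j ∈ s, (mu k - mu l) ^ 2 *
            ((la i - la j) ^ 2 * ww ((box m (P la ((s.erase i).erase j))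
              (P mu ((t.erase k).erase l))).map (algebraMap ℝ ℂ)) z) : ℝ) : ℂ) := by
        push_cast
        rw [Finset.mul_sum (s := t)]
        simp only [Finset.mul_sum (a := (2 * Complex.I : ℂ))]
        have e1 : ∀ k ∈ t, ∀ l ∈ t, ∀ i ∈ s, ∀ j ∈ s,
            (2 * Complex.I) * (((mu k : ℂ) - (mu l : ℂ)) ^ 2 * (((la i : ℂ) - (la j : ℂ)) ^ 2 *
              (ww ((box m (P la ((s.erase i).erase j))
              (P mu ((t.erase k).erase l))).map (algebraMap ℝ ℂ)) z : ℂ)))
            = ((mu k : ℂ) - (mu l : ℂ)) ^ 2 * (((la i : ℂ) - (la j : ℂ)) ^ 2 *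
              (2 * Complex.I * (ww ((box m (P la ((s.erase i).erase j))
              (P mu ((t.erase k).erase l))).map (algebraMap ℝ ℂ)) z : ℂ))) := by
          intro k _ l _ i _ j _
          ring
        rw [Finset.sum_congr rfl fun k hk => Finset.sum_congr rfl fun l hl =>
          Finset.sum_congr rfl fun i hi => Finset.sum_congr rfl fun j hj =>
            e1 k hk l hl i hi j hj, ← hk]
        ring
      have hk3 := mul_left_cancel₀ (by simp : (2 * Complex.I : ℂ) ≠ 0) hk2
      have hk4 : 4 * ((m : ℝ) + 1) ^ 2 * (((m : ℝ) + 2) ^ 2 *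
            ww ((box (m + 2) (P la s) (P mu t)).map (algebraMap ℝ ℂ)) z
          + ((m : ℝ) + 2) * z.im * ∑ j ∈ s, ∑ k ∈ t, Complex.normSq
            (((box (m + 1) (P la (s.erase j)) (P mu (t.erase k))).map
              (algebraMap ℝ ℂ)).eval z)) ≤ 0 := by
        have := Complex.ofReal_injective hk3
        rw [this]
        exact Finset.sum_nonpos fun k hk => Finset.sum_nonpos fun l hl =>
          Finset.sum_nonpos fun i hi => Finset.sum_nonpos fun j hj => hB k hk l hl i hi j hj
      have hpos : 0 < ∑ j ∈ s, ∑ k ∈ t, Complex.normSq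
            (((box (m + 1) (P la (s.erase j)) (P mu (t.erase k))).map
              (algebraMap ℝ ℂ)).eval z) := by
        have hsne : s.Nonempty := Finset.card_pos.1 (by omega)
        have htne : t.Nonempty := Finset.card_pos.1 (by omega)
        refine Finset.sum_pos (fun j hj => Finset.sum_pos (fun k hk => ?_) htne) hsne
        exact Complex.normSq_pos.2 (hA j hj k hk)
      have hm0 : (0 : ℝ) ≤ m := Nat.cast_nonneg m
      have h2 : ww ((box (m + 2) (P la s) (P mu t)).map (algebraMap ℝ ℂ)) z < 0 := by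
        by_contra hcon
        push Not at hcon
        have h3 : 0 < ((m : ℝ) + 2) * z.im * ∑ j ∈ s, ∑ k ∈ t, Complex.normSq
            (((box (m + 1) (P la (s.erase j)) (P mu (t.erase k))).map
              (algebraMap ℝ ℂ)).eval z) := by positivity
        have h4 : 0 ≤ ((m : ℝ) + 2) ^ 2 *
            ww ((box (m + 2) (P la s) (P mu t)).map (algebraMap ℝ ℂ)) z := by positivity
        have h5 : 0 < 4 * ((m : ℝ) + 1) ^ 2 * (((m : ℝ) + 2) ^ 2 *
            ww ((box (m + 2) (P la s) (P mu t)).map (algebraMap ℝ ℂ)) z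
          + ((m : ℝ) + 2) * z.im * ∑ j ∈ s, ∑ k ∈ t, Complex.normSq
            (((box (m + 1) (P la (s.erase j)) (P mu (t.erase k))).map
              (algebraMap ℝ ℂ)).eval z)) := by
          apply mul_pos
          · positivity
          · linarith
        linarith
      exact ⟨h2.le, ww_neg_ne _ _ h2⟩

theorem box_monic (n : ℕ) (f g : ℝ[X]) (hf : f.Monic) (hg : g.Monic) (hfn : f.natDegree = n)
    (hgn : g.natDegree = n) : (box n f g).Monic ∧ (box n f g).natDegree = n := by
  have h1 : (box n f g).coeff n = 1 := by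
    rw [coeff_box_natDegree n f g hfn.le]
    have a1 : f.coeff n = 1 := by rw [← hfn]; exact hf
    have a2 : g.coeff n = 1 := by rw [← hgn]; exact hg
    rw [a1, a2, mul_one]
  have h2 : (box n f g).natDegree ≤ n := (natDegree_box_le n f g).trans hfn.le
  have h3 : (box n f g).Monic := monic_of_natDegree_le_of_coeff_eq_one n h2 h1
  refine ⟨h3, le_antisymm h2 ?_⟩
  exact le_natDegree_of_ne_zero (by rw [h1]; exact one_ne_zero)

/-- **Real-rootedness of the finite free convolution.** -/
theorem box_real_rooted (n : ℕ) (la : ι → ℝ) (mu : κ → ℝ) (s : Finset ι) (t : Finset κ)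
    (hs : s.card = n) (ht : t.card = n) :
    ∃ ν : Fin n → ℝ, box n (P la s) (P mu t) = P ν univ := by
  have h := box_monic n (P la s) (P mu t) (P_monic _ _) (P_monic _ _)
    (by rw [P_natDegree, hs]) (by rw [P_natDegree, ht])
  exact exists_roots n _ h.1 h.2 fun z hz => (upper la mu z hz n s t hs ht).2

end

end Pool.Agent.V11331.FF
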