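import Pool.Agent.V11331.FF.Kernel

/-!
# Simplicity of the roots, and the finite free Stam inequality
-/

set_option autoImplicit false

namespace Pool.Agent.V11331.FF

open Polynomial Finset

section

variable {ι κ : Type*} [DecidableEq ι] [DecidableEq κ]

theorem lagr (la : ι → ℝ) (s : Finset ι) (hs : s.Nonempty) (hla : Set.InjOn la s) :
    ∃ c : ι → ℝ, ∑ j ∈ s, c j • P la (s.erase j) = 1 := by
  refine ⟨fun j => ∏ i ∈ s.erase j, (la j - la i)⁻¹, ?_⟩
  rw [← Lagrange.sum_basis hla hs]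
  refine Finset.sum_congr rfl fun j _ => ?_
  unfold Lagrange.basis Lagrange.basisDivisor P
  rw [Finset.prod_mul_distrib, smul_eq_C_mul, map_prod]

theorem erase_eval_zero {N : ℕ} (ν : Fin N → ℝ) (a c : Fin N) (h : a ≠ c) :
    (P ν (univ.erase c)).eval (ν a) = 0 := by
  unfold P
  rw [eval_prod]
  exact Finset.prod_eq_zero (Finset.mem_erase.2 ⟨h, Finset.mem_univ a⟩) (by simp)

/-- the roots of `p ⊞ q` are simple as soon as those of `p` are -/
theorem box_simple (n : ℕ) (la : ι → ℝ) (mu : κ → ℝ) (s : Finset ι) (t : Finset κ)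
    (hs : s.card = n) (ht : t.card = n) (hla : Set.InjOn la s) (ν : Fin n → ℝ)
    (hν : box n (P la s) (P mu t) = P ν univ) : Function.Injective ν := by
  match n, hs, ht, ν, hν with
  | 0, _, _, _, _ => exact fun a => a.elim0
  | 1, _, _, _, _ => exact Function.injective_of_subsingleton _
  | (n + 2), hs, ht, ν, hν =>
    intro a b hab
    by_contra hne
    have hηex : ∀ k l i m, ∃ η : Fin n → ℝ, (k ∈ t → l ∈ t → i ∈ s → m ∈ s → k ≠ l → i ≠ m →
        box n (P la ((s.erase i).erase m)) (P mu ((t.erase k).erase l)) = P η univ) := by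
      intro k l i m
      by_cases h : k ∈ t ∧ l ∈ t ∧ i ∈ s ∧ m ∈ s ∧ k ≠ l ∧ i ≠ m
      · obtain ⟨hk, hl, hi, hm, hkl, him⟩ := h
        obtain ⟨η, hη⟩ := box_real_rooted n la mu ((s.erase i).erase m) ((t.erase k).erase l)
          (by rw [Finset.card_erase_of_mem (Finset.mem_erase.2 ⟨him.symm, hm⟩),
                Finset.card_erase_of_mem hi, hs]; rfl)
          (by rw [Finset.card_erase_of_mem (Finset.mem_erase.2 ⟨hkl.symm, hl⟩),
                Finset.card_erase_of_mem hk, ht]; rfl)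
        exact ⟨η, fun _ _ _ _ _ _ => hη⟩
      · exact ⟨fun _ => 0, fun h1 h2 h3 h4 h5 h6 => absurd ⟨h1, h2, h3, h4, h5, h6⟩ h⟩
    choose η hη using hηex
    have hq := kernel_quad n la mu s t hs ht ν hν η
      (fun k hk l hl i hi m hm hkl him => hη k l i m hk hl hi hm hkl him)
      (α := Unit) (fun _ => 1) (fun _ => ν a)
    have h0 : ∀ c, (P ν (univ.erase c)).eval (ν a) = 0 := by
      intro c
      rcases eq_or_ne a c with h | h
      · rw [hab]
        exact erase_eval_zero ν b c (fun h' => hne (h.trans h'.symm))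
      · exact erase_eval_zero ν a c h
    simp only [Finset.univ_unique, Finset.sum_singleton, one_mul, h0] at hq
    have hR : 0 ≤ ∑ k ∈ t, ∑ l ∈ t, ∑ i ∈ s, ∑ m ∈ s, (mu k - mu l) ^ 2 * ((la i - la m) ^ 2
          * ∑ b, ((P (η k l i m) (univ.erase b)).eval (ν a)) ^ 2) := by
      refine Finset.sum_nonneg fun k _ => Finset.sum_nonneg fun l _ =>
        Finset.sum_nonneg fun i _ => Finset.sum_nonneg fun m _ => ?_
      have : 0 ≤ ∑ b, ((P (η k l i m) (univ.erase b)).eval (ν a)) ^ 2 :=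
        Finset.sum_nonneg fun b _ => sq_nonneg _
      positivity
    rw [← hq] at hR
    have hn0 : (0 : ℝ) ≤ n := Nat.cast_nonneg n
    have hAnn : 0 ≤ ∑ j ∈ s, ∑ k ∈ t,
          ((box (n + 1) (P la (s.erase j)) (P mu (t.erase k))).eval (ν a)) ^ 2 :=
      Finset.sum_nonneg fun j _ => Finset.sum_nonneg fun k _ => sq_nonneg _
    have hA0 : ∑ j ∈ s, ∑ k ∈ t,
          ((box (n + 1) (P la (s.erase j)) (P mu (t.erase k))).eval (ν a)) ^ 2 = 0 := by
      by_contra hcon
      have hpos := lt_of_le_of_ne hAnn (Ne.symm hcon)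
      have : 0 < 4 * ((n : ℝ) + 1) ^ 2 * (((n : ℝ) + 2) * ∑ j ∈ s, ∑ k ∈ t,
          ((box (n + 1) (P la (s.erase j)) (P mu (t.erase k))).eval (ν a)) ^ 2) := by positivity
      simp only [ne_eq, OfNat.ofNat_ne_zero, not_false_eq_true, zero_pow, Finset.sum_const_zero,
        mul_zero, zero_sub, mul_neg] at hR
      linarith
    have hA : ∀ j ∈ s, ∀ k ∈ t,
        (box (n + 1) (P la (s.erase j)) (P mu (t.erase k))).eval (ν a) = 0 := by
      intro j hj k hk
      have h1 := (Finset.sum_eq_zero_iff_of_nonneg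
        (fun j _ => Finset.sum_nonneg fun k _ => sq_nonneg _)).1 hA0 j hj
      have h2 := (Finset.sum_eq_zero_iff_of_nonneg (fun k _ => sq_nonneg _)).1 h1 k hk
      exact pow_eq_zero_iff (two_ne_zero) |>.1 h2
    have hsne : s.Nonempty := Finset.card_pos.1 (by omega)
    have htne : t.Nonempty := Finset.card_pos.1 (by omega)
    obtain ⟨k, hk⟩ := htne
    obtain ⟨c, hc⟩ := lagr la s hsne hla
    have h1 : (box (n + 1) (1 : ℝ[X]) (P mu (t.erase k))).eval (ν a) = 0 := by
      rw [← hc, map_sum, LinearMap.sum_apply, eval_finsetSum]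
      refine Finset.sum_eq_zero fun j hj => ?_
      rw [map_smul, LinearMap.smul_apply, eval_smul, hA j hj k hk, smul_zero]
    rw [box_one, eval_C] at h1
    have h2 : (P mu (t.erase k)).natDegree = n + 1 := by
      rw [P_natDegree, Finset.card_erase_of_mem hk, ht]; rfl
    have h3 := P_monic mu (t.erase k)
    unfold Monic leadingCoeff at h3
    rw [h2, h1] at h3
    exact zero_ne_one h3

end

/-- the finite score vector -/
noncomputable def J {N : ℕ} (la : Fin N → ℝ) (i : Fin N) : ℝ :=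
  ∑ j ∈ univ.erase i, 1 / (la i - la j)

/-- the finite Fisher information -/
noncomputable def Phi {N : ℕ} (la : Fin N → ℝ) : ℝ := ∑ i, J la i ^ 2

theorem erase_sum_comm {N : ℕ} {M : Type*} [AddCommMonoid M] (g : Fin N → Fin N → M) :
    ∑ i, ∑ j ∈ univ.erase i, g i j = ∑ i, ∑ j ∈ univ.erase i, g j i := by
  have h : ∀ g : Fin N → Fin N → M, ∑ i, ∑ j ∈ univ.erase i, g i j
      = ∑ i, ∑ j, if i = j then 0 else g i j := by
    intro g
    refine Finset.sum_congr rfl fun i _ => ?_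
    rw [← Finset.sum_subset (Finset.erase_subset i univ)]
    · refine Finset.sum_congr rfl fun j hj => ?_
      rw [if_neg (Finset.mem_erase.1 hj).1.symm]
    · intro j _ hj
      rw [if_pos]
      by_contra h
      exact hj (Finset.mem_erase.2 ⟨Ne.symm h, Finset.mem_univ j⟩)
  rw [h, h, Finset.sum_comm]
  refine Finset.sum_congr rfl fun i _ => Finset.sum_congr rfl fun j _ => ?_
  simp only [eq_comm]

theorem sum_J {N : ℕ} (la : Fin N → ℝ) : ∑ i, J la i = 0 := by
  have h : ∑ i, J la i = - ∑ i, J la i := by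
    unfold J
    conv_lhs => rw [erase_sum_comm]
    rw [← Finset.sum_neg_distrib]
    refine Finset.sum_congr rfl fun i _ => ?_
    rw [← Finset.sum_neg_distrib]
    refine Finset.sum_congr rfl fun j _ => ?_
    rw [← neg_sub (la i) (la j), div_neg]
  linarith

theorem J_poly {N : ℕ} (la : Fin N → ℝ) (hla : Function.Injective la) :
    (2 : ℝ) • ∑ j, J la j • P la (univ.erase j) = derivative (derivative (P la univ)) := by
  rw [P_derivative, derivative_sum]
  have h1 : ∑ j, J la j • P la (univ.erase j)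
      = ∑ j, ∑ i ∈ univ.erase j, (1 / (la j - la i)) • P la (univ.erase j) := by
    refine Finset.sum_congr rfl fun j _ => ?_
    unfold J
    rw [Finset.sum_smul]
  have h2 : (2 : ℝ) • ∑ j, J la j • P la (univ.erase j)
      = ∑ j, ∑ i ∈ univ.erase j, ((1 / (la j - la i)) • P la (univ.erase j)
        + (1 / (la i - la j)) • P la (univ.erase i)) := by
    simp only [Finset.sum_add_distrib]
    rw [← erase_sum_comm (fun j i => (1 / (la j - la i)) • P la (univ.erase j)), h1, two_smul]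
  rw [h2]
  refine Finset.sum_congr rfl fun j _ => ?_
  rw [P_derivative]
  refine Finset.sum_congr rfl fun i hi => ?_
  have hij : i ≠ j := (Finset.mem_erase.1 hi).1
  have h3 : P la (univ.erase j) = (X - C (la i)) * P la ((univ.erase j).erase i) :=
    (P_mul_erase la _ i hi).symm
  have h4 : P la (univ.erase i) = (X - C (la j)) * P la ((univ.erase j).erase i) := by
    rw [Finset.erase_right_comm]
    exact (P_mul_erase la _ j (Finset.mem_erase.2 ⟨hij.symm, Finset.mem_univ j⟩)).symm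
  rw [h3, h4]
  have hne : la j - la i ≠ 0 := sub_ne_zero.2 fun h => hij (hla h).symm
  have h5 : (1 / (la i - la j)) = - (1 / (la j - la i)) := by
    rw [← neg_sub (la j) (la i), div_neg]
  rw [h5, smul_eq_C_mul, smul_eq_C_mul, C_neg]
  have h6 : C (1 / (la j - la i)) * (C (la j) - C (la i)) = (1 : ℝ[X]) := by
    rw [← C_sub, ← C_mul, one_div, inv_mul_cancel₀ hne, C_1]
  linear_combination (P la ((univ.erase j).erase i)) * h6

/-- the derivative at a root -/
noncomputable def rd {N : ℕ} (ν : Fin N → ℝ) (a : Fin N) : ℝ := (P ν (univ.erase a)).eval (ν a)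

theorem rd_ne {N : ℕ} (ν : Fin N → ℝ) (hν : Function.Injective ν) (a : Fin N) : rd ν a ≠ 0 := by
  unfold rd P
  rw [eval_prod]
  refine Finset.prod_ne_zero_iff.2 fun i hi => ?_
  simp only [eval_sub, eval_X, eval_C]
  exact sub_ne_zero.2 fun h => (Finset.mem_erase.1 hi).1 (hν h).symm

/-- the functional `f ↦ ∑_a (J_a / r'(ν_a)) f(ν_a)` -/
noncomputable def LL {N : ℕ} (ν : Fin N → ℝ) : ℝ[X] →ₗ[ℝ] ℝ :=
  ∑ a, (J ν a / rd ν a) • (Polynomial.leval (ν a))

theorem LL_apply {N : ℕ} (ν : Fin N → ℝ) (f : ℝ[X]) :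
    LL ν f = ∑ a, (J ν a / rd ν a) * f.eval (ν a) := by
  unfold LL
  rw [LinearMap.sum_apply]
  rfl

theorem LL_erase {N : ℕ} (ν : Fin N → ℝ) (hν : Function.Injective ν) (c : Fin N) :
    LL ν (P ν (univ.erase c)) = J ν c := by
  rw [LL_apply, Finset.sum_eq_single c]
  · change J ν c / rd ν c * rd ν c = J ν c
    rw [div_mul_cancel₀ _ (rd_ne ν hν c)]
  · intro a _ ha
    rw [erase_eval_zero ν a c ha, mul_zero]
  · intro h
    exact absurd (Finset.mem_univ c) h

theorem LL_deriv {N : ℕ} (ν : Fin N → ℝ) (hν : Function.Injective ν) :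
    LL ν (derivative (P ν univ)) = 0 := by
  rw [P_derivative, map_sum, Finset.sum_congr rfl fun c _ => LL_erase ν hν c, sum_J]

theorem LL_deriv2 {N : ℕ} (ν : Fin N → ℝ) (hν : Function.Injective ν) :
    LL ν (derivative (derivative (P ν univ))) = 2 * Phi ν := by
  rw [← J_poly ν hν, map_smul, map_sum, smul_eq_mul]
  congr 1
  unfold Phi
  refine Finset.sum_congr rfl fun c _ => ?_
  rw [map_smul, LL_erase ν hν c, smul_eq_mul, sq]

/-- the vector `A^T J(ν)` -/
noncomputable def vv (n : ℕ) (la mu ν : Fin (n + 2) → ℝ) (j : Fin (n + 2)) : ℝ :=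
  LL ν (box (n + 2) (P la (univ.erase j)) (P mu univ))

/-- the vector `B^T J(ν)` -/
noncomputable def uu (n : ℕ) (la mu ν : Fin (n + 2) → ℝ) (k : Fin (n + 2)) : ℝ :=
  LL ν (box (n + 2) (P la univ) (P mu (univ.erase k)))

/-- the matrix of the values of the minors -/
noncomputable def aa (n : ℕ) (la mu ν : Fin (n + 2) → ℝ) (j k : Fin (n + 2)) : ℝ :=
  LL ν (box (n + 1) (P la (univ.erase j)) (P mu (univ.erase k)))

theorem card_univ_fin (N : ℕ) : (univ : Finset (Fin N)).card = N := Finset.card_fin N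

theorem sum_vv_J (n : ℕ) (la mu ν : Fin (n + 2) → ℝ) (hla : Function.Injective la)
    (hν' : Function.Injective ν) (hν : box (n + 2) (P la univ) (P mu univ) = P ν univ) :
    ∑ j, vv n la mu ν j * J la j = Phi ν := by
  have h1 : ∑ j, vv n la mu ν j * J la j
      = LL ν (box (n + 2) (∑ j, J la j • P la (univ.erase j)) (P mu univ)) := by
    rw [map_sum, LinearMap.sum_apply, map_sum]
    refine Finset.sum_congr rfl fun j _ => ?_
    rw [map_smul, LinearMap.smul_apply, map_smul, smul_eq_mul, mul_comm]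
    rfl
  have h2 : (2 : ℝ) * ∑ j, vv n la mu ν j * J la j = 2 * Phi ν := by
    rw [h1, ← smul_eq_mul, ← map_smul, ← LinearMap.smul_apply, ← map_smul, J_poly la hla,
      ← derivative_box, ← derivative_box, hν, LL_deriv2 ν hν']
  linarith

theorem sum_uu_J (n : ℕ) (la mu ν : Fin (n + 2) → ℝ) (hmu : Function.Injective mu)
    (hν' : Function.Injective ν) (hν : box (n + 2) (P la univ) (P mu univ) = P ν univ) :
    ∑ k, uu n la mu ν k * J mu k = Phi ν := by
  have hc : ∀ k, uu n la mu ν k = vv n mu la ν k := by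
    intro k
    unfold uu vv
    rw [box_comm]
    · rw [P_natDegree, card_univ_fin]
    · rw [P_natDegree, Finset.card_erase_of_mem (Finset.mem_univ k), card_univ_fin]
      omega
  simp only [hc]
  refine sum_vv_J n mu la ν hmu hν' ?_
  rw [box_comm, hν]
  · rw [P_natDegree, card_univ_fin]
  · rw [P_natDegree, card_univ_fin]

theorem row (n : ℕ) (la mu ν : Fin (n + 2) → ℝ) (j : Fin (n + 2)) :
    ((n : ℝ) + 2) * vv n la mu ν j = ∑ k, aa n la mu ν j k := by
  have h := R0 (n + 1) la mu univ univ (card_univ_fin (n + 2)) j (Finset.mem_univ j)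
  have h2 := congrArg (fun f => LL ν f) h
  simp only [map_smul, map_sum, smul_eq_mul] at h2
  unfold vv aa
  rw [← h2]
  push_cast
  ring

theorem col (n : ℕ) (la mu ν : Fin (n + 2) → ℝ) (k : Fin (n + 2)) :
    ((n : ℝ) + 2) * uu n la mu ν k = ∑ j, aa n la mu ν j k := by
  have h := R0 (n + 1) mu la univ univ (card_univ_fin (n + 2)) k (Finset.mem_univ k)
  have h2 := congrArg (fun f => LL ν f) h
  simp only [map_smul, map_sum, smul_eq_mul] at h2
  unfold uu aa
  have hd : ∀ (l : Fin (n + 2)) (m : Fin (n + 2) → ℝ), (P m (univ.erase l)).natDegree = n + 1 := by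
    intro l m
    rw [P_natDegree, Finset.card_erase_of_mem (Finset.mem_univ l), card_univ_fin]
    rfl
  rw [box_comm (n + 2) (P la univ) _ (by rw [P_natDegree, card_univ_fin]) (by rw [hd]; omega)]
  rw [Finset.sum_congr rfl fun j _ => by rw [box_comm (n + 1) (P la (univ.erase j))
    (P mu (univ.erase k)) (by rw [hd]) (by rw [hd])], ← h2]
  push_cast
  ring

theorem tot (n : ℕ) (la mu ν : Fin (n + 2) → ℝ)
    (hν' : Function.Injective ν) (hν : box (n + 2) (P la univ) (P mu univ) = P ν univ) :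
    ∑ j, vv n la mu ν j = 0 := by
  have h : ∑ j, vv n la mu ν j = LL ν (derivative (P ν univ)) := by
    rw [← hν, derivative_box, P_derivative, map_sum, LinearMap.sum_apply, map_sum]
    rfl
  rw [h, LL_deriv ν hν']

/-- the remaining squares -/
noncomputable def RR (n : ℕ) (la mu ν : Fin (n + 2) → ℝ)
    (η : Fin (n + 2) → Fin (n + 2) → Fin (n + 2) → Fin (n + 2) → Fin n → ℝ) : ℝ :=
  ∑ k, ∑ l, ∑ i, ∑ m, (mu k - mu l) ^ 2 * ((la i - la m) ^ 2
          * ∑ b, (LL ν (P (η k l i m) (univ.erase b))) ^ 2)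

theorem RR_nonneg (n : ℕ) (la mu ν : Fin (n + 2) → ℝ)
    (η : Fin (n + 2) → Fin (n + 2) → Fin (n + 2) → Fin (n + 2) → Fin n → ℝ) :
    0 ≤ RR n la mu ν η := by
  unfold RR
  refine Finset.sum_nonneg fun k _ => Finset.sum_nonneg fun l _ =>
    Finset.sum_nonneg fun i _ => Finset.sum_nonneg fun m _ => ?_
  have : 0 ≤ ∑ b, (LL ν (P (η k l i m) (univ.erase b))) ^ 2 :=
    Finset.sum_nonneg fun b _ => sq_nonneg _
  positivity

/-- **Exact sum-of-squares form of the finite free Stam inequality.** -/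
theorem stam_exact (n : ℕ) (la mu ν : Fin (n + 2) → ℝ) (hla : Function.Injective la)
    (hmu : Function.Injective mu) (hν' : Function.Injective ν)
    (hν : box (n + 2) (P la univ) (P mu univ) = P ν univ) (th : ℝ)
    (η : Fin (n + 2) → Fin (n + 2) → Fin (n + 2) → Fin (n + 2) → Fin n → ℝ)
    (hη : ∀ k l i m, k ≠ l → i ≠ m → box n (P la ((univ.erase i).erase m))
      (P mu ((univ.erase k).erase l)) = P (η k l i m) univ) :
    4 * ((n : ℝ) + 1) ^ 2 * ((n : ℝ) + 2) ^ 2
        * (th ^ 2 * Phi la + (1 - th) ^ 2 * Phi mu - Phi ν)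
      = 4 * ((n : ℝ) + 1) ^ 2 * ((n : ℝ) + 2) ^ 2
          * (∑ j, (vv n la mu ν j - th * J la j) ^ 2
            + ∑ k, (uu n la mu ν k - (1 - th) * J mu k) ^ 2)
        + 4 * ((n : ℝ) + 1) ^ 2 * ((n : ℝ) + 2)
          * ∑ j, ∑ k, (aa n la mu ν j k - vv n la mu ν j - uu n la mu ν k) ^ 2
        + RR n la mu ν η := by
  have hq := kernel_quad n la mu univ univ (card_univ_fin _) (card_univ_fin _) ν hν η
    (fun k _ l _ i _ m _ hkl him => hη k l i m hkl him)
    (fun a => J ν a / rd ν a) ν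
  simp only [← LL_apply] at hq
  have e1 : ∑ c, (LL ν (P ν (univ.erase c))) ^ 2 = Phi ν := by
    unfold Phi
    refine Finset.sum_congr rfl fun c _ => ?_
    rw [LL_erase ν hν' c]
  rw [e1] at hq
  have e2 : ∑ j, (vv n la mu ν j - th * J la j) ^ 2
      = ∑ j, vv n la mu ν j ^ 2 - 2 * th * Phi ν + th ^ 2 * Phi la := by
    rw [← sum_vv_J n la mu ν hla hν' hν]
    unfold Phi
    rw [Finset.mul_sum, Finset.mul_sum, ← Finset.sum_sub_distrib, ← Finset.sum_add_distrib]
    exact Finset.sum_congr rfl fun j _ => by ring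
  have e3 : ∑ k, (uu n la mu ν k - (1 - th) * J mu k) ^ 2
      = ∑ k, uu n la mu ν k ^ 2 - 2 * (1 - th) * Phi ν + (1 - th) ^ 2 * Phi mu := by
    rw [← sum_uu_J n la mu ν hmu hν' hν]
    unfold Phi
    rw [Finset.mul_sum, Finset.mul_sum, ← Finset.sum_sub_distrib, ← Finset.sum_add_distrib]
    exact Finset.sum_congr rfl fun j _ => by ring
  have e4 : ∑ j, ∑ k, (aa n la mu ν j k - vv n la mu ν j - uu n la mu ν k) ^ 2
      = ∑ j, ∑ k, (aa n la mu ν j k) ^ 2 - ((n : ℝ) + 2) * ∑ j, vv n la mu ν j ^ 2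
        - ((n : ℝ) + 2) * ∑ k, uu n la mu ν k ^ 2 := by
    have c1 : ∑ j, ∑ k, (aa n la mu ν j k - vv n la mu ν j - uu n la mu ν k) ^ 2
        = ∑ j, ∑ k, (aa n la mu ν j k) ^ 2
          - 2 * ∑ j, vv n la mu ν j * ∑ k, aa n la mu ν j k
          - 2 * ∑ k, uu n la mu ν k * ∑ j, aa n la mu ν j k
          + ((n : ℝ) + 2) * ∑ j, vv n la mu ν j ^ 2 + ((n : ℝ) + 2) * ∑ k, uu n la mu ν k ^ 2
          + 2 * (∑ j, vv n la mu ν j) * ∑ k, uu n la mu ν k := by
      have d1 : ∑ k, uu n la mu ν k * ∑ j, aa n la mu ν j k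
          = ∑ j, ∑ k, uu n la mu ν k * aa n la mu ν j k := by
        rw [Finset.sum_comm]
        exact Finset.sum_congr rfl fun k _ => Finset.mul_sum _ _ _
      have d2 : ((n : ℝ) + 2) * ∑ j, vv n la mu ν j ^ 2
          = ∑ j, ∑ _k : Fin (n + 2), vv n la mu ν j ^ 2 := by
        rw [Finset.mul_sum]
        refine Finset.sum_congr rfl fun j _ => ?_
        rw [Finset.sum_const, card_univ_fin, nsmul_eq_mul]
        push_cast
        ring
      have d3 : ((n : ℝ) + 2) * ∑ k, uu n la mu ν k ^ 2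
          = ∑ _j : Fin (n + 2), ∑ k, uu n la mu ν k ^ 2 := by
        rw [Finset.sum_const, card_univ_fin, nsmul_eq_mul]
        push_cast
        ring
      have d4 : (∑ j, vv n la mu ν j) * ∑ k, uu n la mu ν k
          = ∑ j, ∑ k, vv n la mu ν j * uu n la mu ν k := Finset.sum_mul_sum _ _ _ _
      rw [d1, d2, d3, mul_assoc 2, d4]
      simp only [Finset.mul_sum, ← Finset.sum_sub_distrib, ← Finset.sum_add_distrib]
      refine Finset.sum_congr rfl fun j _ => Finset.sum_congr rfl fun k _ => ?_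
      ring
    rw [c1, tot n la mu ν hν' hν]
    simp only [← row, ← col]
    have d5 : ∑ j, vv n la mu ν j * (((n : ℝ) + 2) * vv n la mu ν j)
        = ((n : ℝ) + 2) * ∑ j, vv n la mu ν j ^ 2 := by
      rw [Finset.mul_sum]
      exact Finset.sum_congr rfl fun j _ => by ring
    have d6 : ∑ j, uu n la mu ν j * (((n : ℝ) + 2) * uu n la mu ν j)
        = ((n : ℝ) + 2) * ∑ j, uu n la mu ν j ^ 2 := by
      rw [Finset.mul_sum]
      exact Finset.sum_congr rfl fun j _ => by ring
    rw [d5, d6]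
    ring
  rw [e2, e3, e4]
  have hRR : RR n la mu ν η = 4 * ((n : ℝ) + 1) ^ 2 * (((n : ℝ) + 2) ^ 2 * Phi ν
      - ((n : ℝ) + 2) * ∑ j, ∑ k, (aa n la mu ν j k) ^ 2) := hq.symm
  rw [hRR]
  ring

theorem exists_eta (n : ℕ) (la mu : Fin (n + 2) → ℝ) :
    ∃ η : Fin (n + 2) → Fin (n + 2) → Fin (n + 2) → Fin (n + 2) → Fin n → ℝ,
      ∀ k l i m, k ≠ l → i ≠ m → box n (P la ((univ.erase i).erase m))
      (P mu ((univ.erase k).erase l)) = P (η k l i m) univ := by
  have hηex : ∀ k l i m : Fin (n + 2), ∃ η : Fin n → ℝ, (k ≠ l → i ≠ m →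
        box n (P la ((univ.erase i).erase m)) (P mu ((univ.erase k).erase l)) = P η univ) := by
    intro k l i m
    by_cases h : k ≠ l ∧ i ≠ m
    · obtain ⟨hkl, him⟩ := h
      obtain ⟨η, hη⟩ := box_real_rooted n la mu ((univ.erase i).erase m) ((univ.erase k).erase l)
          (by rw [Finset.card_erase_of_mem (Finset.mem_erase.2 ⟨him.symm, Finset.mem_univ m⟩),
                Finset.card_erase_of_mem (Finset.mem_univ i), card_univ_fin]; rfl)
          (by rw [Finset.card_erase_of_mem (Finset.mem_erase.2 ⟨hkl.symm, Finset.mem_univ l⟩),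
                Finset.card_erase_of_mem (Finset.mem_univ k), card_univ_fin]; rfl)
      exact ⟨η, fun _ _ => hη⟩
    · exact ⟨fun _ => 0, fun h1 h2 => absurd ⟨h1, h2⟩ h⟩
  choose η hη using hηex
  exact ⟨η, hη⟩

/-- **Finite free Stam inequality** (weighted form). -/
theorem stam (n : ℕ) (la mu ν : Fin (n + 2) → ℝ) (hla : Function.Injective la)
    (hmu : Function.Injective mu) (hν' : Function.Injective ν)
    (hν : box (n + 2) (P la univ) (P mu univ) = P ν univ) (th : ℝ) :
    Phi ν ≤ th ^ 2 * Phi la + (1 - th) ^ 2 * Phi mu := by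
  obtain ⟨η, hη⟩ := exists_eta n la mu
  have h := stam_exact n la mu ν hla hmu hν' hν th η hη
  have h1 : 0 ≤ ∑ j, (vv n la mu ν j - th * J la j) ^ 2 :=
    Finset.sum_nonneg fun j _ => sq_nonneg _
  have h2 : 0 ≤ ∑ k, (uu n la mu ν k - (1 - th) * J mu k) ^ 2 :=
    Finset.sum_nonneg fun j _ => sq_nonneg _
  have h3 : 0 ≤ ∑ j, ∑ k, (aa n la mu ν j k - vv n la mu ν j - uu n la mu ν k) ^ 2 :=
    Finset.sum_nonneg fun j _ => Finset.sum_nonneg fun k _ => sq_nonneg _
  have h4 := RR_nonneg n la mu ν η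
  have hn : (0 : ℝ) ≤ n := Nat.cast_nonneg n
  have hpos : 0 < 4 * ((n : ℝ) + 1) ^ 2 * ((n : ℝ) + 2) ^ 2 := by positivity
  have h7 := mul_nonneg hpos.le (add_nonneg h1 h2)
  have hpos2 : 0 ≤ 4 * ((n : ℝ) + 1) ^ 2 * ((n : ℝ) + 2) := by positivity
  have h8 := mul_nonneg hpos2 h3
  have h5 : 0 ≤ 4 * ((n : ℝ) + 1) ^ 2 * ((n : ℝ) + 2) ^ 2
        * (th ^ 2 * Phi la + (1 - th) ^ 2 * Phi mu - Phi ν) := by
    rw [h]
    exact add_nonneg (add_nonneg h7 h8) h4
  have h6 := nonneg_of_mul_nonneg_right h5 hpos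
  linarith

end Pool.Agent.V11331.FF
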